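import Pool.Agent.TH338.DD.Code

/-!
The part of an invariant measure singular to Lebesgue measure is carried, up to a small mass, by an
open set without two points differing by nearly a nonzero multiple of `1 / Q`.
-/

set_option autoImplicit false

open MeasureTheory Filter Topology Set
open scoped ENNReal BoundedContinuousFunction

namespace Pool.Agent.TH338.DD

open Pool.Agent.W764.HL Pool.Agent.W764.SH
open Pool.Agent.W764.FB (T hh hh_zero close_hh norm_hh)

lemma mp_pow {q : ℕ} {μ : Measure T} (hiq : MeasurePreserving (fun x : T => q • x) μ μ) (M : ℕ) :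
    MeasurePreserving (fun x : T => (q ^ M) • x) μ μ := by
  induction M with
  | zero =>
    have e : (fun x : T => (q ^ 0) • x) = id := by
      funext x
      simp
    rw [e]
    exact MeasurePreserving.id μ
  | succ M ih =>
    have h1 := ih.comp hiq
    have e : ((fun x : T => (q ^ M) • x) ∘ fun x : T => q • x) = fun x : T => (q ^ (M + 1)) • x := by
      funext x
      show (q ^ M) • (q • x) = _
      rw [smul_smul, pow_succ]
    rwa [e] at h1

/-- a large open set on which `×q^M` is injective -/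
theorem apart_set {p q : ℕ} (hp : 2 ≤ p) (hq : 2 ≤ q) (hpq : Nat.Coprime p q) {M : ℕ} (hM : 1 ≤ M)
    (μ : Measure T) [IsProbabilityMeasure μ] (hip : MeasurePreserving (fun x : T => p • x) μ μ)
    (hiq : MeasurePreserving (fun x : T => q • x) μ μ) :
    ∃ c : ℝ, 0 ≤ c ∧ c ≤ 1 ∧ (∀ A : Set T, MeasurableSet A → c * (volume : Measure T).real A ≤
      μ.real A) ∧ ∀ η : ℝ, 0 < η → ∃ G : Set T, IsOpen G ∧ 1 - c - η ≤ μ.real G ∧
        ∃ δ : ℝ, 0 < δ ∧ Apart (q ^ M) G δ := by
  set Q : ℕ := q ^ M with hQ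
  have hQ2 : 2 ≤ Q := by
    calc 2 ≤ q := hq
      _ = q ^ 1 := (pow_one q).symm
      _ ≤ q ^ M := Nat.pow_le_pow_right (by omega) hM
  have hcop : Nat.Coprime Q p := (hpq.pow_right M).symm
  obtain ⟨D, hDm, -, -, hD, B, hBm, hB0, hB⟩ := decomp hQ2 hp hcop μ (mp_pow hiq M) hip
  refine ⟨μ.real D, measureReal_nonneg, measureReal_le_one, fun A hA => ?_, fun η hη => ?_⟩
  · have h1 : (μ.restrict D) A ≤ μ A := Measure.restrict_apply_le _ _
    rw [hD, Measure.smul_apply, smul_eq_mul] at h1
    have h2 := ENNReal.toReal_mono (measure_ne_top _ _) h1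
    rw [ENNReal.toReal_mul] at h2
    exact h2
  · rcases lt_or_ge (1 - μ.real D - η) 0 with hneg | hpos
    · refine ⟨∅, isOpen_empty, hneg.le.trans measureReal_nonneg, 1, one_pos, ?_⟩
      intro y hy
      exact absurd hy (Set.notMem_empty y)
    set E : Set T := B ∩ Dᶜ with hE
    have hEm : MeasurableSet E := hBm.inter hDm.compl
    have hEc : μ.real E = 1 - μ.real D := by
      have h1 : μ E = μ Dᶜ := by
        refine le_antisymm (measure_mono inter_subset_right) ?_
        have h2 : Dᶜ ⊆ E ∪ (Dᶜ \ B) := by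
          intro x hx
          by_cases hxB : x ∈ B
          · exact Or.inl ⟨hxB, hx⟩
          · exact Or.inr ⟨hx, hxB⟩
        calc μ Dᶜ ≤ μ (E ∪ (Dᶜ \ B)) := measure_mono h2
          _ ≤ μ E + μ (Dᶜ \ B) := measure_union_le _ _
          _ = μ E := by rw [hB0, add_zero]
      rw [measureReal_def, h1, ← measureReal_def]
      exact probReal_compl_eq_one_sub hDm
    have hE0 : 0 < μ.real E := by rw [hEc]; linarith
    have hE0' : μ E ≠ 0 := by
      intro h
      rw [measureReal_def, h] at hE0
      simp at hE0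
    obtain ⟨Z, hZE, hZc, hZ⟩ : ∃ Z ⊆ E, IsCompact Z ∧ μ E - ENNReal.ofReal η < μ Z := by
      refine hEm.exists_lt_isCompact ?_
      exact ENNReal.sub_lt_self (measure_ne_top _ _) hE0' (by simpa using hη)
    have hZreal : 1 - μ.real D - η ≤ μ.real Z := by
      have h1 := (ENNReal.sub_lt_iff_lt_right ENNReal.ofReal_ne_top (by
        rw [ENNReal.ofReal_le_iff_le_toReal (measure_ne_top _ _)]
        rw [← measureReal_def, hEc]; linarith)).1 hZ
      have h2 := ENNReal.toReal_mono (by finiteness) h1.le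
      rw [ENNReal.toReal_add (measure_ne_top _ _) ENNReal.ofReal_ne_top,
        ENNReal.toReal_ofReal hη.le, ← measureReal_def, ← measureReal_def, hEc] at h2
      linarith
    have hsep : ∀ k : ℕ, ∃ η > 0, (1 ≤ k → k < Q → ∀ x ∈ Z, ∀ y ∈ Z,
        η < ‖x - y - hh Q 1 k‖) := by
      intro k
      by_cases hk : 1 ≤ k ∧ k < Q
      · set Z' : Set T := (fun y => y + hh Q 1 k) '' Z with hZ'
        have hZ'c : IsCompact Z' := hZc.image (continuous_add_const _)
        have hdisj : Disjoint Z Z' := by
          rw [Set.disjoint_left]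
          rintro x hx ⟨y, hy, rfl⟩
          exact hB y (hZE hy).1 k hk.1 hk.2 (hZE hx).1
        obtain ⟨r, hr, hrr⟩ := Metric.exists_pos_forall_lt_edist hZc hZ'c.isClosed hdisj
        refine ⟨r, by exact_mod_cast hr, fun _ _ x hx y hy => ?_⟩
        have h1 := hrr x hx (y + hh Q 1 k) ⟨y, hy, rfl⟩
        rw [edist_dist, ENNReal.lt_ofReal_iff_toReal_lt (by simp)] at h1
        rw [dist_eq_norm] at h1
        have e : x - (y + hh Q 1 k) = x - y - hh Q 1 k := by abel
        rw [e] at h1
        simpa using h1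
      · exact ⟨1, one_pos, fun h1 h2 => absurd ⟨h1, h2⟩ hk⟩
    choose η' hη' hsep using hsep
    obtain ⟨k0, -, hk0⟩ := (Finset.range Q).exists_min_image η' ⟨0, Finset.mem_range.2 (by omega)⟩
    have hδ0 := hη' k0
    refine ⟨Metric.thickening (η' k0 / 4) Z, Metric.isOpen_thickening, ?_, η' k0 / 2,
      by linarith, ?_⟩
    · refine hZreal.trans (measureReal_mono (Metric.self_subset_thickening (by linarith) Z)
        (measure_ne_top _ _))
    · intro y hy z hz k hk1 hkQ
      rw [Metric.mem_thickening_iff] at hy hz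
      obtain ⟨y', hy', hyy⟩ := hy
      obtain ⟨z', hz', hzz⟩ := hz
      rw [dist_eq_norm] at hyy hzz
      have h1 := hsep k hk1 hkQ y' hy' z' hz'
      have h2 := hk0 k (Finset.mem_range.2 hkQ)
      have e : y' - z' - hh Q 1 k = (y - z - hh Q 1 k) - (y - y') + (z - z') := by abel
      have h3 : ‖y' - z' - hh Q 1 k‖ ≤ ‖y - z - hh Q 1 k‖ + ‖y - y'‖ + ‖z - z'‖ := by
        rw [e]
        exact (norm_add_le _ _).trans (add_le_add (_root_.norm_sub_le _ _) le_rfl)
      linarith

end Pool.Agent.TH338.DD
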