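import Pool.Agent.TH338.DD.Low

/-!
Coding of points by their visits to a set on which `×q^M` is injective.
-/

set_option autoImplicit false

open MeasureTheory Filter Topology Set

namespace Pool.Agent.TH338.DD

open Pool.Agent.W764.HL Pool.Agent.W764.SH
open Pool.Agent.W764.FB (T hh hh_zero close_hh norm_hh)

/-- no two points of `G` differ by nearly a nonzero multiple of `1 / Q` -/
def Apart (Q : ℕ) (G : Set T) (δ : ℝ) : Prop :=
  ∀ y ∈ G, ∀ z ∈ G, ∀ k, 1 ≤ k → k < Q → δ < ‖y - z - hh Q 1 k‖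

lemma smul_hh {Q : ℕ} (hQ : 0 < Q) (m k : ℕ) : m • hh Q 1 k = hh Q 1 (m * k % Q) := by
  rw [hh_mod hQ]
  unfold hh
  rw [← AddCircle.coe_nsmul]
  congr 1
  rw [nsmul_eq_mul]
  push_cast
  ring

/-- the step at a visit to `G` -/
lemma step_good {Q m : ℕ} (hQ : 1 ≤ Q) (hm : Nat.Coprime m Q) {G : Set T} {δ : ℝ}
    (hG : Apart Q G δ) {x y : T} (hx : m • x ∈ G) (hy : m • y ∈ G) {e : ℝ}
    (he : ‖Q • (x - y)‖ ≤ e) (hme : m * e ≤ Q * δ) : ‖x - y‖ ≤ e / Q := by
  have hQR : (0 : ℝ) < Q := by exact_mod_cast hQ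
  obtain ⟨k, hk, hk2⟩ := close_hh hQ (x - y)
  have hk3 : ‖x - y - hh Q 1 k‖ ≤ e / Q := hk2.trans (by gcongr)
  rcases Nat.eq_zero_or_pos k with h0 | h0
  · rwa [h0, hh_zero, sub_zero] at hk3
  · exfalso
    have hk' : 1 ≤ m * k % Q := by
      rw [Nat.one_le_iff_ne_zero]
      intro h
      have h1 : Q ∣ m * k := Nat.dvd_of_mod_eq_zero h
      have h2 : Q ∣ k := hm.symm.dvd_of_dvd_mul_left h1
      have := Nat.le_of_dvd h0 h2
      omega
    have h1 := hG (m • x) hx (m • y) hy (m * k % Q) hk' (Nat.mod_lt _ hQ)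
    rw [← smul_hh hQ, ← smul_sub, ← smul_sub] at h1
    have h2 : ‖m • (x - y - hh Q 1 k)‖ ≤ m * ‖x - y - hh Q 1 k‖ := norm_nsmul_le
    have h3 : (m : ℝ) * ‖x - y - hh Q 1 k‖ ≤ m * (e / Q) := by gcongr
    have h4 : (m : ℝ) * (e / Q) ≤ δ := by
      rw [← mul_div_assoc, div_le_iff₀ hQR, mul_comm δ]
      exact hme
    linarith

/-- the step at a visit outside `G` -/
lemma step_bad {Q i : ℕ} (hQ : 1 ≤ Q) {x y : T} (h : cell i x = cell i y) (hi : 2 * Q ≤ 2 ^ i)
    {e : ℝ} (he : ‖Q • (x - y)‖ ≤ e) (he1 : e ≤ 1 / 2) : ‖x - y‖ ≤ e / Q := by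
  have hQR : (0 : ℝ) < Q := by exact_mod_cast hQ
  obtain ⟨k, hk, hk2⟩ := close_hh hQ (x - y)
  have hk3 : ‖x - y - hh Q 1 k‖ ≤ e / Q := hk2.trans (by gcongr)
  rcases Nat.eq_zero_or_pos k with h0 | h0
  · rwa [h0, hh_zero, sub_zero] at hk3
  · exfalso
    have h1 := norm_hh h0 hk
    have h2 : ‖x - y‖ < 1 / 2 ^ i := (norm_sub_le x y).trans_lt (close_of_cell h)
    have h3 : (1 : ℝ) / 2 ^ i ≤ 1 / (2 * Q) := by
      have : (2 * Q : ℝ) ≤ 2 ^ i := by exact_mod_cast hi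
      gcongr
    have h4 : ‖hh Q 1 k‖ ≤ ‖x - y‖ + ‖x - y - hh Q 1 k‖ := by
      have e1 : hh Q 1 k = (x - y) - (x - y - hh Q 1 k) := by abel
      calc ‖hh Q 1 k‖ = ‖(x - y) - (x - y - hh Q 1 k)‖ := by rw [← e1]
        _ ≤ _ := _root_.norm_sub_le _ _
    have h5 : e / Q ≤ 1 / 2 / Q := by gcongr
    have h6 : (1 : ℝ) / 2 / Q = 1 / (2 * Q) := by field_simp
    have h7 : (1 : ℝ) / Q = 1 / (2 * Q) + 1 / (2 * Q) := by field_simp; norm_num
    linarith

/-- the exponent of `p` at the level `Y` -/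
noncomputable def ex (p q : ℕ) (Y : ℝ) (b : ℕ) : ℕ :=
  ⌈(Real.log Y - b * Real.log q) / Real.log p⌉₊

/-- the position on the path of level `Y` -/
noncomputable def pos (p q : ℕ) (Y : ℝ) (b : ℕ) : ℕ := p ^ ex p q Y b * q ^ b

lemma le_pos {p q : ℕ} (hp : 2 ≤ p) (hq : 2 ≤ q) {Y : ℝ} (hY : 0 < Y) (b : ℕ) :
    Y ≤ pos p q Y b := by
  obtain ⟨hlp, hlq⟩ := log_pos' hp hq
  have hn : (0 : ℝ) < ((pos p q Y b : ℕ) : ℝ) := by
    have : 0 < pos p q Y b := by unfold pos; positivity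
    exact_mod_cast this
  rw [← Real.log_le_log_iff hY hn]
  unfold pos
  rw [log_pow_mul hp hq]
  have h1 : (Real.log Y - b * Real.log q) / Real.log p ≤ ex p q Y b := Nat.le_ceil _
  rw [div_le_iff₀ hlp] at h1
  linarith

lemma pos_lt {p q : ℕ} (hp : 2 ≤ p) (hq : 2 ≤ q) {Y : ℝ} (hY : 0 < Y) {b : ℕ}
    (hb : (q : ℝ) ^ b ≤ Y) : (pos p q Y b : ℝ) < p * Y := by
  obtain ⟨hlp, hlq⟩ := log_pos' hp hq
  have hp0 : (0 : ℝ) < p := by
    have : 0 < p := by omega
    exact_mod_cast this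
  have hq0 : (0 : ℝ) < q := by
    have : 0 < q := by omega
    exact_mod_cast this
  have hn : (0 : ℝ) < ((pos p q Y b : ℕ) : ℝ) := by
    have : 0 < pos p q Y b := by unfold pos; positivity
    exact_mod_cast this
  rw [← Real.log_lt_log_iff hn (by positivity), Real.log_mul hp0.ne' hY.ne']
  unfold pos
  rw [log_pow_mul hp hq]
  have h0 : b * Real.log q ≤ Real.log Y := by
    rw [← Real.log_pow]
    exact Real.log_le_log (by positivity) hb
  have h1 : (ex p q Y b : ℝ) < (Real.log Y - b * Real.log q) / Real.log p + 1 :=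
    Nat.ceil_lt_add_one (div_nonneg (by linarith) hlp.le)
  have h2 : (ex p q Y b : ℝ) * Real.log p <
      ((Real.log Y - b * Real.log q) / Real.log p + 1) * Real.log p := by gcongr
  rw [add_mul, div_mul_cancel₀ _ hlp.ne', one_mul] at h2
  linarith

open Classical in
/-- the symbol of the point at the position -/
noncomputable def sym (p q : ℕ) (Y : ℝ) (G : Set T) (i1 b : ℕ) (x : T) : Option (Fin (2 ^ i1)) :=
  if pos p q Y b • x ∈ G then none else some ⟨cell i1 (q ^ b • x), cell_lt _ _⟩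

/-- one step of the decoding -/
lemma code_step {p q M : ℕ} (hq : 2 ≤ q) (hpq : Nat.Coprime p q) {G : Set T} {δ : ℝ}
    (hG : Apart (q ^ M) G δ) {Y : ℝ} {i1 b : ℕ} (hi : 2 * q ^ M ≤ 2 ^ i1) {x y : T}
    (hsym : sym p q Y G i1 b x = sym p q Y G i1 b y) {e : ℝ}
    (he : ‖q ^ (b + M) • (x - y)‖ ≤ e) (he1 : e ≤ 1 / 2)
    (hme : (p : ℝ) ^ ex p q Y b * e ≤ (q : ℝ) ^ M * δ) :
    ‖q ^ b • (x - y)‖ ≤ e / (q : ℝ) ^ M := by
  have hQ : 1 ≤ q ^ M := Nat.one_le_pow _ _ (by omega)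
  have he' : ‖(q ^ M) • (q ^ b • x - q ^ b • y)‖ ≤ e := by
    rw [← smul_sub, smul_smul, ← pow_add, add_comm M b]
    exact he
  rw [smul_sub]
  unfold sym at hsym
  by_cases h1 : pos p q Y b • x ∈ G
  · by_cases h2 : pos p q Y b • y ∈ G
    · have h3 : ∀ z : T, pos p q Y b • z = (p ^ ex p q Y b) • (q ^ b • z) := fun z => by
        unfold pos
        rw [smul_smul]
      rw [h3] at h1 h2
      have h4 := step_good hQ (Nat.Coprime.pow _ _ hpq) hG h1 h2 he' (by
        push_cast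
        exact hme)
      push_cast at h4
      exact h4
    · rw [if_pos h1, if_neg h2] at hsym
      exact absurd hsym (by simp)
  · by_cases h2 : pos p q Y b • y ∈ G
    · rw [if_neg h1, if_pos h2] at hsym
      exact absurd hsym (by simp)
    · rw [if_neg h1, if_neg h2] at hsym
      have h3 : cell i1 (q ^ b • x) = cell i1 (q ^ b • y) := by
        simpa using hsym
      have h4 := step_bad hQ h3 hi he' he1
      push_cast at h4
      exact h4

/-- the decoding along a path -/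
lemma code_path {p q M : ℕ} (hp : 2 ≤ p) (hq : 2 ≤ q) (hpq : Nat.Coprime p q) {G : Set T} {δ : ℝ}
    (hG : Apart (q ^ M) G δ) {Y : ℝ} (hY : 0 < Y) {i1 r J : ℕ} (hi : 2 * q ^ M ≤ 2 ^ i1) {x y : T}
    (hsym : ∀ i < J, sym p q Y G i1 (r + M * i) x = sym p q Y G i1 (r + M * i) y) {e : ℝ}
    (he0 : 0 < e) (he1 : e ≤ 1 / 2) (hpe : p * e ≤ δ)
    (hlast : Y ≤ (q : ℝ) ^ (r + M * J)) (hmin : ∀ i < J, (q : ℝ) ^ (r + M * i) ≤ Y)
    (he : ‖q ^ (r + M * J) • (x - y)‖ ≤ e) :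
    ‖q ^ r • (x - y)‖ ≤ e / (q : ℝ) ^ (M * J) := by
  have hq1 : (1 : ℝ) ≤ q := by exact_mod_cast (by omega : 1 ≤ q)
  have hq0 : (0 : ℝ) < q := by linarith
  have hp0 : (0 : ℝ) < p := by
    have : 0 < p := by omega
    exact_mod_cast this
  have key : ∀ i, i ≤ J → ‖q ^ (r + M * (J - i)) • (x - y)‖ ≤ e / (q : ℝ) ^ (M * i) := by
    intro i
    induction i with
    | zero =>
      intro _
      simpa using he
    | succ i ih =>
      intro hi'
      have h1 := ih (by omega)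
      have hJi : J - i = (J - (i + 1)) + 1 := by omega
      have e1 : r + M * (J - i) = (r + M * (J - (i + 1))) + M := by
        rw [hJi]; ring
      rw [e1] at h1
      have hpow : (1 : ℝ) ≤ (q : ℝ) ^ (M * i) := one_le_pow₀ hq1
      have hle : e / (q : ℝ) ^ (M * i) ≤ 1 / 2 := (div_le_self he0.le hpow).trans he1
      have h2 := code_step hq hpq hG hi (hsym (J - (i + 1)) (by omega)) h1 hle (by
        have h3 := pos_lt hp hq hY (hmin (J - (i + 1)) (by omega))
        have h4 : (p : ℝ) ^ ex p q Y (r + M * (J - (i + 1))) *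
            (q : ℝ) ^ (r + M * (J - (i + 1))) < p * (q : ℝ) ^ (r + M * J) := by
          unfold pos at h3
          push_cast at h3
          refine h3.trans_le ?_
          gcongr
        have e2 : r + M * J = (r + M * (J - (i + 1))) + M * (i + 1) := by
          have : J = (J - (i + 1)) + (i + 1) := by omega
          conv_lhs => rw [this]
          ring
        rw [e2, pow_add (q : ℝ) (r + M * (J - (i + 1))) (M * (i + 1)),
          mul_comm ((q : ℝ) ^ (r + M * (J - (i + 1)))) _, ← mul_assoc] at h4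
        have h5 := lt_of_mul_lt_mul_right h4 (by positivity)
        rw [← mul_div_assoc, div_le_iff₀ (by positivity)]
        calc (p : ℝ) ^ ex p q Y (r + M * (J - (i + 1))) * e ≤ p * (q : ℝ) ^ (M * (i + 1)) * e := by
              gcongr
          _ = (p * e) * ((q : ℝ) ^ M * (q : ℝ) ^ (M * i)) := by
              rw [← pow_add]
              have : M * (i + 1) = M + M * i := by ring
              rw [this]
              ring
          _ ≤ δ * ((q : ℝ) ^ M * (q : ℝ) ^ (M * i)) := by gcongr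
          _ = (q : ℝ) ^ M * δ * (q : ℝ) ^ (M * i) := by ring)
      refine h2.trans (le_of_eq ?_)
      rw [div_div, ← pow_add]
      congr 2
  have h1 := key J le_rfl
  simpa using h1

/-- the points with the same code are close -/
lemma code_inj {p q M : ℕ} (hp : 2 ≤ p) (hq : 2 ≤ q) (hpq : Nat.Coprime p q) {G : Set T} {δ : ℝ}
    (hG : Apart (q ^ M) G δ) {Y : ℝ} (hY : 0 < Y) {i0 i1 r J : ℕ} (hr : r < M)
    (hi : 2 * q ^ M ≤ 2 ^ i1) {x y : T}
    (hsym : ∀ i < J, sym p q Y G i1 (r + M * i) x = sym p q Y G i1 (r + M * i) y)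
    (hi0 : 2 ≤ 2 ^ i0) (hpe : (p : ℝ) ≤ δ * 2 ^ i0)
    (hlast : Y ≤ (q : ℝ) ^ (r + M * J)) (hmin : ∀ i < J, (q : ℝ) ^ (r + M * i) ≤ Y)
    (h0 : cell i0 (q ^ (r + M * J) • x) = cell i0 (q ^ (r + M * J) • y))
    (h1 : cell i1 x = cell i1 y) : ‖x - y‖ < 1 / Y := by
  have hq1 : (1 : ℝ) ≤ q := by exact_mod_cast (by omega : 1 ≤ q)
  have hq0 : (0 : ℝ) < q := by linarith
  have hi0R : (2 : ℝ) ≤ 2 ^ i0 := by exact_mod_cast hi0
  have hi0p : (0 : ℝ) < 2 ^ i0 := by positivity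
  set e : ℝ := 1 / 2 ^ i0 with he
  have he0 : 0 < e := by positivity
  have he1 : e ≤ 1 / 2 := by rw [he]; gcongr
  have hpe' : p * e ≤ δ := by
    rw [he, mul_one_div, div_le_iff₀ hi0p]; exact hpe
  have h2 : ‖q ^ (r + M * J) • (x - y)‖ ≤ e := by
    rw [smul_sub]
    exact (norm_sub_le _ _).trans (close_of_cell h0).le
  have h3 := code_path hp hq hpq hG hY hi hsym he0 he1 hpe' hlast hmin h2
  have hpow : (1 : ℝ) ≤ (q : ℝ) ^ (M * J) := one_le_pow₀ hq1
  have h4 : ‖x - y‖ ≤ e / (q : ℝ) ^ (M * J) / ((q ^ r : ℕ) : ℝ) := by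
    refine step_bad (Nat.one_le_pow _ _ (by omega)) h1 ?_ h3 ((div_le_self he0.le hpow).trans he1)
    refine le_trans ?_ hi
    exact Nat.mul_le_mul_left 2 (Nat.pow_le_pow_right (by omega) hr.le)
  refine h4.trans_lt ?_
  push_cast
  rw [div_div, ← pow_add, add_comm (M * J) r]
  calc e / (q : ℝ) ^ (r + M * J) ≤ e / Y := by gcongr
    _ < 1 / Y := by
      gcongr
      linarith

/-- the number of the words with few labels -/
lemma card_words (J K : ℕ) (hK : 1 ≤ K) {t : ℝ} (ht : 0 ≤ t) :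
    ((Finset.univ.filter fun c : Fin J → Option (Fin K) =>
      ((Finset.univ.filter fun j => c j ≠ none).card : ℝ) ≤ t).card : ℝ) ≤
      2 ^ J * (K : ℝ) ^ t := by
  classical
  have hKR : (1 : ℝ) ≤ K := by exact_mod_cast hK
  have hK0 : (0 : ℝ) < K := by linarith
  set w : Option (Fin K) → ℝ := fun o => if o = none then 1 else 1 / K with hw
  have hsum : ∑ o, w o = 2 := by
    rw [Fintype.sum_option]
    simp only [hw, if_true, reduceCtorEq, if_false, Finset.sum_const, Finset.card_univ,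
      Fintype.card_fin, nsmul_eq_mul]
    field_simp
    norm_num
  have hpow : ∑ c : Fin J → Option (Fin K), ∏ j, w (c j) = 2 ^ J := by
    rw [← hsum, Fintype.sum_pow]
  have hterm : ∀ c : Fin J → Option (Fin K),
      ((Finset.univ.filter fun j => c j ≠ none).card : ℝ) ≤ t → (K : ℝ) ^ (-t) ≤ ∏ j, w (c j) := by
    intro c hc
    have h1 : ∏ j, w (c j) = (1 / (K : ℝ)) ^ (Finset.univ.filter fun j => c j ≠ none).card := by
      rw [← Finset.prod_const, Finset.prod_filter]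
      refine Finset.prod_congr rfl fun j _ => ?_
      simp only [hw]
      by_cases h : c j = none <;> simp [h]
    rw [h1, one_div, inv_pow, ← Real.rpow_natCast, ← Real.rpow_neg hK0.le]
    exact Real.rpow_le_rpow_of_exponent_le hKR (by linarith)
  have h2 : ((Finset.univ.filter fun c : Fin J → Option (Fin K) =>
      ((Finset.univ.filter fun j => c j ≠ none).card : ℝ) ≤ t).card : ℝ) * (K : ℝ) ^ (-t) ≤
      2 ^ J := by
    rw [← hpow, ← nsmul_eq_mul]
    refine (Finset.card_nsmul_le_sum _ (fun c => ∏ j, w (c j)) _ fun c hc =>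
      hterm c (Finset.mem_filter.1 hc).2).trans ?_
    refine Finset.sum_le_sum_of_subset_of_nonneg (Finset.filter_subset _ _) fun c _ _ => ?_
    refine Finset.prod_nonneg fun j _ => ?_
    simp only [hw]
    split_ifs <;> positivity
  have h3 : (0 : ℝ) < (K : ℝ) ^ t := by positivity
  rw [Real.rpow_neg hK0.le, ← div_eq_mul_inv, div_le_iff₀ h3] at h2
  exact h2

/-- the number of separated points with few visits outside `G` along a path -/
lemma card_path {p q M : ℕ} (hp : 2 ≤ p) (hq : 2 ≤ q) (hpq : Nat.Coprime p q) {G : Set T} {δ : ℝ}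
    (hG : Apart (q ^ M) G δ) {X Y : ℝ} (hX : 0 < X) (hXY : X ≤ Y) {i0 i1 r J : ℕ} (hr : r < M)
    (hi : 2 * q ^ M ≤ 2 ^ i1) (hi0 : 2 ≤ 2 ^ i0) (hpe : (p : ℝ) ≤ δ * 2 ^ i0)
    (hlast : Y ≤ (q : ℝ) ^ (r + M * J)) (hmin : ∀ i < J, (q : ℝ) ^ (r + M * i) ≤ Y)
    {F : Finset T} (hF : ∀ x ∈ F, ∀ y ∈ F, x ≠ y → 1 / X ≤ ‖x - y‖) {t : ℝ} (ht : 0 ≤ t)
    (hcount : ∀ x ∈ F, ({i : ℕ | i < J ∧ pos p q Y (r + M * i) • x ∉ G}.ncard : ℝ) ≤ t) :
    (F.card : ℝ) ≤ 2 ^ i0 * 2 ^ i1 * (2 ^ J * ((2 ^ i1 : ℕ) : ℝ) ^ t) := by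
  classical
  have hY : 0 < Y := hX.trans_le hXY
  set S : Finset (Fin J → Option (Fin (2 ^ i1))) :=
    Finset.univ.filter fun c => ((Finset.univ.filter fun j => c j ≠ none).card : ℝ) ≤ t with hS
  set Φ : T → Fin (2 ^ i0) × Fin (2 ^ i1) × (Fin J → Option (Fin (2 ^ i1))) := fun x =>
    (⟨cell i0 (q ^ (r + M * J) • x), cell_lt _ _⟩, ⟨cell i1 x, cell_lt _ _⟩,
      fun j => sym p q Y G i1 (r + M * j) x) with hΦ
  have hmaps : ∀ x ∈ F, Φ x ∈ (Finset.univ : Finset (Fin (2 ^ i0))) ×ˢ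
      ((Finset.univ : Finset (Fin (2 ^ i1))) ×ˢ S) := by
    intro x hx
    rw [Finset.mem_product, Finset.mem_product]
    refine ⟨Finset.mem_univ _, Finset.mem_univ _, ?_⟩
    rw [hS, Finset.mem_filter]
    refine ⟨Finset.mem_univ _, ?_⟩
    refine le_trans ?_ (hcount x hx)
    have h1 : (Finset.univ.filter fun j : Fin J => (Φ x).2.2 j ≠ none).card ≤
        {i : ℕ | i < J ∧ pos p q Y (r + M * i) • x ∉ G}.ncard := by
      rw [← Set.ncard_coe_finset]
      refine Set.ncard_le_ncard_of_injOn (fun j : Fin J => (j : ℕ)) ?_ ?_ ?_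
      · intro j hj
        rw [Finset.mem_coe, Finset.mem_filter] at hj
        refine ⟨j.2, fun hG' => hj.2 ?_⟩
        show sym p q Y G i1 (r + M * j) x = none
        unfold sym
        rw [if_pos hG']
      · intro a _ b _ hab
        exact Fin.ext hab
      · exact (Set.finite_Iio J).subset fun i hi' => hi'.1
    exact_mod_cast h1
  have hinj : Set.InjOn Φ (F : Set T) := by
    intro x hx y hy hxy
    by_contra hne
    have h1 := hF x hx y hy hne
    simp only [hΦ, Prod.mk.injEq, Fin.mk.injEq] at hxy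
    obtain ⟨h2, h3, h4⟩ := hxy
    have h5 := code_inj hp hq hpq hG hY hr hi (fun i hiJ => congrFun h4 ⟨i, hiJ⟩) hi0 hpe hlast
      hmin h2 h3
    have h6 : 1 / Y ≤ 1 / X := by gcongr
    linarith
  have h1 := Finset.card_le_card_of_injOn Φ hmaps hinj
  rw [Finset.card_product, Finset.card_product, Finset.card_univ, Finset.card_univ,
    Fintype.card_fin, Fintype.card_fin] at h1
  have h2 := card_words J (2 ^ i1) (Nat.one_le_two_pow) ht
  calc (F.card : ℝ) ≤ ((2 ^ i0 * (2 ^ i1 * S.card) : ℕ) : ℝ) := by exact_mod_cast h1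
    _ = 2 ^ i0 * 2 ^ i1 * (S.card : ℝ) := by push_cast; ring
    _ ≤ 2 ^ i0 * 2 ^ i1 * (2 ^ J * ((2 ^ i1 : ℕ) : ℝ) ^ t) := by gcongr

end Pool.Agent.TH338.DD
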