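import Mathlib

/-!
Sets of numbers with free digits at prescribed places: separation and dimension.
-/

set_option autoImplicit false

open Filter Topology Set
open scoped ENNReal NNReal

namespace Pool.Agent.TH338.DD

/-- digits at most `P - 2`: the number is at most `1 - 1 / (P - 1)` -/
lemma ofDigits_le {P : ℕ} (hP : 2 ≤ P) {D : ℕ → Fin P} (hD : ∀ i, (D i : ℕ) + 1 < P) :
    Real.ofDigits D ≤ 1 - 1 / ((P : ℝ) - 1) := by
  have hPR : (2 : ℝ) ≤ P := by exact_mod_cast hP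
  have h1 := Real.ofDigits_const_last_eq_one' (b := P) (by omega)
  have h2 : Summable fun i : ℕ => ((P : ℝ) ^ (i + 1))⁻¹ := by
    simp_rw [pow_succ', mul_inv, ← inv_pow]
    refine Summable.mul_left _ (summable_geometric_of_lt_one (by positivity) ?_)
    rw [inv_lt_one₀ (by linarith)]; linarith
  have h3 : ∑' i : ℕ, ((P : ℝ) ^ (i + 1))⁻¹ = 1 / ((P : ℝ) - 1) := by
    simp_rw [pow_succ', mul_inv, ← inv_pow]
    rw [tsum_mul_left, tsum_geometric_of_lt_one (by positivity)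
      (by rw [inv_lt_one₀ (by linarith)]; linarith)]
    have : (P : ℝ) - 1 ≠ 0 := by linarith
    field_simp
  have h4 : Real.ofDigits D + ∑' i : ℕ, ((P : ℝ) ^ (i + 1))⁻¹ ≤ 1 := by
    rw [← h1, Real.ofDigits, ← Summable.tsum_add Real.summable_ofDigitsTerm h2, Real.ofDigits]
    refine Summable.tsum_le_tsum (fun i => ?_) (Real.summable_ofDigitsTerm.add h2)
      Real.summable_ofDigitsTerm
    unfold Real.ofDigitsTerm
    have h5 : ((D i : ℕ) : ℝ) + 1 ≤ ((P - 1 : ℕ) : ℝ) := by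
      have := hD i
      exact_mod_cast (by omega : (D i : ℕ) + 1 ≤ P - 1)
    have h6 : (0 : ℝ) < ((P : ℝ) ^ (i + 1))⁻¹ := by positivity
    calc ((D i : ℕ) : ℝ) * ((P : ℝ) ^ (i + 1))⁻¹ + ((P : ℝ) ^ (i + 1))⁻¹
        = (((D i : ℕ) : ℝ) + 1) * ((P : ℝ) ^ (i + 1))⁻¹ := by ring
      _ ≤ ((P - 1 : ℕ) : ℝ) * ((P : ℝ) ^ (i + 1))⁻¹ := by gcongr
  rw [h3] at h4
  linarith

/-- separation, one side -/
lemma sep_lt {P : ℕ} (hP : 2 ≤ P) {D D' : ℕ → Fin P} (hD : ∀ i, (D i : ℕ) + 1 < P) {n : ℕ}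
    (hsame : ∀ i < n, D i = D' i) (hn : (D n : ℕ) < D' n) :
    ((P : ℝ) ^ (n + 2))⁻¹ ≤ Real.ofDigits D' - Real.ofDigits D := by
  have hPR : (2 : ℝ) ≤ P := by exact_mod_cast hP
  rw [Real.ofDigits_eq_sum_add_ofDigits D (n + 1), Real.ofDigits_eq_sum_add_ofDigits D' (n + 1),
    Finset.sum_range_succ, Finset.sum_range_succ]
  have h1 : ∑ i ∈ Finset.range n, Real.ofDigitsTerm D i =
      ∑ i ∈ Finset.range n, Real.ofDigitsTerm D' i :=
    Finset.sum_congr rfl fun i hi => by simp [Real.ofDigitsTerm, hsame i (Finset.mem_range.1 hi)]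
  rw [h1]
  unfold Real.ofDigitsTerm
  have h2 := ofDigits_le hP (D := fun i => D (i + (n + 1))) (fun i => hD _)
  have h3 := Real.ofDigits_nonneg (fun i => D' (i + (n + 1)))
  have h4 : ((D n : ℕ) : ℝ) + 1 ≤ ((D' n : ℕ) : ℝ) := by exact_mod_cast hn
  set I : ℝ := ((P : ℝ) ^ (n + 1))⁻¹ with hI
  have hI0 : 0 < I := by positivity
  have h5 : ((P : ℝ) ^ (n + 2))⁻¹ ≤ I * (1 / ((P : ℝ) - 1)) := by
    rw [hI, show n + 2 = (n + 1) + 1 from rfl, pow_succ _ (n + 1), mul_inv, ← one_div (P : ℝ)]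
    gcongr
    · linarith
    · linarith
  have h6 : I * (1 / ((P : ℝ) - 1)) ≤ I * (1 - Real.ofDigits fun i => D (i + (n + 1))) := by
    gcongr
    linarith
  have h7 : 0 ≤ I * Real.ofDigits fun i => D' (i + (n + 1)) := by positivity
  nlinarith

/-- separation -/
lemma sep {P : ℕ} (hP : 2 ≤ P) {D D' : ℕ → Fin P} (hD : ∀ i, (D i : ℕ) + 1 < P)
    (hD' : ∀ i, (D' i : ℕ) + 1 < P) {n : ℕ}
    (hsame : ∀ i < n, D i = D' i) (hn : D n ≠ D' n) :
    ((P : ℝ) ^ (n + 2))⁻¹ ≤ |Real.ofDigits D - Real.ofDigits D'| := by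
  rcases lt_or_gt_of_ne (fun h => hn (Fin.ext h) : (D n : ℕ) ≠ D' n) with h | h
  · rw [abs_sub_comm]
    exact (sep_lt hP hD hsame h).trans (le_abs_self _)
  · exact (sep_lt hP hD' (fun i hi => (hsame i hi).symm) h).trans (le_abs_self _)

section
variable {P : ℕ} (f : ℕ → ℕ)

/-- the digits `d j` at the places `f j` -/
noncomputable def place (hP : 2 ≤ P) (d : ℕ → Fin (P - 1)) : ℕ → Fin P :=
  Function.extend f (fun j => (d j).castLE (by omega)) fun _ => ⟨0, by omega⟩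

variable {f}

lemma place_apply (hf : StrictMono f) (hP : 2 ≤ P) (d : ℕ → Fin (P - 1)) (j : ℕ) :
    (place f hP d (f j) : ℕ) = d j := by
  unfold place
  rw [hf.injective.extend_apply]
  rfl

lemma place_zero (hP : 2 ≤ P) (d : ℕ → Fin (P - 1)) {i : ℕ} (hi : ∀ j, f j ≠ i) :
    (place f hP d i : ℕ) = 0 := by
  unfold place
  rw [Function.extend_apply' _ _ _ (by rintro ⟨j, hj⟩; exact hi j hj)]

lemma place_lt (hf : StrictMono f) (hP : 2 ≤ P) (d : ℕ → Fin (P - 1)) (i : ℕ) :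
    (place f hP d i : ℕ) + 1 < P := by
  by_cases h : ∃ j, f j = i
  · obtain ⟨j, rfl⟩ := h
    rw [place_apply hf]
    have := (d j).2
    omega
  · push Not at h
    rw [place_zero hP d h]
    omega

/-- the point with the digits `d` -/
noncomputable def pt (f : ℕ → ℕ) (hP : 2 ≤ P) (d : ℕ → Fin (P - 1)) : ℝ :=
  Real.ofDigits (place f hP d)

lemma pt_nonneg (hP : 2 ≤ P) (d : ℕ → Fin (P - 1)) : 0 ≤ pt f hP d := Real.ofDigits_nonneg _

/-- multiples of the point -/
lemma pt_mul (hf : StrictMono f) (hP : 2 ≤ P) (d : ℕ → Fin (P - 1)) {U V : ℕ} (hUV : U ≤ V)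
    (hgap : ∀ j, f j < U ∨ V ≤ f j) :
    ∃ z : ℕ, ∃ t : ℝ, (P : ℝ) ^ U * pt f hP d = z + t ∧ 0 ≤ t ∧ t ≤ ((P : ℝ) ^ (V - U))⁻¹ := by
  have hPR : (0 : ℝ) < P := by
    have : 0 < P := by omega
    exact_mod_cast this
  set D := place f hP d with hD
  refine ⟨∑ i ∈ Finset.range U, (D i : ℕ) * P ^ (U - (i + 1)),
    ((P : ℝ) ^ (V - U))⁻¹ * Real.ofDigits (fun i => D (i + V)), ?_, ?_, ?_⟩
  · unfold pt
    rw [← hD, Real.ofDigits_eq_sum_add_ofDigits D V,
      ← Finset.sum_range_add_sum_Ico _ hUV]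
    have h1 : ∑ i ∈ Finset.Ico U V, Real.ofDigitsTerm D i = 0 := by
      refine Finset.sum_eq_zero fun i hi => ?_
      rw [Finset.mem_Ico] at hi
      unfold Real.ofDigitsTerm
      have h2 : (D i : ℕ) = 0 := place_zero hP d fun j hj => by
        rcases hgap j with h | h <;> omega
      rw [h2]
      simp
    rw [h1, add_zero, mul_add]
    congr 1
    · rw [Finset.mul_sum]
      push_cast
      refine Finset.sum_congr rfl fun i hi => ?_
      rw [Finset.mem_range] at hi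
      unfold Real.ofDigitsTerm
      have h2 : (P : ℝ) ^ U = (P : ℝ) ^ (U - (i + 1)) * (P : ℝ) ^ (i + 1) := by
        rw [← pow_add]; congr 1; omega
      rw [h2]
      field_simp
    · rw [← mul_assoc]
      congr 1
      have h2 : (P : ℝ) ^ V = (P : ℝ) ^ U * (P : ℝ) ^ (V - U) := by
        rw [← pow_add]; congr 1; omega
      rw [h2]
      field_simp
  · have := Real.ofDigits_nonneg (fun i => D (i + V))
    positivity
  · have := Real.ofDigits_le_one (fun i => D (i + V))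
    exact mul_le_of_le_one_right (by positivity) this

/-- separation of the points -/
lemma pt_sep (hf : StrictMono f) (hP : 2 ≤ P) {d d' : ℕ → Fin (P - 1)} {j : ℕ}
    (hsame : ∀ i < j, d i = d' i) (hj : d j ≠ d' j) :
    ((P : ℝ) ^ (f j + 2))⁻¹ ≤ |pt f hP d - pt f hP d'| := by
  refine sep hP (place_lt hf hP d) (place_lt hf hP d') (n := f j) ?_ ?_
  · intro i hi
    by_cases h : ∃ k, f k = i
    · obtain ⟨k, rfl⟩ := h
      apply Fin.ext
      rw [place_apply hf, place_apply hf, hsame k (hf.lt_iff_lt.1 hi)]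
    · push Not at h
      apply Fin.ext
      rw [place_zero hP d h, place_zero hP d' h]
  · intro h
    apply hj
    have h1 := congrArg Fin.val h
    rw [place_apply hf, place_apply hf] at h1
    exact Fin.ext h1

lemma pt_inj (hf : StrictMono f) (hP : 2 ≤ P) : Function.Injective (pt f hP) := by
  classical
  intro d d' h
  by_contra hne
  have hex : ∃ j, d j ≠ d' j := by
    by_contra hcon
    push Not at hcon
    exact hne (funext hcon)
  have h1 := pt_sep hf hP (d := d) (d' := d') (j := Nat.find hex)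
    (fun i hi => by
      have := Nat.find_min hex hi
      push Not at this
      exact this) (Nat.find_spec hex)
  rw [h, sub_self, abs_zero] at h1
  have : (0 : ℝ) < ((P : ℝ) ^ (f (Nat.find hex) + 2))⁻¹ := by
    have : (0 : ℝ) < P := by
      have : 0 < P := by omega
      exact_mod_cast this
    positivity
  linarith

/-- **The Hölder property.** -/
lemma pt_holder (hf : StrictMono f) (hP : 3 ≤ P) {s : ℝ} (hs : 0 < s) (hdens : ∀ j, s * f j ≤ j + 1)
    {r : ℝ} (hr : r = s * (Real.log (P - 1 : ℕ) / Real.log P)) (d d' : ℕ → Fin (P - 1)) :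
    |Real.ofDigits d - Real.ofDigits d'| ≤
      ((P - 1 : ℕ) : ℝ) * (P : ℝ) ^ (2 * r) * |pt f (by omega) d - pt f (by omega) d'| ^ r := by
  classical
  have hP1 : 2 ≤ P - 1 := by omega
  have hPR : (3 : ℝ) ≤ P := by exact_mod_cast hP
  have hP1R : (2 : ℝ) ≤ ((P - 1 : ℕ) : ℝ) := by exact_mod_cast hP1
  have hlP : 0 < Real.log P := Real.log_pos (by linarith)
  have hlP1 : 0 < Real.log ((P - 1 : ℕ) : ℝ) := Real.log_pos (by linarith)
  have hr0 : 0 < r := by rw [hr]; positivity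
  by_cases hdd : d = d'
  · subst hdd
    rw [sub_self, abs_zero]
    positivity
  have hex : ∃ j, d j ≠ d' j := by
    by_contra hcon
    push Not at hcon
    exact hdd (funext hcon)
  set j := Nat.find hex with hj
  have hsame : ∀ i < j, d i = d' i := fun i hi => by
    have := Nat.find_min hex hi
    push Not at this
    exact this
  have h1 := pt_sep hf (by omega) hsame (Nat.find_spec hex)
  have h2 := Real.abs_ofDigits_sub_ofDigits_le (x := d) (y := d') hsame
  refine h2.trans ?_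
  have h3 : (((P : ℝ) ^ (f j + 2))⁻¹) ^ r ≤ |pt f (by omega) d - pt f (by omega) d'| ^ r :=
    Real.rpow_le_rpow (by positivity) h1 hr0.le
  have hP0 : (0 : ℝ) < P := by linarith
  have h4 : (((P - 1 : ℕ) : ℝ) ^ j)⁻¹ ≤ ((P - 1 : ℕ) : ℝ) * (P : ℝ) ^ (2 * r) *
      (((P : ℝ) ^ (f j + 2))⁻¹) ^ r := by
    have e1 : (P : ℝ) ^ (2 * r) * (((P : ℝ) ^ (f j + 2))⁻¹) ^ r = (P : ℝ) ^ (-(r * f j)) := by
      rw [← Real.rpow_natCast, ← Real.rpow_neg hP0.le, ← Real.rpow_mul hP0.le,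
        ← Real.rpow_add hP0]
      congr 1
      push_cast
      ring
    rw [mul_assoc, e1]
    have e2 : (P : ℝ) ^ (-(r * f j)) = ((P - 1 : ℕ) : ℝ) ^ (-(s * f j)) := by
      rw [Real.rpow_def_of_pos hP0, Real.rpow_def_of_pos (by linarith)]
      congr 1
      rw [hr]
      field_simp
    rw [e2]
    have e3 : (((P - 1 : ℕ) : ℝ) ^ j)⁻¹ = ((P - 1 : ℕ) : ℝ) * ((P - 1 : ℕ) : ℝ) ^ (-((j : ℝ) + 1)) := by
      rw [← Real.rpow_natCast, ← Real.rpow_neg (by linarith)]
      have e4 : ((P - 1 : ℕ) : ℝ) * ((P - 1 : ℕ) : ℝ) ^ (-((j : ℝ) + 1)) =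
          ((P - 1 : ℕ) : ℝ) ^ (1 : ℝ) * ((P - 1 : ℕ) : ℝ) ^ (-((j : ℝ) + 1)) := by
        rw [Real.rpow_one]
      rw [e4, ← Real.rpow_add (by linarith)]
      congr 1
      ring
    rw [e3]
    gcongr
    · linarith
    · exact hdens j
  refine h4.trans ?_
  gcongr

end

end Pool.Agent.TH338.DD
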