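import Pool.Agent.TH338.DD.Net

/-!
The dimension of the set of the points with few equidistributed windows, and measures of positive
dimension.
-/

set_option autoImplicit false

open MeasureTheory Filter Topology Set
open scoped ENNReal NNReal MeasureTheory

namespace Pool.Agent.TH338.DD

open Pool.Agent.W764.HL Pool.Agent.W764.SH
open Pool.Agent.W764.FB (T)

/-- For all `ε` and all large `H` at least the proportion `θ` of the scales is equidistributed. -/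
def Dens (p q : ℕ) (θ : ℝ) (x : T) : Prop :=
  ∀ ε : ℝ, 0 < ε → ∃ H0 : ℕ, ∀ H : ℕ, H0 ≤ H → ∀ᶠ n : ℕ in atTop, θ * n ≤ gc p q ε H n x

lemma Eqd.mono {p q : ℕ} {ε ε' H X : ℝ} {x : T} (h : Eqd p q ε H X x) (hε : ε ≤ ε') :
    Eqd p q ε' H X x :=
  ⟨h.1, fun c r hr0 hr => (h.2 c r hr0 hr).trans (by gcongr)⟩

lemma gc_mono {p q : ℕ} {ε ε' H : ℝ} (hε : ε ≤ ε') (n : ℕ) (x : T) :
    gc p q ε H n x ≤ gc p q ε' H n x := by
  classical
  unfold gc
  refine Finset.card_le_card fun i hi => ?_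
  rw [Finset.mem_filter] at hi ⊢
  exact ⟨hi.1, hi.2.mono hε⟩

lemma Dens.mono {p q : ℕ} {θ θ' : ℝ} {x : T} (h : Dens p q θ x) (hθ : θ' ≤ θ) :
    Dens p q θ' x := by
  intro ε hε
  obtain ⟨H0, h1⟩ := h ε hε
  refine ⟨H0, fun H hH => ?_⟩
  filter_upwards [h1 H hH] with n hn
  refine le_trans ?_ hn
  gcongr

/-- it is enough to treat `ε = 1 / (k + 1)` -/
lemma dens_of {p q : ℕ} {θ : ℝ} {x : T}
    (h : ∀ k : ℕ, ∃ H0 : ℕ, ∀ H : ℕ, H0 ≤ H →
      ∀ᶠ n : ℕ in atTop, θ * n ≤ gc p q (1 / ((k : ℝ) + 1)) H n x) : Dens p q θ x := by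
  intro ε hε
  obtain ⟨k, hk⟩ := exists_nat_one_div_lt hε
  obtain ⟨H0, h1⟩ := h k
  refine ⟨H0, fun H hH => ?_⟩
  filter_upwards [h1 H hH] with n hn
  refine hn.trans ?_
  exact_mod_cast gc_mono hk.le n x

lemma dens_nonpos {p q : ℕ} {θ : ℝ} (hθ : θ ≤ 0) (x : T) : Dens p q θ x := by
  intro ε hε
  refine ⟨0, fun H _ => Eventually.of_forall fun n => ?_⟩
  have h1 : θ * n ≤ 0 := mul_nonpos_of_nonpos_of_nonneg hθ (Nat.cast_nonneg n)
  exact h1.trans (Nat.cast_nonneg _)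

/-- **Dimension.** -/
theorem dim_le {p q : ℕ} (hp : 2 ≤ p) (hq : 2 ≤ q) (hpq : Nat.Coprime p q) (θ : ℝ≥0) :
    dimH {x : T | ¬ Dens p q θ x} ≤ θ := by
  refine ENNReal.le_of_forall_pos_le_add fun e he _ => ?_
  set d : ℝ≥0 := θ + e with hd
  have hdR : (d : ℝ) = θ + e := by rw [hd]; push_cast; rfl
  have heR : (0 : ℝ) < e := by exact_mod_cast he
  have hθ0 : (0 : ℝ) ≤ θ := θ.2
  have hsep := fun k : ℕ => separated hp hq hpq (ε := 1 / ((k : ℝ) + 1)) (by positivity)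
    (σ := (e : ℝ) / 2) (by positivity)
  choose H0 hH0 hC using hsep
  set Z : ℕ → ℕ → Set T := fun k H => {x | ∃ᶠ n : ℕ in atTop,
    x ∈ {x : T | (gc p q (1 / ((k : ℝ) + 1)) H n x : ℝ) < θ * n}} with hZ
  have hZ0 : ∀ k H : ℕ, H0 k ≤ H → μH[(d : ℝ)] (Z k H) = 0 := by
    intro k H hH
    obtain ⟨C, hC0, h1⟩ := hC k H hH
    have hnet := fun n : ℕ => exists_net {x : T | (gc p q (1 / ((k : ℝ) + 1)) H n x : ℝ) < θ * n} n
    choose F hF1 hF2 hF3 using hnet
    exact haus_limsup hF3 hC0.le (t := θ + e / 2) (d := d) (by rw [hdR]; linarith)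
      (by rw [hdR]; linarith) fun n => h1 n (F n) (hF2 n) θ hθ0 fun x hx => (hF1 n x hx).le
  have hsub : {x : T | ¬ Dens p q θ x} ⊆ ⋃ k : ℕ, ⋃ H : ℕ, ⋃ _ : H0 k ≤ H, Z k H := by
    intro x hx
    by_contra hcon
    apply hx
    refine dens_of fun k => ?_
    obtain ⟨H1, hH1⟩ := exists_nat_ge (H0 k)
    refine ⟨H1, fun H hH => ?_⟩
    by_contra hev
    apply hcon
    have hHk : H0 k ≤ H := hH1.trans (by exact_mod_cast hH)
    refine mem_iUnion.2 ⟨k, mem_iUnion.2 ⟨H, mem_iUnion.2 ⟨hHk, ?_⟩⟩⟩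
    rw [not_eventually] at hev
    refine hev.mono fun n hn => ?_
    exact lt_of_not_ge hn
  have hnull : μH[(d : ℝ)] {x : T | ¬ Dens p q θ x} = 0 := by
    refine measure_mono_null hsub ?_
    rw [measure_iUnion_null_iff]
    intro k
    rw [measure_iUnion_null_iff]
    intro H
    rw [measure_iUnion_null_iff]
    intro hH
    exact hZ0 k H hH
  have h1 := dimH_le_of_hausdorffMeasure_ne_top (d := d) (by rw [hnull]; exact ENNReal.zero_ne_top)
  refine h1.trans (le_of_eq ?_)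
  rw [hd]
  push_cast
  rfl

/-- **Measures of positive dimension.** -/
theorem ae_dens {p q : ℕ} (hp : 2 ≤ p) (hq : 2 ≤ q) (hpq : Nat.Coprime p q) {ν : Measure T}
    [IsProbabilityMeasure ν] {s : ℝ}
    (hν : ∀ s' < s, ∀ᵐ x ∂ν, ∃ C : ℝ, ∀ r : ℝ, 0 < r → ν.real (Metric.closedBall x r) ≤ C * r ^ s') :
    ∀ᵐ x ∂ν, ∀ θ < s, Dens p q θ x := by
  -- a fixed proportion
  have main : ∀ θ < s, ∀ᵐ x ∂ν, Dens p q θ x := by
    intro θ hθ
    rcases le_or_gt θ 0 with hθ0 | hθ0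
    · exact Eventually.of_forall fun x => dens_nonpos hθ0 x
    set σ : ℝ := (s - θ) / 3 with hσ
    have hσ0 : 0 < σ := by rw [hσ]; linarith
    set s' : ℝ := θ + 2 * σ with hs'
    have hs's : s' < s := by
      have : s = θ + 3 * σ := by rw [hσ]; ring
      linarith
    have hsep := fun k : ℕ => separated hp hq hpq (ε := 1 / ((k : ℝ) + 1)) (by positivity) hσ0
    choose H0 hH0 hC using hsep
    have h1 : ∀ k H l : ℕ, H0 k ≤ H → ∀ᵐ x ∂ν, ∀ᶠ n : ℕ in atTop,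
        x ∉ {x : T | (∀ r : ℝ, 0 < r → ν.real (Metric.closedBall x r) ≤ l * r ^ s') ∧
          (gc p q (1 / ((k : ℝ) + 1)) H n x : ℝ) < θ * n} := by
      intro k H l hH
      obtain ⟨C, hC0, h2⟩ := hC k H hH
      have hnet := fun n : ℕ => exists_net
        {x : T | (∀ r : ℝ, 0 < r → ν.real (Metric.closedBall x r) ≤ l * r ^ s') ∧
          (gc p q (1 / ((k : ℝ) + 1)) H n x : ℝ) < θ * n} n
      choose F hF1 hF2 hF3 using hnet
      exact ae_not_mem hF3 hC0.le (t := θ + σ) (s := s') (k := l) (by rw [hs']; linarith)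
        (Nat.cast_nonneg l) (fun n => h2 n (F n) (hF2 n) θ hθ0.le fun x hx => (hF1 n x hx).2.le)
        fun n x hx => (hF1 n x hx).1 _ (by positivity)
    have h2 : ∀ᵐ x ∂ν, ∀ k H l : ℕ, H0 k ≤ H → ∀ᶠ n : ℕ in atTop,
        x ∉ {x : T | (∀ r : ℝ, 0 < r → ν.real (Metric.closedBall x r) ≤ l * r ^ s') ∧
          (gc p q (1 / ((k : ℝ) + 1)) H n x : ℝ) < θ * n} := by
      rw [ae_all_iff]; intro k
      rw [ae_all_iff]; intro H
      rw [ae_all_iff]; intro l
      by_cases hH : H0 k ≤ H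
      · filter_upwards [h1 k H l hH] with x hx _ using hx
      · exact Eventually.of_forall fun x h => absurd h hH
    filter_upwards [h2, hν s' hs's] with x hx hx2
    obtain ⟨C, hCx⟩ := hx2
    obtain ⟨l, hl⟩ := exists_nat_ge C
    refine dens_of fun k => ?_
    obtain ⟨H1, hH1⟩ := exists_nat_ge (H0 k)
    refine ⟨H1, fun H hH => ?_⟩
    have hHk : H0 k ≤ H := hH1.trans (by exact_mod_cast hH)
    filter_upwards [hx k H l hHk] with n hn
    by_contra hlt
    push Not at hlt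
    refine hn ⟨fun r hr => (hCx r hr).trans ?_, hlt⟩
    have : 0 ≤ r ^ s' := Real.rpow_nonneg hr.le _
    gcongr
  -- all proportions
  have h1 : ∀ᵐ x ∂ν, ∀ j : ℕ, Dens p q (s - 1 / ((j : ℝ) + 1)) x := by
    rw [ae_all_iff]
    intro j
    refine main _ ?_
    have : 0 < 1 / ((j : ℝ) + 1) := by positivity
    linarith
  filter_upwards [h1] with x hx θ hθ
  obtain ⟨j, hj⟩ := exists_nat_one_div_lt (sub_pos.2 hθ)
  exact (hx j).mono (by linarith)

/-- **The points with finitely many equidistributed windows: packing dimension zero.** -/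
theorem packing {p q : ℕ} (hp : 2 ≤ p) (hq : 2 ≤ q) (hpq : Nat.Coprime p q) {d : ℝ} (hd : 0 < d) :
    ∃ A : ℕ → Set T, {x : T | ¬ ∀ ε : ℝ, 0 < ε → ∃ H0 : ℕ, ∀ H : ℕ, H0 ≤ H →
        ∃ᶠ i : ℕ in atTop, Eqd p q ε H (2 ^ i) x} ⊆ ⋃ j, A j ∧
      ∀ j, ∃ C : ℝ, ∀ n : ℕ, ∃ F : Finset T, (F.card : ℝ) ≤ C * 2 ^ (d * n) ∧
        A j ⊆ ⋃ x ∈ F, Metric.closedBall x ((1 / 2 : ℝ) ^ n) := by
  classical
  have hsep := fun k : ℕ => separated hp hq hpq (ε := 1 / ((k : ℝ) + 1)) (by positivity)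
    (σ := d) hd
  choose H0 hH0 hC using hsep
  set A' : ℕ × ℕ × ℕ → Set T := fun u => {x | H0 u.1 ≤ u.2.1 ∧ ∀ i : ℕ, u.2.2 ≤ i →
    ¬ Eqd p q (1 / ((u.1 : ℝ) + 1)) u.2.1 (2 ^ i) x} with hA'
  obtain ⟨e⟩ : Nonempty (ℕ ≃ ℕ × ℕ × ℕ) := ⟨(Denumerable.eqv (ℕ × ℕ × ℕ)).symm⟩
  refine ⟨fun j => A' (e j), fun x hx => ?_, fun j => ?_⟩
  · rw [mem_ofPred_eq] at hx
    push Not at hx
    obtain ⟨ε, hε, h1⟩ := hx
    obtain ⟨k, hk⟩ := exists_nat_one_div_lt hε
    obtain ⟨H1, hH1⟩ := exists_nat_ge (H0 k)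
    obtain ⟨H, hH, h2⟩ := h1 H1
    rw [eventually_atTop] at h2
    obtain ⟨n0, h3⟩ := h2
    refine mem_iUnion.2 ⟨e.symm (k, H, n0), ?_⟩
    simp only [hA', Equiv.apply_symm_apply]
    exact ⟨hH1.trans (by exact_mod_cast hH), fun i hi h4 => h3 i hi (h4.mono hk.le)⟩
  · set k := (e j).1 with hk
    set H := (e j).2.1 with hH
    set n0 := (e j).2.2 with hn0
    by_cases hHk : H0 k ≤ H
    · obtain ⟨C, hC0, h1⟩ := hC k H hHk
      refine ⟨C * 2 ^ n0, fun n => ?_⟩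
      obtain ⟨F, hF1, hF2, hF3⟩ := exists_net (A' (e j)) n
      refine ⟨F, ?_, hF3⟩
      have hgc : ∀ x ∈ F, gc p q (1 / ((k : ℝ) + 1)) H n x ≤ n0 := by
        intro x hx
        have h2 := (hF1 x hx).2
        unfold gc
        have h3 : (Finset.range n).filter (fun i => Eqd p q (1 / ((k : ℝ) + 1)) H (2 ^ i) x) ⊆
            Finset.range n0 := by
          intro i hi
          rw [Finset.mem_filter] at hi
          rw [Finset.mem_range]
          by_contra hcon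
          exact h2 i (by omega) hi.2
        refine (Finset.card_le_card h3).trans ?_
        rw [Finset.card_range]
      rcases Nat.eq_zero_or_pos n with hn | hn
      · subst hn
        have h2 := h1 0 F hF2 0 le_rfl (fun x hx => by simp [gc])
        refine h2.trans ?_
        have h3 : (1 : ℝ) ≤ 2 ^ n0 := one_le_pow₀ (by norm_num)
        simp only [CharP.cast_eq_zero, mul_zero, Real.rpow_zero, mul_one]
        exact le_mul_of_one_le_right hC0.le h3
      · have hnR : (0 : ℝ) < n := by exact_mod_cast hn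
        have h2 := h1 n F hF2 ((n0 : ℝ) / n) (by positivity) (fun x hx => by
          rw [div_mul_cancel₀ _ hnR.ne']
          exact_mod_cast hgc x hx)
        refine h2.trans (le_of_eq ?_)
        rw [add_mul, div_mul_cancel₀ _ hnR.ne', Real.rpow_add (by norm_num), Real.rpow_natCast]
        ring
    · refine ⟨0, fun n => ⟨∅, by simp, ?_⟩⟩
      intro x hx
      exact absurd hx.1 hHk

end Pool.Agent.TH338.DD
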