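import Pool.Agent.TH338.DD.Gap

/-!
The dimension of the set of the points with few equidistributed windows is exactly the density.
-/

set_option autoImplicit false

open MeasureTheory Filter Topology Set
open scoped ENNReal NNReal

namespace Pool.Agent.TH338.DD

open Pool.Agent.W764.HL Pool.Agent.W764.SH
open Pool.Agent.W764.FB (T)

lemma pt_half {s : ℝ} {P : ℕ} (hP : 2 ≤ P) (d : ℕ → Fin (P - 1)) :
    pt (pl s) hP d ≤ 1 / 2 := by
  have hPR : (2 : ℝ) ≤ P := by exact_mod_cast hP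
  have h0 : ∀ j, pl s j ≠ 0 := fun j => by unfold pl; omega
  unfold pt
  rw [Real.ofDigits_eq_sum_add_ofDigits _ 1, Finset.sum_range_one]
  unfold Real.ofDigitsTerm
  rw [place_zero hP d h0]
  simp only [Nat.cast_zero, zero_mul, zero_add, pow_one]
  have h1 := Real.ofDigits_le_one (fun i => place (pl s) hP d (i + 1))
  have h2 := Real.ofDigits_nonneg (fun i => place (pl s) hP d (i + 1))
  calc (P : ℝ)⁻¹ * Real.ofDigits (fun i => place (pl s) hP d (i + 1)) ≤ (P : ℝ)⁻¹ * 1 := by gcongr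
    _ ≤ 1 / 2 := by
      rw [mul_one, inv_eq_one_div]
      gcongr

lemma dist_pt {s : ℝ} (hs0 : 0 < s) (hs1 : s ≤ 1) {P : ℕ} (hP : 2 ≤ P) (d d' : ℕ → Fin (P - 1)) :
    dist ((pt (pl s) hP d : ℝ) : T) ((pt (pl s) hP d' : ℝ) : T) =
      |pt (pl s) hP d - pt (pl s) hP d'| := by
  have h1 := pt_half (s := s) hP d
  have h2 := pt_half (s := s) hP d'
  have h3 := pt_nonneg (f := pl s) hP d
  have h4 := pt_nonneg (f := pl s) hP d'
  rw [dist_eq_norm, ← AddCircle.coe_sub, AddCircle.norm_coe_eq_abs_iff 1 one_ne_zero]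
  rw [abs_one, abs_le]
  constructor <;> linarith

/-- the points have few equidistributed windows -/
lemma not_dens {p q : ℕ} (hp : 2 ≤ p) (hq : 2 ≤ q) (hpq : Nat.Coprime p q) {κ : ℕ} {P : ℕ}
    (hP : 2 ≤ P) (hPp : P = p ^ κ) {s θ : ℝ} (hs0 : 0 < s) (hs1 : s ≤ 1) (hsθ : s < θ)
    (d : ℕ → Fin (P - 1)) : ¬ Dens p q θ ((pt (pl s) hP d : ℝ) : T) := by
  classical
  intro hD
  obtain ⟨hlp, hlq⟩ := log_pos' hp hq
  have hl2 : 0 < Real.log 2 := Real.log_pos (by norm_num)
  have hPR : (2 : ℝ) ≤ P := by exact_mod_cast hP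
  have hlP : 0 < Real.log P := Real.log_pos (by linarith)
  have hθ : 0 < θ := hs0.trans hsθ
  set x : T := ((pt (pl s) hP d : ℝ) : T) with hx
  set e : ℝ := (θ - s) / (2 * θ) with he
  have he0 : 0 < e := by
    have : 0 < θ - s := by linarith
    positivity
  have he1' : 1 - e = (θ + s) / (2 * θ) := by rw [he]; field_simp; ring
  have he1 : 0 < 1 - e := by rw [he1']; positivity
  have hA : 1 / (1 - e) * s < θ := by
    rw [he1', one_div_div, div_mul_eq_mul_div, div_lt_iff₀ (by positivity)]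
    nlinarith
  obtain ⟨H0, h0⟩ := hD (e / 16) (by positivity)
  set H : ℕ := max H0 (p ^ 8) with hHdef
  have hHp : p ^ 8 ≤ H := le_max_right _ _
  have hH1 : 1 ≤ H := le_trans (Nat.one_le_pow _ _ (by omega)) hHp
  have hHR : (1 : ℝ) ≤ H := by exact_mod_cast hH1
  have hH0 : (0 : ℝ) < H := by linarith
  have hH8 : 8 * Real.log p ≤ Real.log H := by
    have h1 : ((p : ℝ) ^ 8) ≤ H := by exact_mod_cast hHp
    have hp0 : (0 : ℝ) < p := by
      have : 0 < p := by omega
      exact_mod_cast this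
    have h2 := Real.log_le_log (by positivity) h1
    rw [Real.log_pow] at h2
    exact_mod_cast h2
  have h1 := h0 H (le_max_left _ _)
  rw [eventually_atTop] at h1
  obtain ⟨n0, hn0⟩ := h1
  set c1 : ℝ := Real.log (16 * H / e) with hc1
  set B0 : ℝ := (Real.log H + Real.log q) / Real.log 2 + 2 + θ * (c1 / Real.log 2 + 1) with hB0
  set B1 : ℝ := θ * (|c1| + (n0 + 1) * Real.log 2) / Real.log P with hB1
  set B2 : ℝ := |B0| * Real.log 2 / Real.log P with hB2
  obtain ⟨k, hk⟩ := (long_gap (A := 1 / (1 - e)) (B := B1 + B2) hs0 hs1 hA (by positivity)).exists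
  obtain ⟨hUV, hgap⟩ := pl_gap hs0 hs1 (k := k)
  set U := pl s (k.factorial - 1) + 1 with hU
  set V := pl s k.factorial with hV
  -- the number of scales
  set n : ℕ := ⌊(V * Real.log P - c1) / Real.log 2⌋₊ with hn
  have hB1' : 0 ≤ B1 := by positivity
  have hB2' : 0 ≤ B2 := by positivity
  have hAU : 0 ≤ 1 / (1 - e) * (U : ℝ) := by positivity
  have hVbig : |c1| + (n0 + 1) * Real.log 2 ≤ V * Real.log P := by
    have h2 : B1 ≤ θ * V := by linarith
    rw [hB1, div_le_iff₀ hlP, mul_assoc] at h2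
    exact le_of_mul_le_mul_left h2 hθ
  have hc1' := le_abs_self c1
  have hnn0 : n0 ≤ n := by
    rw [hn, Nat.le_floor_iff (by
      refine div_nonneg ?_ hl2.le
      have : 0 ≤ ((n0 : ℝ) + 1) * Real.log 2 := by positivity
      linarith), le_div_iff₀ hl2]
    linarith
  have h2 := hn0 n hnn0
  -- the equidistributed scales are small
  set M : ℝ := (Real.log H + Real.log q) / Real.log 2 + 1 / (1 - e) * (U * Real.log P) / Real.log 2
    with hM
  have hM0 : 0 ≤ M := by
    have : 0 ≤ Real.log H := Real.log_nonneg hHR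
    positivity
  have h3 : gc p q (e / 16) H n x ≤ ⌈M⌉₊ := by
    unfold gc
    have h4 : (Finset.range n).filter (fun i => Eqd p q (e / 16) H (2 ^ i) x) ⊆
        Finset.range ⌈M⌉₊ := by
      intro i hi
      rw [Finset.mem_filter, Finset.mem_range] at hi
      obtain ⟨hin, hE⟩ := hi
      rw [Finset.mem_range, Nat.lt_ceil]
      by_contra hcon
      push Not at hcon
      have h5 : (i : ℝ) * Real.log 2 ≤ V * Real.log P - c1 := by
        have h6 : (i : ℝ) ≤ (V * Real.log P - c1) / Real.log 2 := by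
          refine le_trans ?_ (Nat.floor_le ?_)
          · exact_mod_cast hin.le
          · refine div_nonneg ?_ hl2.le
            have : 0 ≤ ((n0 : ℝ) + 1) * Real.log 2 := by positivity
            linarith
        rwa [le_div_iff₀ hl2] at h6
      have hlog : Real.log ((2 : ℝ) ^ i) = i * Real.log 2 := Real.log_pow _ _
      have h7 : Real.log H + Real.log q + 1 / (1 - e) * (U * Real.log P) ≤ i * Real.log 2 := by
        have h8 : M * Real.log 2 ≤ i * Real.log 2 := by gcongr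
        have h9 : M * Real.log 2 = Real.log H + Real.log q + 1 / (1 - e) * (U * Real.log P) := by
          rw [hM]; field_simp
        linarith
      have hUP : 0 ≤ 1 / (1 - e) * (U * Real.log P) := by positivity
      have hlH : 0 ≤ Real.log H := Real.log_nonneg hHR
      refine not_eqd hp hq hpq (pl_mono hs0 hs1) hP hPp d hUV hgap he0 (by linarith)
        (by positivity) hH0 hH8 (by rw [hlog]; linarith) ?_ ?_ hE
      · rw [hlog]
        have h10 : 1 / (1 - e) * (U * Real.log P) ≤ i * Real.log 2 := by linarith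
        rw [one_div, inv_mul_le_iff₀ he1] at h10
        linarith
      · have h11 : Real.log ((H : ℝ) * 2 ^ i) ≤ Real.log (e / 16 * (P : ℝ) ^ V) := by
          rw [Real.log_mul hH0.ne' (by positivity), hlog,
            Real.log_mul (by positivity) (by positivity), Real.log_pow]
          have h12 : c1 = Real.log H - Real.log (e / 16) := by
            rw [hc1, ← Real.log_div hH0.ne' (by positivity)]
            congr 1
            field_simp
          linarith
        exact (Real.log_le_log_iff (by positivity) (by positivity)).1 h11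
    refine (Finset.card_le_card h4).trans ?_
    rw [Finset.card_range]
  have h4 : (gc p q (e / 16) H n x : ℝ) < M + 1 := by
    calc (gc p q (e / 16) H n x : ℝ) ≤ ⌈M⌉₊ := by exact_mod_cast h3
      _ < M + 1 := Nat.ceil_lt_add_one hM0
  have h5 : (V * Real.log P - c1) / Real.log 2 - 1 < n := by
    have := Nat.lt_floor_add_one ((V * Real.log P - c1) / Real.log 2)
    linarith
  have h6 : θ * ((V * Real.log P - c1) / Real.log 2 - 1) < M + 1 := by
    have h7 : θ * ((V * Real.log P - c1) / Real.log 2 - 1) < θ * n := by gcongr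
    linarith
  -- contradiction
  have h7 : 1 / (1 - e) * (U : ℝ) + B2 ≤ θ * V := by linarith
  have h8 : (1 / (1 - e) * (U : ℝ) + B2) * (Real.log P / Real.log 2) ≤
      θ * V * (Real.log P / Real.log 2) := by gcongr
  have h9 : (1 / (1 - e) * (U : ℝ) + B2) * (Real.log P / Real.log 2) =
      1 / (1 - e) * (U * Real.log P) / Real.log 2 + |B0| := by
    rw [hB2]; field_simp
  have h10 := le_abs_self B0
  have h11 : θ * ((V * Real.log P - c1) / Real.log 2 - 1) =
      θ * V * (Real.log P / Real.log 2) - θ * (c1 / Real.log 2 + 1) := by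
    field_simp
    ring
  rw [h9] at h8
  rw [h11, hM] at h6
  have h12 : B0 = (Real.log H + Real.log q) / Real.log 2 + 2 + θ * (c1 / Real.log 2 + 1) := hB0
  linarith

/-- the dimension of the set of the points -/
lemma dim_pts {s : ℝ} (hs0 : 0 < s) (hs1 : s ≤ 1) {P : ℕ} (hP : 3 ≤ P) :
    ENNReal.ofReal (s * (Real.log (P - 1 : ℕ) / Real.log P)) ≤
      dimH (range fun d : ℕ → Fin (P - 1) => ((pt (pl s) (by omega) d : ℝ) : T)) := by
  classical
  have hP2 : 2 ≤ P := by omega
  have hP1 : 2 ≤ P - 1 := by omega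
  have hPR : (3 : ℝ) ≤ P := by exact_mod_cast hP
  have hP1R : (2 : ℝ) ≤ ((P - 1 : ℕ) : ℝ) := by exact_mod_cast hP1
  have hlP : 0 < Real.log P := Real.log_pos (by linarith)
  have hlP1 : 0 < Real.log ((P - 1 : ℕ) : ℝ) := Real.log_pos (by linarith)
  set r : ℝ := s * (Real.log (P - 1 : ℕ) / Real.log P) with hr
  have hr0 : 0 < r := by positivity
  have : Nonempty (ℕ → Fin (P - 1)) := ⟨fun _ => ⟨0, by omega⟩⟩
  set Φ : (ℕ → Fin (P - 1)) → T := fun d => ((pt (pl s) hP2 d : ℝ) : T) with hΦ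
  have hinj : Function.Injective Φ := by
    intro d d' h
    have h1 := dist_pt hs0 hs1 hP2 d d'
    have h2 : dist (Φ d) (Φ d') = 0 := by rw [h, dist_self]
    rw [hΦ] at h2
    simp only at h2
    rw [h1, abs_eq_zero, sub_eq_zero] at h2
    exact pt_inj (pl_mono hs0 hs1) hP2 h2
  set g : T → ℝ := fun y => Real.ofDigits (Function.invFun Φ y) with hg
  have hgΦ : ∀ d, g (Φ d) = Real.ofDigits d := fun d => by
    simp only [hg]
    rw [Function.leftInverse_invFun hinj d]
  set C : ℝ≥0 := Real.toNNReal (((P - 1 : ℕ) : ℝ) * (P : ℝ) ^ (2 * r)) with hC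
  set r' : ℝ≥0 := ⟨r, hr0.le⟩ with hr'
  have hold : HolderOnWith C r' g (range Φ) := by
    rintro _ ⟨d, rfl⟩ _ ⟨d', rfl⟩
    rw [hgΦ, hgΦ, edist_dist, edist_dist, hC]
    have h1 : dist (Real.ofDigits d) (Real.ofDigits d') ≤
        ((P - 1 : ℕ) : ℝ) * (P : ℝ) ^ (2 * r) * dist (Φ d) (Φ d') ^ r := by
      rw [Real.dist_eq, show dist (Φ d) (Φ d') = _ from dist_pt hs0 hs1 hP2 d d']
      exact pt_holder (pl_mono hs0 hs1) hP hs0 (pl_dens hs0 hs1) hr d d'
    refine (ENNReal.ofReal_le_ofReal h1).trans (le_of_eq ?_)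
    rw [ENNReal.ofReal_mul (by positivity), ← ENNReal.ofReal_rpow_of_nonneg dist_nonneg hr0.le]
    rfl
  have h1 := hold.dimH_image_le (by exact_mod_cast hr0)
  have h2 : Icc (0 : ℝ) 1 ⊆ g '' range Φ := by
    intro y hy
    obtain ⟨d, -, hd⟩ := Real.ofDigits_SurjOn (b := P - 1) (by omega) hy
    exact ⟨Φ d, mem_range_self d, by rw [hgΦ, hd]⟩
  have h3 : (1 : ℝ≥0∞) ≤ dimH (g '' range Φ) := by
    refine le_trans ?_ (dimH_mono h2)
    rw [Real.dimH_of_nonempty_interior (by rw [interior_Icc]; exact ⟨1 / 2, by norm_num⟩)]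
    simp
  have h4 : (1 : ℝ≥0∞) ≤ dimH (range Φ) / r' := h3.trans h1
  rw [ENNReal.le_div_iff_mul_le (Or.inl (by
    rw [Ne, ENNReal.coe_eq_zero]
    exact fun h => hr0.ne' (congrArg NNReal.toReal h))) (Or.inl ENNReal.coe_ne_top),
    one_mul] at h4
  refine le_trans (le_of_eq ?_) h4
  rw [ENNReal.ofReal, hr']
  congr 1
  exact Real.toNNReal_of_nonneg hr0.le

/-- **Exact dimension.** -/
theorem dim_eq {p q : ℕ} (hp : 2 ≤ p) (hq : 2 ≤ q) (hpq : Nat.Coprime p q) (θ : ℝ≥0) (hθ : θ ≤ 1) :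
    dimH {x : T | ¬ Dens p q θ x} = θ := by
  refine le_antisymm (dim_le hp hq hpq θ) ?_
  obtain ⟨hlp, hlq⟩ := log_pos' hp hq
  have hl2 : 0 < Real.log 2 := Real.log_pos (by norm_num)
  refine ENNReal.le_of_forall_nnreal_lt fun c hc => ?_
  have hcθ : (c : ℝ) < θ := by exact_mod_cast (ENNReal.coe_lt_coe.1 hc)
  have hc0 : (0 : ℝ) ≤ c := c.2
  have hθ1 : (θ : ℝ) ≤ 1 := by exact_mod_cast hθ
  set s : ℝ := (c + θ) / 2 with hs
  have hsc : (c : ℝ) < s := by rw [hs]; linarith
  have hsθ : s < θ := by rw [hs]; linarith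
  have hs0 : 0 < s := lt_of_le_of_lt hc0 hsc
  have hs1 : s ≤ 1 := by linarith
  -- the base
  obtain ⟨κ, hκ⟩ := exists_nat_ge (max 2 (Real.log 2 / ((1 - c / s) * Real.log p)))
  have hκ2 : (2 : ℝ) ≤ κ := (le_max_left _ _).trans hκ
  have hκ3 := (le_max_right (2 : ℝ) _).trans hκ
  have hcs : 0 < 1 - c / s := by
    rw [sub_pos, div_lt_one hs0]; exact hsc
  rw [div_le_iff₀ (by positivity)] at hκ3
  have hκ2' : 2 ≤ κ := by exact_mod_cast hκ2
  have hP : 3 ≤ p ^ κ := by
    calc 3 ≤ 2 ^ 2 := by norm_num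
      _ ≤ p ^ 2 := Nat.pow_le_pow_left hp 2
      _ ≤ p ^ κ := Nat.pow_le_pow_right (by omega) hκ2'
  have h1 := dim_pts hs0 hs1 hP
  have h2 : (range fun d : ℕ → Fin (p ^ κ - 1) => ((pt (pl s) (by omega) d : ℝ) : T)) ⊆
      {x : T | ¬ Dens p q θ x} := by
    rintro _ ⟨d, rfl⟩
    exact not_dens hp hq hpq (by omega) rfl hs0 hs1 hsθ d
  refine le_trans ?_ (h1.trans (dimH_mono h2))
  rw [← ENNReal.ofReal_coe_nnreal]
  refine ENNReal.ofReal_le_ofReal ?_
  have hPR : (3 : ℝ) ≤ ((p ^ κ : ℕ) : ℝ) := by exact_mod_cast hP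
  have hlP : 0 < Real.log ((p ^ κ : ℕ) : ℝ) := Real.log_pos (by linarith)
  have h3 : Real.log ((p ^ κ : ℕ) : ℝ) = κ * Real.log p := by
    push_cast
    rw [Real.log_pow]
  have h4 : Real.log ((p ^ κ : ℕ) : ℝ) - Real.log 2 ≤ Real.log ((p ^ κ - 1 : ℕ) : ℝ) := by
    rw [← Real.log_div (by linarith) (by norm_num)]
    refine Real.log_le_log (by positivity) ?_
    rw [Nat.cast_sub (by omega)]
    push_cast at hPR ⊢
    linarith
  have h5 : (c : ℝ) / s ≤ Real.log ((p ^ κ - 1 : ℕ) : ℝ) / Real.log ((p ^ κ : ℕ) : ℝ) := by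
    rw [le_div_iff₀ hlP]
    rw [h3] at h4 ⊢
    nlinarith
  rw [div_le_iff₀ hs0] at h5
  linarith

end Pool.Agent.TH338.DD
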