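import Pool.Agent.TH338.DD.Paths
import Pool.Agent.TH338.DD.Apart

/-!
Separated points whose window does not dominate a given multiple of Lebesgue measure are few.
-/

set_option autoImplicit false

open MeasureTheory Filter Topology Set
open scoped ENNReal BoundedContinuousFunction

namespace Pool.Agent.TH338.DD

open Pool.Agent.W764.HL Pool.Agent.W764.SH
open Pool.Agent.W764.FB (T hh hh_zero close_hh norm_hh)

/-- the window `X ≤ n < H X` of the orbit of `x` dominates `κ` times Lebesgue measure up to `ε` -/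
def Dom (p q : ℕ) (κ ε H X : ℝ) (x : T) : Prop :=
  ∀ c : T, ∀ r : ℝ, 0 ≤ r → r ≤ 1 / 2 →
    (2 * r * κ - ε) * (win p q X (H * X)).card ≤ (vis p q X (H * X) x c r : ℝ)

/-- near invariance of the empirical measures -/
lemma emp_inv {p q s : ℕ} (hp : 2 ≤ p) (hq : 2 ≤ q) (hs : s = p ∨ s = q) {X H η : ℝ}
    (hW : (win p q X (H * X)).Nonempty)
    (h : (((win p q X (H * X)).filter fun n => H * X ≤ ((s * n : ℕ) : ℝ)).card : ℝ) ≤
      η * (win p q X (H * X)).card) {m : ℕ} (x : Fin m → T) (f : (Fin m → T) →ᵇ ℝ)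
    (hf : ∀ z, |f z| ≤ 1) :
    |∫ z, f (s • z) ∂(emp (win p q X (H * X)) x) - ∫ z, f z ∂(emp (win p q X (H * X)) x)| ≤
      2 * η := by
  classical
  set W := win p q X (H * X) with hWdef
  have hWR : (0 : ℝ) < W.card := by exact_mod_cast hW.card_pos
  have hs2 : 2 ≤ s := by rcases hs with rfl | rfl <;> assumption
  rw [emp_integral W x (fun z => f (s • z)) (f.continuous.comp (continuous_nsmul s)),
    emp_integral W x (fun z => f z) f.continuous, ← mul_sub, abs_mul,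
    abs_of_pos (inv_pos.2 hWR), inv_mul_le_iff₀ hWR]
  have h1 := sum_dilate (s := s) (by omega) W (fun n => f (n • x)) fun n => hf _
  have h2 : ∀ n : ℕ, s • n • x = (s * n) • x := fun n => (mul_smul s n x).symm
  simp_rw [h2]
  refine h1.trans ?_
  have h3 : (W.filter fun n => s * n ∉ W).card ≤
      (W.filter fun n => H * X ≤ ((s * n : ℕ) : ℝ)).card := by
    refine Finset.card_le_card fun n hn => ?_
    rw [Finset.mem_filter] at hn ⊢
    refine ⟨hn.1, ?_⟩
    by_contra hlt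
    push Not at hlt
    apply hn.2
    have hnW := hn.1
    rw [hWdef, mem_win] at hnW ⊢
    obtain ⟨⟨a, b, rfl⟩, h4, h5⟩ := hnW
    refine ⟨?_, ?_, hlt⟩
    · rcases hs with rfl | rfl
      · exact ⟨a + 1, b, by ring⟩
      · exact ⟨a, b + 1, by ring⟩
    · refine h4.trans ?_
      exact_mod_cast Nat.le_mul_of_pos_left _ (by omega)
  have h5 : ((W.filter fun n => s * n ∉ W).card : ℝ) ≤ η * W.card :=
    le_trans (by exact_mod_cast h3) h
  calc 2 * ((W.filter fun n => s * n ∉ W).card : ℝ) ≤ 2 * (η * W.card) := by gcongr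
    _ = W.card * (2 * η) := by ring

/-- the average of the empirical measures -/
noncomputable def avg (W : Finset ℕ) (F : Finset T) : Measure (Fin 1 → T) :=
  (F.card : ℝ≥0∞)⁻¹ • ∑ x ∈ F, emp W (fun _ : Fin 1 => x)

lemma avg_prob {W : Finset ℕ} {F : Finset T} (hW : W.Nonempty) (hF : F.Nonempty) :
    IsProbabilityMeasure (avg W F) := by
  refine ⟨?_⟩
  have := fun x : T => emp_prob hW (fun _ : Fin 1 => x)
  unfold avg
  rw [Measure.smul_apply, Measure.finsetSum_apply, smul_eq_mul]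
  simp only [measure_univ, Finset.sum_const, nsmul_eq_mul, mul_one]
  exact ENNReal.inv_mul_cancel (by exact_mod_cast hF.card_pos.ne') (ENNReal.natCast_ne_top _)

lemma avg_integral {W : Finset ℕ} (hW : W.Nonempty) (F : Finset T) (f : (Fin 1 → T) →ᵇ ℝ) :
    ∫ z, f z ∂(avg W F) = (F.card : ℝ)⁻¹ * ∑ x ∈ F, ∫ z, f z ∂(emp W (fun _ : Fin 1 => x)) := by
  have := fun x : T => emp_prob hW (fun _ : Fin 1 => x)
  unfold avg
  rw [integral_smul_measure, integral_finset_sum_measure fun x _ => f.integrable _]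
  simp only [smul_eq_mul, ENNReal.toReal_inv, ENNReal.toReal_natCast]

lemma avg_real {W : Finset ℕ} (hW : W.Nonempty) (F : Finset T) (A : Set (Fin 1 → T)) :
    (avg W F).real A = (F.card : ℝ)⁻¹ * ∑ x ∈ F, (emp W (fun _ : Fin 1 => x)).real A := by
  have := fun x : T => emp_prob hW (fun _ : Fin 1 => x)
  rw [measureReal_def]
  unfold avg
  rw [Measure.smul_apply, Measure.finsetSum_apply, smul_eq_mul, ENNReal.toReal_mul,
    ENNReal.toReal_inv, ENNReal.toReal_natCast, ENNReal.toReal_sum fun n _ => measure_ne_top _ _]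
  rfl

/-- a point that does not dominate fails at an arc of the grid -/
lemma fail_grid {p q : ℕ} {κ ε H X : ℝ} (hκ0 : 0 ≤ κ) (hκ1 : κ ≤ 1) (hε : 0 < ε) {Q : ℕ}
    (hQ : 8 / ε ≤ Q) (hQ1 : 1 ≤ Q) (hW : (win p q X (H * X)).Nonempty) {x : T}
    (hx : ¬ Dom p q κ ε H X x) :
    ∃ g ∈ (Finset.range Q) ×ˢ (Finset.range (Q + 1)), ((g.2 : ℝ) / Q) ≤ 1 / 2 ∧
      (emp (win p q X (H * X)) (fun _ : Fin 1 => x)).real
        {z | z 0 ∈ Metric.ball (((g.1 : ℝ) / Q : ℝ) : T) ((g.2 : ℝ) / Q)} <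
        κ * (2 * ((g.2 : ℝ) / Q)) - ε / 2 := by
  classical
  by_contra hcon
  push Not at hcon
  apply hx
  intro c r hr0 hr
  have hprob := emp_prob hW (fun _ : Fin 1 => x)
  have hWR : (0 : ℝ) < (win p q X (H * X)).card := by exact_mod_cast hW.card_pos
  have h1 := grid (i := (0 : Fin 1)) (mu := emp (win p q X (H * X)) (fun _ : Fin 1 => x)) hε hQ hQ1
    hκ0 hκ1 (fun a ha b hb hb2 => hcon (a, b) (Finset.mem_product.2 ⟨ha, hb⟩) hb2) c hr
  have hmeas : MeasurableSet {z : Fin 1 → T | ‖z 0 - c‖ ≤ r} :=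
    (isClosed_le (by fun_prop) continuous_const).measurableSet
  rw [emp_real _ _ hmeas, ← div_eq_inv_mul, le_div_iff₀ hWR] at h1
  refine h1.trans (le_of_eq ?_)
  unfold vis
  congr 2

/-- the sequence of counterexamples -/
structure Bad (p q : ℕ) (κ ε σ : ℝ) (n : ℕ) where
  H : ℝ
  X : ℝ
  F : Finset T
  hH : (n : ℝ) ≤ Real.log H
  hH0 : 0 < H
  hX : 1 ≤ X
  hXH : (n : ℝ) * (Real.log H + 1) ≤ Real.log X
  hW : (win p q X (H * X)).Nonempty
  hip : (((win p q X (H * X)).filter fun m => H * X ≤ ((p * m : ℕ) : ℝ)).card : ℝ) ≤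
    1 / (2 * ((n : ℝ) + 8)) * (win p q X (H * X)).card
  hiq : (((win p q X (H * X)).filter fun m => H * X ≤ ((q * m : ℕ) : ℝ)).card : ℝ) ≤
    1 / (2 * ((n : ℝ) + 8)) * (win p q X (H * X)).card
  hF : ∀ x ∈ F, ∀ y ∈ F, x ≠ y → 1 / X ≤ ‖x - y‖
  hbad : ∀ x ∈ F, ¬ Dom p q κ ε H X x
  hcard : X ^ (κ + σ) < F.card

lemma exists_bad {p q : ℕ} (hp : 2 ≤ p) (hq : 2 ≤ q) (hpq : Nat.Coprime p q) {κ ε σ : ℝ}
    (hcon : ∀ H0 : ℝ, 1 < H0 → ∃ H : ℝ, H0 ≤ H ∧ ∀ X0 : ℝ, ∃ X : ℝ, X0 ≤ X ∧ ∃ F : Finset T,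
      (∀ x ∈ F, ∀ y ∈ F, x ≠ y → 1 / X ≤ ‖x - y‖) ∧ (∀ x ∈ F, ¬ Dom p q κ ε H X x) ∧
        X ^ (κ + σ) < F.card) (n : ℕ) : Nonempty (Bad p q κ ε σ n) := by
  classical
  have hirr := irr_of_coprime hp hq hpq
  have hn8 : (0 : ℝ) < (n : ℝ) + 8 := by positivity
  obtain ⟨Hp, hHp1, hHp⟩ := near_inv hp hq hirr (s := p) hp (η := 1 / (2 * ((n : ℝ) + 8)))
    (by positivity)
  obtain ⟨Hq, hHq1, hHq⟩ := near_inv hp hq hirr (s := q) hq (η := 1 / (2 * ((n : ℝ) + 8)))
    (by positivity)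
  obtain ⟨H, hH, h⟩ := hcon (max (max Hp Hq) (Real.exp n))
    (lt_of_lt_of_le hHp1 ((le_max_left _ _).trans (le_max_left _ _)))
  have hH1 : Hp ≤ H := ((le_max_left _ _).trans (le_max_left _ _)).trans hH
  have hH2 : Hq ≤ H := ((le_max_right _ _).trans (le_max_left _ _)).trans hH
  have hH3 : Real.exp n ≤ H := (le_max_right _ _).trans hH
  have hHgt : 1 < H := hHp1.trans_le hH1
  have hH0 : 0 < H := by linarith
  obtain ⟨δp, hδp, hδp2⟩ := hHp H hH1
  obtain ⟨δq, hδq, hδq2⟩ := hHq H hH2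
  obtain ⟨δc, hδc, hδc2⟩ := card_large hp hq hirr hHgt 1
  obtain ⟨X, hX, F, hF1, hF2, hF3⟩ := h (max (max (2 / δp) (2 / δq)) (max (2 / δc)
    (max 1 (Real.exp (n * (Real.log H + 1))))))
  have hX1 : 2 / δp ≤ X := ((le_max_left _ _).trans (le_max_left _ _)).trans hX
  have hX2 : 2 / δq ≤ X := ((le_max_right _ _).trans (le_max_left _ _)).trans hX
  have hX3 : 2 / δc ≤ X := ((le_max_left _ _).trans (le_max_right _ _)).trans hX
  have hX4 : 1 ≤ X :=
    ((le_max_left _ _).trans ((le_max_right _ _).trans (le_max_right _ _))).trans hX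
  have hX5 : Real.exp (n * (Real.log H + 1)) ≤ X :=
    ((le_max_right _ _).trans ((le_max_right _ _).trans (le_max_right _ _))).trans hX
  have hX0 : 0 < X := by linarith
  have e1 : 1 / (1 / X) = X := one_div_one_div X
  have e2 : H / (1 / X) = H * X := by rw [div_div_eq_mul_div, div_one]
  have hτ : 0 < 1 / X := by positivity
  have hlt : ∀ δ : ℝ, 0 < δ → 2 / δ ≤ X → 1 / X < δ := by
    intro δ hδ h
    rw [div_le_iff₀ hδ] at h
    rw [div_lt_iff₀ hX0]
    linarith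
  have a1 := hδp2 (1 / X) hτ (hlt _ hδp hX1)
  have a2 := hδq2 (1 / X) hτ (hlt _ hδq hX2)
  have a3 := hδc2 (1 / X) hτ (hlt _ hδc hX3)
  rw [e1, e2] at a1 a2 a3
  exact ⟨{
    H := H, X := X, F := F
    hH := (Real.le_log_iff_exp_le hH0).2 hH3
    hH0 := hH0
    hX := hX4
    hXH := (Real.le_log_iff_exp_le hX0).2 hX5
    hW := Finset.card_pos.1 (by
      have : (0 : ℝ) < (win p q X (H * X)).card := by linarith
      exact_mod_cast this)
    hip := a1
    hiq := a2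
    hF := hF1
    hbad := hF2
    hcard := hF3 }⟩

end Pool.Agent.TH338.DD
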