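import Pool.Agent.TH338.DD.Few

/-!
Separated points whose window does not dominate a given multiple of Lebesgue measure are few.
-/

set_option autoImplicit false

open MeasureTheory Filter Topology Set
open scoped ENNReal BoundedContinuousFunction

namespace Pool.Agent.TH338.DD

open Pool.Agent.W764.HL Pool.Agent.W764.SH
open Pool.Agent.W764.FB (T hh hh_zero close_hh norm_hh)

open Classical in
/-- pigeonhole for the arcs -/
lemma pigeon {F : Finset T} (hF : F.Nonempty) {S : Finset (ℕ × ℕ)} {P : ℕ × ℕ → T → Prop}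
    (h : ∀ x ∈ F, ∃ g ∈ S, P g x) : ∃ g ∈ S, (F.card : ℝ) ≤ S.card * (F.filter (P g)).card := by
  obtain ⟨x0, hx0⟩ := hF
  obtain ⟨g1, hg1, -⟩ := h x0 hx0
  obtain ⟨g0, hg0, hmax⟩ := S.exists_max_image (fun g => (F.filter (P g)).card) ⟨g1, hg1⟩
  refine ⟨g0, hg0, ?_⟩
  have h1 : F.card ≤ ∑ g ∈ S, (F.filter (P g)).card := by
    refine (Finset.card_le_card (t := S.biUnion fun g => F.filter (P g)) fun x hx => ?_).trans
      Finset.card_biUnion_le
    obtain ⟨g, hg, hgx⟩ := h x hx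
    rw [Finset.mem_biUnion]
    exact ⟨g, hg, Finset.mem_filter.2 ⟨hx, hgx⟩⟩
  have h2 : ∑ g ∈ S, (F.filter (P g)).card ≤ S.card * (F.filter (P g0)).card := by
    have := Finset.sum_le_card_nsmul S (fun g => (F.filter (P g)).card) _ hmax
    simpa using this
  exact_mod_cast h1.trans h2

lemma avg_inv {p q : ℕ} (hp : 2 ≤ p) (hq : 2 ≤ q) {κ ε σ : ℝ} {n : ℕ} (B : Bad p q κ ε σ n)
    {F' : Finset T} (hF' : F'.Nonempty) {s : ℕ} (hs : s = p ∨ s = q) (f : (Fin 1 → T) →ᵇ ℝ)
    (hf : ∀ z, |f z| ≤ 1) :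
    |∫ z, f (s • z) ∂(avg (win p q B.X (B.H * B.X)) F') -
      ∫ z, f z ∂(avg (win p q B.X (B.H * B.X)) F')| ≤ 1 / ((n : ℝ) + 8) := by
  classical
  have hFR : (0 : ℝ) < F'.card := by exact_mod_cast hF'.card_pos
  have h1 := avg_integral B.hW F' (f.compContinuous ⟨_, continuous_nsmul s⟩)
  have h2 := avg_integral B.hW F' f
  have e1 : ∀ μ : Measure (Fin 1 → T), ∫ z, (f.compContinuous ⟨_, continuous_nsmul s⟩) z ∂μ =
      ∫ z, f (s • z) ∂μ := fun μ => rfl
  simp_rw [e1] at h1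
  rw [h1, h2, ← mul_sub, ← Finset.sum_sub_distrib, abs_mul, abs_of_pos (inv_pos.2 hFR),
    inv_mul_le_iff₀ hFR]
  refine (Finset.abs_sum_le_sum_abs _ _).trans ?_
  refine (Finset.sum_le_card_nsmul _ _ (1 / ((n : ℝ) + 8)) fun x _ => ?_).trans (le_of_eq ?_)
  · have hs' : (((win p q B.X (B.H * B.X)).filter fun m => B.H * B.X ≤ ((s * m : ℕ) : ℝ)).card : ℝ) ≤
        1 / (2 * ((n : ℝ) + 8)) * (win p q B.X (B.H * B.X)).card := by
      rcases hs with rfl | rfl
      · exact B.hip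
      · exact B.hiq
    refine (emp_inv hp hq hs B.hW hs' (fun _ : Fin 1 => x) f hf).trans (le_of_eq ?_)
    field_simp
  · rw [nsmul_eq_mul]

open Classical in
/-- **Few bad points.** -/
theorem few {p q : ℕ} (hp : 2 ≤ p) (hq : 2 ≤ q) (hpq : Nat.Coprime p q) {κ ε σ : ℝ}
    (hκ0 : 0 ≤ κ) (hκ1 : κ ≤ 1) (hε : 0 < ε) (hσ : 0 < σ) :
    ∃ H0 : ℝ, 1 < H0 ∧ ∀ H : ℝ, H0 ≤ H → ∃ X0 : ℝ, ∀ X : ℝ, X0 ≤ X → ∀ F : Finset T,
      (∀ x ∈ F, ∀ y ∈ F, x ≠ y → 1 / X ≤ ‖x - y‖) → (∀ x ∈ F, ¬ Dom p q κ ε H X x) →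
      (F.card : ℝ) ≤ X ^ (κ + σ) := by
  by_contra hcon
  push Not at hcon
  have hl2 : 0 < Real.log 2 := Real.log_pos (by norm_num)
  obtain ⟨hlp, hlq⟩ := log_pos' hp hq
  obtain ⟨B⟩ : Nonempty (∀ n, Bad p q κ ε σ n) :=
    ⟨fun n => Classical.choice (exists_bad hp hq hpq hcon n)⟩
  -- the grid
  obtain ⟨Q0, hQ0⟩ := exists_nat_ge (8 / ε)
  set Q : ℕ := Q0 + 1 with hQ
  have hQe : 8 / ε ≤ Q := by rw [hQ]; push_cast; linarith
  have hQR : (0 : ℝ) < Q := by
    have : 0 < Q := by omega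
    exact_mod_cast this
  set S : Finset (ℕ × ℕ) := (Finset.range Q) ×ˢ (Finset.range (Q + 1)) with hS
  set P : ℕ → ℕ × ℕ → T → Prop := fun n g x => ((g.2 : ℝ) / Q) ≤ 1 / 2 ∧
      (emp (win p q (B n).X ((B n).H * (B n).X)) (fun _ : Fin 1 => x)).real
        {z | z 0 ∈ Metric.ball (((g.1 : ℝ) / Q : ℝ) : T) ((g.2 : ℝ) / Q)} <
        κ * (2 * ((g.2 : ℝ) / Q)) - ε / 2 with hP
  have hFne : ∀ n, (B n).F.Nonempty := by
    intro n
    have h1 := (B n).hcard
    have h2 : 0 ≤ (B n).X ^ (κ + σ) := Real.rpow_nonneg (by linarith [(B n).hX]) _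
    have h3 : (0 : ℝ) < (B n).F.card := by linarith
    exact Finset.card_pos.1 (by exact_mod_cast h3)
  have hpg := fun n => pigeon (hFne n) (S := S) (P := P n) (fun x hx =>
    fail_grid hκ0 hκ1 hε hQe (by omega) (B n).hW ((B n).hbad x hx))
  choose g hgS hgc using hpg
  set F' : ℕ → Finset T := fun n => (B n).F.filter (P n (g n)) with hF'
  have hgc' : ∀ n, ((B n).F.card : ℝ) ≤ S.card * (F' n).card := fun n => by
    convert hgc n
  have hF'ne : ∀ n, (F' n).Nonempty := by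
    intro n
    rw [Finset.nonempty_iff_ne_empty]
    intro h0
    have h1 := hgc' n
    rw [h0, Finset.card_empty, Nat.cast_zero, mul_zero] at h1
    have h3 : (0 : ℝ) < (B n).F.card := by exact_mod_cast (hFne n).card_pos
    linarith
  set lam : ℕ → ProbabilityMeasure (Fin 1 → T) := fun n =>
    ⟨avg (win p q (B n).X ((B n).H * (B n).X)) (F' n), avg_prob (B n).hW (hF'ne n)⟩ with hlam
  set Fil : Filter ℕ := (hyperfilter ℕ : Filter ℕ) with hFil
  have hFat : Fil ≤ atTop := Nat.hyperfilter_le_atTop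
  obtain ⟨L, -, hL⟩ := (isCompact_univ (X := ProbabilityMeasure (Fin 1 → T))).ultrafilter_le_nhds
    ((hyperfilter ℕ).map lam) (by simp)
  have hlim : Tendsto lam Fil (𝓝 L) := hL
  have hmp : ∀ s : ℕ, s = p ∨ s = q →
      MeasurePreserving (fun z : Fin 1 → T => s • z) (L : Measure (Fin 1 → T)) L :=
    fun s hs => inv_limit hFat hlim fun n f hf => avg_inv hp hq (B n) (hF'ne n) hs f hf
  -- the arc
  obtain ⟨g0, hg0S, hg0⟩ : ∃ g0 ∈ S, ∀ᶠ n in Fil, g n = g0 := by
    have h1 : (⋃ g0 ∈ (S : Set (ℕ × ℕ)), {n | g n = g0}) ∈ hyperfilter ℕ := by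
      have h2 : (⋃ g0 ∈ (S : Set (ℕ × ℕ)), {n | g n = g0}) = univ := by
        ext n
        simp only [mem_iUnion, mem_univ, iff_true]
        exact ⟨g n, by exact_mod_cast hgS n, rfl⟩
      rw [h2]
      exact Filter.univ_mem
    obtain ⟨g0, hg0, h3⟩ := (Ultrafilter.finite_biUnion_mem_iff S.finite_toSet).1 h1
    exact ⟨g0, by exact_mod_cast hg0, h3⟩
  set A : Set T := Metric.ball (((g0.1 : ℝ) / Q : ℝ) : T) ((g0.2 : ℝ) / Q) with hA
  set v : ℝ := 2 * ((g0.2 : ℝ) / Q) with hv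
  have hball : (L : Measure (Fin 1 → T)).real {z | z 0 ∈ A} ≤ κ * v - ε / 2 := by
    by_contra hlt
    push Not at hlt
    have hopen : IsOpen {z : Fin 1 → T | z 0 ∈ A} := Metric.isOpen_ball.preimage (continuous_apply 0)
    obtain ⟨n, hn1, hn2⟩ := ((open_lower hlim hopen hlt).and hg0).exists
    have h1 : (lam n : Measure (Fin 1 → T)).real {z | z 0 ∈ A} ≤ κ * v - ε / 2 := by
      show (avg (win p q (B n).X ((B n).H * (B n).X)) (F' n)).real {z | z 0 ∈ A} ≤ _
      have hFR : (0 : ℝ) < (F' n).card := by exact_mod_cast (hF'ne n).card_pos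
      rw [avg_real (B n).hW, inv_mul_le_iff₀ hFR, ← nsmul_eq_mul]
      refine Finset.sum_le_card_nsmul _ _ _ fun x hx => ?_
      have h2 := (Finset.mem_filter.1 hx).2.2
      rw [hn2] at h2
      exact h2.le
    linarith
  obtain ⟨x0, hx0⟩ : ∃ n, g n = g0 := hg0.exists
  have hv1 : v ≤ 1 := by
    obtain ⟨y, hy⟩ := hF'ne x0
    have h2 := (Finset.mem_filter.1 hy).2.1
    rw [hx0] at h2
    rw [hv]; linarith
  have hv0 : 0 ≤ v := by positivity
  -- the limit measure
  have hip := marg_mp (0 : Fin 1) (hmp p (Or.inl rfl))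
  have hiq := marg_mp (0 : Fin 1) (hmp q (Or.inr rfl))
  set μ : Measure T := marg (L : Measure (Fin 1 → T)) 0 with hμ
  have hμr : ∀ U : Set T, MeasurableSet U → μ.real U =
      (L : Measure (Fin 1 → T)).real {z | z 0 ∈ U} := fun U hU => by
    rw [measureReal_def, hμ, marg_apply _ _ hU, measureReal_def]
  obtain ⟨M, hM⟩ := exists_nat_ge (40 * Real.log 2 / (σ * Real.log q))
  have hM1 : 1 ≤ M := by
    have h1 : 0 < 40 * Real.log 2 / (σ * Real.log q) := by positivity
    have h2 : (0 : ℝ) < M := by linarith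
    exact_mod_cast h2
  have hMR : (0 : ℝ) < M := by exact_mod_cast hM1
  have hM2 : 5 * Real.log 2 / (M * Real.log q) ≤ σ / 8 := by
    rw [div_le_iff₀ (by positivity)] at hM
    rw [div_le_iff₀ (by positivity)]
    linarith
  obtain ⟨c, hc0, hc1, hcA, hcG⟩ := apart_set hp hq hpq hM1 μ hip hiq
  have hcκ : c ≤ κ - ε / 2 := by
    have h1 := hcA A measurableSet_ball
    rw [hμr A measurableSet_ball, vol_ball _ (by linarith) (by positivity)] at h1
    have h2 : c * v ≤ κ * v - ε / 2 := h1.trans hball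
    by_contra hlt
    push Not at hlt
    rcases le_or_gt κ c with h3 | h3
    · have : κ * v ≤ c * v := by gcongr
      linarith
    · have : (κ - c) * v ≤ κ - c := mul_le_of_le_one_right (by linarith) hv1
      linarith
  set η1 : ℝ := min (ε / 12) (σ / 24) with hη1
  have hη1p : 0 < η1 := by positivity
  have hη1a : η1 ≤ ε / 12 := min_le_left _ _
  have hη1b : η1 ≤ σ / 24 := min_le_right _ _
  obtain ⟨G, hGo, hGm, δ, hδ, hG⟩ := hcG η1 hη1p
  rw [hμr G hGo.measurableSet] at hGm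
  have hopen : IsOpen {z : Fin 1 → T | z 0 ∈ G} := hGo.preimage (continuous_apply 0)
  have hmG : MeasurableSet {z : Fin 1 → T | z 0 ∈ G} := hopen.measurableSet
  have hGev := open_lower hlim hopen (a := 1 - c - 2 * η1) (by linarith)
  obtain ⟨C, hC0, hC⟩ := coding hp hq hpq hM1 hδ hG
  set η2 : ℝ := min 1 (σ / 8) with hη2
  have hη2p : 0 < η2 := by positivity
  have hη2a : η2 ≤ 1 := min_le_left _ _
  have hη2b : η2 ≤ σ / 8 := min_le_right _ _
  set τ : ℝ := c + 3 * η1 with hτ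
  have hτ0 : 0 < τ := by positivity
  have hτ1 : τ ≤ 1 := by linarith
  have hSR : (0 : ℝ) < S.card := by
    have : 0 < S.card := Finset.card_pos.2 ⟨g0, hg0S⟩
    exact_mod_cast this
  set C1 : ℝ := S.card * C / η1 with hC1
  have hC1p : 0 < C1 := by positivity
  obtain ⟨n1, hn1⟩ := exists_nat_ge ((16 + 2 * |Real.log C1|) / σ)
  obtain ⟨n2, hn2⟩ := exists_nat_ge ((1 + 3 / η2) * Real.log p)
  obtain ⟨n, hnG, hn⟩ := (hGev.and (hFat (eventually_ge_atTop (max n1 n2)))).exists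
  have hnn1 : (16 + 2 * |Real.log C1|) / σ ≤ n :=
    hn1.trans (by exact_mod_cast (le_max_left _ _).trans hn)
  have hnn2 : (1 + 3 / η2) * Real.log p ≤ n :=
    hn2.trans (by exact_mod_cast (le_max_right _ _).trans hn)
  set X : ℝ := (B n).X with hX
  set H : ℝ := (B n).H with hH
  set W := win p q X (H * X) with hW
  have hX1 : 1 ≤ X := (B n).hX
  have hX0 : 0 < X := by linarith
  have hH0 : 0 < H := (B n).hH0
  have hlH : (n : ℝ) ≤ Real.log H := (B n).hH
  have hWR : (0 : ℝ) < W.card := by exact_mod_cast (B n).hW.card_pos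
  have hFR : (0 : ℝ) < (F' n).card := by exact_mod_cast (hF'ne n).card_pos
  -- Markov
  set f : T → ℝ := fun x => (emp W (fun _ : Fin 1 => x)).real {z | z 0 ∈ G} with hf
  have hemp := fun x : T => emp_prob (B n).hW (fun _ : Fin 1 => x)
  have hf1 : ∀ x, f x ≤ 1 := fun x => by
    have := hemp x
    exact measureReal_le_one
  have hsum : ((F' n).card : ℝ) * (1 - c - 2 * η1) < ∑ x ∈ F' n, f x := by
    have h1 : 1 - c - 2 * η1 < (avg W (F' n)).real {z | z 0 ∈ G} := hnG
    rwa [avg_real (B n).hW, lt_inv_mul_iff₀ hFR] at h1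
  set F'' : Finset T := (F' n).filter fun x => 1 - f x ≤ τ with hF''
  have hcardF'' : η1 * (F' n).card ≤ F''.card := by
    have h1 : ∑ x ∈ F' n, (1 - f x) ≤ (F' n).card * (c + 2 * η1) := by
      rw [Finset.sum_sub_distrib, Finset.sum_const, nsmul_eq_mul, mul_one]
      linarith
    have h2 : (((F' n).filter fun x => ¬ (1 - f x ≤ τ)).card : ℝ) * τ ≤
        ∑ x ∈ F' n, (1 - f x) := by
      rw [← nsmul_eq_mul]
      refine (Finset.card_nsmul_le_sum _ (fun x => 1 - f x) _ fun x hx => ?_).trans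
        (Finset.sum_le_sum_of_subset_of_nonneg (Finset.filter_subset _ _) fun x _ _ => by
          linarith [hf1 x])
      exact (not_le.1 (Finset.mem_filter.1 hx).2).le
    have h3 : ((F' n).card : ℝ) = F''.card +
        ((F' n).filter fun x => ¬ (1 - f x ≤ τ)).card := by
      have := Finset.card_filter_add_card_filter_not (s := F' n) (fun x => 1 - f x ≤ τ)
      exact_mod_cast this.symm
    have h4 : (F''.card : ℝ) * τ ≤ F''.card := mul_le_of_le_one_right (Nat.cast_nonneg _) hτ1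
    have h5 : (((F' n).filter fun x => ¬ (1 - f x ≤ τ)).card : ℝ) = (F' n).card - F''.card := by
      linarith
    rw [h5] at h2
    have h6 : c + 2 * η1 = τ - η1 := by rw [hτ]; ring
    rw [h6] at h1
    linarith only [h1, h2, h4]
  have hcode := hC H X τ η2 hX1 hτ0.le hτ1 hη2p hη2a (hnn2.trans hlH) hH0 F''
    (fun x hx y hy hxy => (B n).hF x (Finset.mem_filter.1 (Finset.mem_filter.1 hx).1).1 y
      (Finset.mem_filter.1 (Finset.mem_filter.1 hy).1).1 hxy)
    (fun x hx => by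
      have h1 := (Finset.mem_filter.1 hx).2
      rw [hf] at h1
      simp only at h1
      rw [emp_real _ _ hmG] at h1
      have h2 : ({n : ℕ | n ∈ win p q X (H * X) ∧ n • x ∉ G}.ncard : ℝ) = W.card -
          (W.filter fun n => n • (fun _ : Fin 1 => x) ∈ {z : Fin 1 → T | z 0 ∈ G}).card := by
        have h3 := Finset.card_filter_add_card_filter_not (s := W)
          (fun n => n • (fun _ : Fin 1 => x) ∈ {z : Fin 1 → T | z 0 ∈ G})
        have h4 : {n : ℕ | n ∈ win p q X (H * X) ∧ n • x ∉ G}.ncard =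
            (W.filter fun n => ¬ n • (fun _ : Fin 1 => x) ∈ {z : Fin 1 → T | z 0 ∈ G}).card := by
          rw [← Set.ncard_coe_finset]
          congr 1
          ext m
          simp [hW]
        rw [h4]
        have h5 : ((W.filter fun n => n • (fun _ : Fin 1 => x) ∈
            {z : Fin 1 → T | z 0 ∈ G}).card : ℝ) + (W.filter fun n =>
            ¬ n • (fun _ : Fin 1 => x) ∈ {z : Fin 1 → T | z 0 ∈ G}).card = W.card := by
          exact_mod_cast h3
        linarith
      rw [h2]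
      have h6 : ((W.card : ℝ))⁻¹ * ((W.filter fun n => n • (fun _ : Fin 1 => x) ∈
          {z : Fin 1 → T | z 0 ∈ G}).card : ℝ) * W.card =
          (W.filter fun n => n • (fun _ : Fin 1 => x) ∈ {z : Fin 1 → T | z 0 ∈ G}).card := by
        field_simp
      have h7 : (1 - ((W.card : ℝ))⁻¹ * ((W.filter fun n => n • (fun _ : Fin 1 => x) ∈
          {z : Fin 1 → T | z 0 ∈ G}).card : ℝ)) * W.card ≤ τ * W.card := by gcongr
      linarith)
  set a : ℝ := τ * (1 + η2) + 5 * Real.log 2 / (M * Real.log q) with ha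
  have haκ : a ≤ κ + σ / 2 := by
    have h1 : τ * (1 + η2) ≤ τ + η2 := by
      have h2 := mul_le_mul_of_nonneg_right hτ1 hη2p.le
      linarith only [h2]
    linarith
  have hXa : X ^ a ≤ X ^ (κ + σ / 2) := Real.rpow_le_rpow_of_exponent_le hX1 haκ
  have hchain : X ^ (κ + σ) < C1 * H ^ 8 * X ^ (κ + σ / 2) := by
    have h1 : X ^ (κ + σ) < (B n).F.card := (B n).hcard
    have h2 : ((B n).F.card : ℝ) ≤ S.card * (F' n).card := hgc' n
    have h3 : ((F' n).card : ℝ) ≤ F''.card / η1 := by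
      rw [le_div_iff₀ hη1p]; linarith
    calc X ^ (κ + σ) < (B n).F.card := h1
      _ ≤ S.card * (F' n).card := h2
      _ ≤ S.card * (F''.card / η1) := by gcongr
      _ ≤ S.card * (C * H ^ 8 * X ^ a / η1) := by gcongr
      _ ≤ S.card * (C * H ^ 8 * X ^ (κ + σ / 2) / η1) := by gcongr
      _ = C1 * H ^ 8 * X ^ (κ + σ / 2) := by rw [hC1]; ring
  have hsplit : X ^ (κ + σ) = X ^ (κ + σ / 2) * X ^ (σ / 2) := by
    rw [← Real.rpow_add hX0]; congr 1; ring
  have hXp : 0 < X ^ (κ + σ / 2) := by positivity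
  have hfin : X ^ (σ / 2) < C1 * H ^ 8 := by
    rw [hsplit, mul_comm (C1 * H ^ 8)] at hchain
    exact lt_of_mul_lt_mul_left hchain hXp.le
  have hlog := Real.log_lt_log (by positivity) hfin
  rw [Real.log_rpow hX0, Real.log_mul hC1p.ne' (by positivity), Real.log_pow] at hlog
  have hXH := (B n).hXH
  have hlC := le_abs_self (Real.log C1)
  have hlC0 := abs_nonneg (Real.log C1)
  rw [div_le_iff₀ hσ] at hnn1
  have hlH0 : 0 ≤ Real.log H := le_trans (Nat.cast_nonneg n) hlH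
  have h1 : (8 + |Real.log C1|) * (Real.log H + 1) ≤ σ / 2 * Real.log X := by
    calc (8 + |Real.log C1|) * (Real.log H + 1) ≤ (n * σ / 2) * (Real.log H + 1) := by
          gcongr
          linarith
      _ = σ / 2 * (n * (Real.log H + 1)) := by ring
      _ ≤ σ / 2 * Real.log X := by gcongr
  push_cast at hlog
  linarith only [hlog, h1, hlC, mul_nonneg hlC0 hlH0]

end Pool.Agent.TH338.DD
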