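import Pool.Agent.TH338.DD.Low

/-!
The places of the free digits: long gaps at the factorials.
-/

set_option autoImplicit false

open MeasureTheory Filter Topology Set
open scoped ENNReal NNReal

namespace Pool.Agent.TH338.DD

open Pool.Agent.W764.HL Pool.Agent.W764.SH
open Pool.Agent.W764.FB (T)

/-- the largest factorial at most `j` -/
def mf (j : ℕ) : ℕ := (Finset.range (j + 1)).sup fun k => if k.factorial ≤ j then k.factorial else 0

lemma mf_le (j : ℕ) : mf j ≤ j := by
  unfold mf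
  refine Finset.sup_le fun k _ => ?_
  split_ifs with h
  · exact h
  · exact Nat.zero_le _

lemma le_mf {j k : ℕ} (h : k.factorial ≤ j) : k.factorial ≤ mf j := by
  unfold mf
  have hk : k ∈ Finset.range (j + 1) := by
    rw [Finset.mem_range]
    have := Nat.self_le_factorial k
    omega
  have h1 := Finset.le_sup (f := fun k => if k.factorial ≤ j then k.factorial else 0) hk
  simpa [h] using h1

lemma mf_mono {i j : ℕ} (h : i ≤ j) : mf i ≤ mf j := by
  refine Finset.sup_le fun k _ => ?_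
  split_ifs with h1
  · exact le_mf (h1.trans h)
  · exact Nat.zero_le _

lemma mf_factorial (k : ℕ) : mf k.factorial = k.factorial :=
  le_antisymm (mf_le _) (le_mf le_rfl)

lemma mf_pred {k : ℕ} (hk : 1 ≤ k) : mf (k.factorial - 1) ≤ (k - 1).factorial := by
  unfold mf
  refine Finset.sup_le fun i _ => ?_
  split_ifs with h1
  · have hpos := Nat.factorial_pos k
    have h2 : i.factorial < k.factorial := by omega
    have h3 : i < k := by
      by_contra hcon
      push Not at hcon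
      exact absurd (Nat.factorial_le hcon) (by omega)
    exact Nat.factorial_le (by omega)
  · exact Nat.zero_le _

/-- the places -/
noncomputable def pl (s : ℝ) (j : ℕ) : ℕ := j + 1 + ⌊(1 / s - 1) * mf j⌋₊

lemma pl_mono {s : ℝ} (hs0 : 0 < s) (hs1 : s ≤ 1) : StrictMono (pl s) := by
  refine strictMono_nat_of_lt_succ fun j => ?_
  unfold pl
  have h1 : ⌊(1 / s - 1) * mf j⌋₊ ≤ ⌊(1 / s - 1) * mf (j + 1)⌋₊ := by
    refine Nat.floor_le_floor ?_
    have h2 : (mf j : ℝ) ≤ mf (j + 1) := by exact_mod_cast mf_mono (Nat.le_succ j)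
    have h3 : 0 ≤ 1 / s - 1 := by
      rw [sub_nonneg, le_div_iff₀ hs0]; linarith
    gcongr
  omega

lemma pl_dens {s : ℝ} (hs0 : 0 < s) (hs1 : s ≤ 1) (j : ℕ) : s * pl s j ≤ j + 1 := by
  have h3 : 0 ≤ 1 / s - 1 := by
    rw [sub_nonneg, le_div_iff₀ hs0]; linarith
  have h4 : (⌊(1 / s - 1) * mf j⌋₊ : ℝ) ≤ (1 / s - 1) * mf j := Nat.floor_le (by positivity)
  have h5 : (mf j : ℝ) ≤ j := by exact_mod_cast mf_le j
  have h6 : (pl s j : ℝ) ≤ j + 1 + (1 / s - 1) * j := by
    unfold pl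
    push_cast
    have : (1 / s - 1) * (mf j : ℝ) ≤ (1 / s - 1) * j := by gcongr
    linarith
  calc s * pl s j ≤ s * (j + 1 + (1 / s - 1) * j) := by gcongr
    _ = s + j := by field_simp; ring
    _ ≤ j + 1 := by linarith

lemma pl_gap {s : ℝ} (hs0 : 0 < s) (hs1 : s ≤ 1) {k : ℕ} :
    pl s (k.factorial - 1) + 1 ≤ pl s k.factorial ∧
      ∀ j, pl s j < pl s (k.factorial - 1) + 1 ∨ pl s k.factorial ≤ pl s j := by
  have hm := pl_mono hs0 hs1
  have hpos := Nat.factorial_pos k
  refine ⟨hm (by omega), fun j => ?_⟩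
  rcases Nat.lt_or_ge j k.factorial with h | h
  · left
    exact Nat.lt_succ_of_le (hm.monotone (by omega))
  · right
    exact hm.monotone h

lemma pl_lower {s : ℝ} (k : ℕ) : (1 / s) * k.factorial ≤ pl s k.factorial := by
  unfold pl
  rw [mf_factorial]
  have h1 : (1 / s - 1) * (k.factorial : ℝ) < ⌊(1 / s - 1) * (k.factorial : ℝ)⌋₊ + 1 :=
    Nat.lt_floor_add_one _
  push_cast
  linarith

lemma pl_upper {s : ℝ} (hs0 : 0 < s) (hs1 : s ≤ 1) {k : ℕ} (hk : 1 ≤ k) :
    ((pl s (k.factorial - 1) + 1 : ℕ) : ℝ) ≤ k.factorial * (1 + 1 / (s * k)) + 1 := by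
  unfold pl
  have hpos := Nat.factorial_pos k
  have h3 : 0 ≤ 1 / s - 1 := by
    rw [sub_nonneg, le_div_iff₀ hs0]; linarith
  have h4 : (⌊(1 / s - 1) * mf (k.factorial - 1)⌋₊ : ℝ) ≤ (1 / s - 1) * mf (k.factorial - 1) :=
    Nat.floor_le (by positivity)
  have h5 : (mf (k.factorial - 1) : ℝ) ≤ (k - 1).factorial := by exact_mod_cast mf_pred hk
  have h6 : (k.factorial : ℝ) = k * (k - 1).factorial := by
    exact_mod_cast (Nat.mul_factorial_pred (by omega)).symm
  have hkR : (1 : ℝ) ≤ k := by exact_mod_cast hk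
  have h7 : (k.factorial : ℝ) * (1 / (s * k)) = (1 / s) * (k - 1).factorial := by
    rw [h6]; field_simp
  have h8 : ((k.factorial - 1 + 1 : ℕ) : ℝ) = k.factorial := by
    congr 1; omega
  have h9 : (1 / s - 1) * (mf (k.factorial - 1) : ℝ) ≤ (1 / s) * (k - 1).factorial := by
    have h10 : (0 : ℝ) ≤ (k - 1).factorial := by positivity
    calc (1 / s - 1) * (mf (k.factorial - 1) : ℝ) ≤ (1 / s - 1) * (k - 1).factorial := by gcongr
      _ ≤ (1 / s) * (k - 1).factorial := by nlinarith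
  push_cast at h8 ⊢
  rw [mul_add, mul_one, h7]
  linarith

/-- eventually the gaps are long -/
lemma long_gap {s θ A B : ℝ} (hs0 : 0 < s) (hs1 : s ≤ 1) (hA : A * s < θ) (hA0 : 0 < A) :
    ∀ᶠ k : ℕ in atTop, A * ((pl s (k.factorial - 1) + 1 : ℕ) : ℝ) + B ≤ θ * pl s k.factorial := by
  have hθ : 0 < θ := lt_trans (by positivity) hA
  have h1 : Tendsto (fun k : ℕ => A * (1 + 1 / (s * k))) atTop (𝓝 (A * (1 + 0))) := by
    refine Tendsto.const_mul _ (tendsto_const_nhds.add ?_)
    have : (fun k : ℕ => 1 / (s * (k : ℝ))) = fun k : ℕ => (1 / s) * (1 / (k : ℝ)) := by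
      funext k; rw [one_div_mul_one_div]
    rw [this, ← mul_zero (1 / s)]
    exact tendsto_one_div_atTop_nhds_zero_nat.const_mul _
  have h2 : A < θ / s := by rw [lt_div_iff₀ hs0]; exact hA
  set m : ℝ := (A + θ / s) / 2 with hm
  have h3 : ∀ᶠ k : ℕ in atTop, A * (1 + 1 / (s * k)) < m := by
    refine h1.eventually_lt_const ?_
    rw [add_zero, mul_one, hm]; linarith
  obtain ⟨K, hK⟩ := exists_nat_ge ((A + |B|) / ((θ / s - A) / 2))
  filter_upwards [h3, eventually_ge_atTop (max K 1)] with k hk1 hk2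
  have hk3 : 1 ≤ k := (le_max_right _ _).trans hk2
  have h4 := pl_upper hs0 hs1 hk3
  have h5 := pl_lower (s := s) k
  have h6 : (K : ℝ) ≤ k.factorial := by
    have h7 : K ≤ k.factorial := ((le_max_left _ _).trans hk2).trans (Nat.self_le_factorial k)
    exact_mod_cast h7
  have h7 : (A + |B|) ≤ (k.factorial : ℝ) * ((θ / s - A) / 2) := by
    have h8 : 0 < (θ / s - A) / 2 := by linarith
    have h9 := hK.trans h6
    rwa [div_le_iff₀ h8] at h9
  have hf0 : (0 : ℝ) < k.factorial := by exact_mod_cast Nat.factorial_pos k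
  calc A * ((pl s (k.factorial - 1) + 1 : ℕ) : ℝ) + B
      ≤ A * (k.factorial * (1 + 1 / (s * k)) + 1) + |B| := by
        gcongr
        exact le_abs_self B
    _ = k.factorial * (A * (1 + 1 / (s * k))) + (A + |B|) := by ring
    _ ≤ k.factorial * m + k.factorial * ((θ / s - A) / 2) := by gcongr
    _ = θ * ((1 / s) * k.factorial) := by rw [hm]; field_simp; ring
    _ ≤ θ * pl s k.factorial := by gcongr

end Pool.Agent.TH338.DD
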