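import Mathlib

/-!
A counting lemma for trees: if at every level at most `m` well separated children of a cell contain
bad points, and all points have few good levels, there are few points.
-/

set_option autoImplicit false

open Finset

namespace Pool.Agent.TH338.DD

/-- the weight of a level -/
noncomputable def wt (K m : ℕ) (g : Prop) [Decidable g] : ℝ :=
  if g then 1 / (2 * (K : ℝ)) else 1 / (4 * (m : ℝ))

lemma wt_nonneg (K m : ℕ) (g : Prop) [Decidable g] : 0 ≤ wt K m g := by
  unfold wt; split_ifs <;> positivity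

section
variable {α : Type*} [DecidableEq α]

/-- a set of naturals of which no `m` elements have pairwise distance at least two -/
lemma card_le_of_no_sep {C : Finset ℕ} {m : ℕ}
    (h : ∀ S ⊆ C, S.card = m → ∃ x ∈ S, ∃ y ∈ S, x ≠ y ∧ ¬ (x + 2 ≤ y ∨ y + 2 ≤ x)) :
    C.card ≤ 2 * m := by
  have key : ∀ r : ℕ, (C.filter fun x => x % 2 = r).card ≤ m := by
    intro r
    by_contra hcon
    push Not at hcon
    obtain ⟨S, hS, hSm⟩ := Finset.exists_subset_card_eq hcon.le
    obtain ⟨x, hx, y, hy, hxy, hne⟩ := h S (hS.trans (Finset.filter_subset _ _)) hSm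
    have h1 := (Finset.mem_filter.1 (hS hx)).2
    have h2 := (Finset.mem_filter.1 (hS hy)).2
    omega
  have h0 := key 0
  have h1 := key 1
  have h2 : C = (C.filter fun x => x % 2 = 0) ∪ (C.filter fun x => x % 2 = 1) := by
    ext x
    simp only [Finset.mem_union, Finset.mem_filter]
    constructor
    · intro hx
      rcases Nat.mod_two_eq_zero_or_one x with h | h
      · left; exact ⟨hx, h⟩
      · right; exact ⟨hx, h⟩
    · rintro (⟨hx, -⟩ | ⟨hx, -⟩) <;> exact hx
  calc C.card ≤ (C.filter fun x => x % 2 = 0).card + (C.filter fun x => x % 2 = 1).card := by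
        conv_lhs => rw [h2]
        exact Finset.card_union_le _ _
    _ ≤ 2 * m := by omega

/-- **Tree counting.** -/
theorem tree_count (F : Finset α) (K m J B a G : ℕ) (hK : 1 ≤ K) (hm : 1 ≤ m)
    (c : ℕ → α → ℕ) (hc : ∀ j < J, ∀ x ∈ F, c j x = c (j + 1) x / K)
    (g : ℕ → α → Prop) [∀ j x, Decidable (g j x)]
    (hg : ∀ j < J, ∀ S : Finset α, S ⊆ F → S.card = m → (∀ x ∈ S, ∀ y ∈ S, c j x = c j y) →
      (∀ x ∈ S, ∀ y ∈ S, x ≠ y → c (j + 1) x + 2 ≤ c (j + 1) y ∨ c (j + 1) y + 2 ≤ c (j + 1) x) →
      ∃ x ∈ S, g j x)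
    (hB : ∀ i, (F.filter fun x => c J x = i).card ≤ B)
    (ha : ∀ x ∈ F, c 0 x < a)
    (hG : ∀ x ∈ F, ((range J).filter fun j => g j x).card ≤ G) :
    (F.card : ℝ) ≤ a * B * (4 * m) ^ J * (2 * K) ^ G := by
  have hKR : (1 : ℝ) ≤ K := by exact_mod_cast hK
  have hmR : (1 : ℝ) ≤ m := by exact_mod_cast hm
  set P : ℕ → α → ℝ := fun j x => ∏ t ∈ Ico j J, wt K m (g t x) with hP
  have hP0 : ∀ j x, 0 ≤ P j x := fun j x => Finset.prod_nonneg fun t _ => wt_nonneg _ _ _
  have hPs : ∀ j < J, ∀ x, P j x = wt K m (g j x) * P (j + 1) x := by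
    intro j hj x
    simp only [hP]
    rw [Finset.prod_eq_prod_Ico_succ_bot hj]
  -- the induction
  have main : ∀ d j, j + d = J → ∀ i, ∑ x ∈ F.filter (fun x => c j x = i), P j x ≤ B := by
    intro d
    induction d with
    | zero =>
      intro j hj i
      have hjJ : j = J := by omega
      subst hjJ
      simp only [hP, Finset.Ico_self, Finset.prod_empty, Finset.sum_const, nsmul_eq_mul, mul_one]
      exact_mod_cast hB i
    | succ d ih =>
      intro j hj i
      have hjJ : j < J := by omega
      have ih' := ih (j + 1) (by omega)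
      set A := F.filter (fun x => c j x = i) with hA
      have hsplit : ∑ x ∈ A, P j x = ∑ x ∈ A.filter (fun x => g j x), P j x +
          ∑ x ∈ A.filter (fun x => ¬ g j x), P j x :=
        (Finset.sum_filter_add_sum_filter_not A (fun x => g j x) _).symm
      -- good part
      have hgood : ∑ x ∈ A.filter (fun x => g j x), P j x ≤ (B : ℝ) / 2 := by
        have h1 : ∑ x ∈ A.filter (fun x => g j x), P j x ≤
            ∑ x ∈ A, 1 / (2 * (K : ℝ)) * P (j + 1) x := by
          rw [Finset.sum_filter]
          refine Finset.sum_le_sum fun x _ => ?_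
          split_ifs with h
          · rw [hPs j hjJ x]
            unfold wt
            rw [if_pos h]
          · exact mul_nonneg (by positivity) (hP0 _ _)
        refine h1.trans ?_
        rw [← Finset.mul_sum]
        have h2 : ∑ x ∈ A, P (j + 1) x ≤
            ∑ i' ∈ Ico (i * K) (i * K + K), ∑ x ∈ F.filter (fun x => c (j + 1) x = i'), P (j + 1) x := by
          have hmaps : ∀ x ∈ A, c (j + 1) x ∈ Ico (i * K) (i * K + K) := by
            intro x hx
            rw [hA, Finset.mem_filter] at hx
            have h3 := hc j hjJ x hx.1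
            rw [hx.2] at h3
            rw [Finset.mem_Ico]
            have h4 := Nat.div_add_mod (c (j + 1) x) K
            have h5 := Nat.mod_lt (c (j + 1) x) (show 0 < K by omega)
            rw [← h3, Nat.mul_comm] at h4
            constructor <;> omega
          rw [← Finset.sum_fiberwise_of_maps_to hmaps]
          refine Finset.sum_le_sum fun i' _ => ?_
          refine Finset.sum_le_sum_of_subset_of_nonneg ?_ fun x _ _ => hP0 _ _
          intro x hx
          rw [Finset.mem_filter] at hx ⊢
          exact ⟨(Finset.mem_filter.1 hx.1).1, hx.2⟩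
        have h3 : ∑ i' ∈ Ico (i * K) (i * K + K),
            ∑ x ∈ F.filter (fun x => c (j + 1) x = i'), P (j + 1) x ≤ K * B := by
          refine (Finset.sum_le_card_nsmul _ _ (B : ℝ) fun i' _ => ih' i').trans ?_
          rw [Nat.card_Ico, Nat.add_sub_cancel_left, nsmul_eq_mul]
        calc 1 / (2 * (K : ℝ)) * ∑ x ∈ A, P (j + 1) x ≤ 1 / (2 * (K : ℝ)) * (K * B) := by
              gcongr; exact h2.trans h3
          _ = (B : ℝ) / 2 := by field_simp
      -- bad part
      have hbad : ∑ x ∈ A.filter (fun x => ¬ g j x), P j x ≤ (B : ℝ) / 2 := by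
        set Bd := A.filter (fun x => ¬ g j x) with hBd
        set C := Bd.image (c (j + 1)) with hC
        have hCcard : C.card ≤ 2 * m := by
          refine card_le_of_no_sep fun S hS hSm => ?_
          by_contra hcon
          push Not at hcon
          have hpre : ∀ s ∈ S, ∃ x ∈ Bd, c (j + 1) x = s := fun s hs => Finset.mem_image.1 (hS hs)
          obtain ⟨s0, hs0⟩ : S.Nonempty := Finset.card_pos.1 (by omega)
          obtain ⟨x0, -, -⟩ := hpre s0 hs0
          have : Nonempty α := ⟨x0⟩
          choose! f hf1 hf2 using hpre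
          have hinj : Set.InjOn f (S : Set ℕ) := by
            intro s hs t ht hst
            rw [← hf2 s hs, ← hf2 t ht, hst]
          obtain ⟨x, hx, hgx⟩ := hg j hjJ (S.image f) (by
              intro x hx
              obtain ⟨s, hs, rfl⟩ := Finset.mem_image.1 hx
              exact (Finset.mem_filter.1 (Finset.mem_filter.1 (hf1 s hs)).1).1)
            (by rw [Finset.card_image_of_injOn hinj, hSm])
            (by
              intro x hx y hy
              obtain ⟨s, hs, rfl⟩ := Finset.mem_image.1 hx
              obtain ⟨t, ht, rfl⟩ := Finset.mem_image.1 hy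
              rw [(Finset.mem_filter.1 (Finset.mem_filter.1 (hf1 s hs)).1).2,
                (Finset.mem_filter.1 (Finset.mem_filter.1 (hf1 t ht)).1).2])
            (by
              intro x hx y hy hxy
              obtain ⟨s, hs, rfl⟩ := Finset.mem_image.1 hx
              obtain ⟨t, ht, rfl⟩ := Finset.mem_image.1 hy
              rw [hf2 s hs, hf2 t ht]
              have hst : s ≠ t := fun h => hxy (by rw [h])
              by_contra hcon2
              push Not at hcon2
              have := hcon s hs t ht hst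
              omega)
          obtain ⟨s, hs, rfl⟩ := Finset.mem_image.1 hx
          exact (Finset.mem_filter.1 (hf1 s hs)).2 hgx
        have h1 : ∑ x ∈ Bd, P j x = 1 / (4 * (m : ℝ)) * ∑ x ∈ Bd, P (j + 1) x := by
          rw [Finset.mul_sum]
          refine Finset.sum_congr rfl fun x hx => ?_
          rw [hPs j hjJ x]
          unfold wt
          rw [if_neg (Finset.mem_filter.1 hx).2]
        have h2 : ∑ x ∈ Bd, P (j + 1) x ≤
            ∑ i' ∈ C, ∑ x ∈ F.filter (fun x => c (j + 1) x = i'), P (j + 1) x := by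
          have hmaps : ∀ x ∈ Bd, c (j + 1) x ∈ C := fun x hx => Finset.mem_image_of_mem _ hx
          rw [← Finset.sum_fiberwise_of_maps_to hmaps]
          refine Finset.sum_le_sum fun i' _ => ?_
          refine Finset.sum_le_sum_of_subset_of_nonneg ?_ fun x _ _ => hP0 _ _
          intro x hx
          rw [Finset.mem_filter] at hx ⊢
          exact ⟨(Finset.mem_filter.1 (Finset.mem_filter.1 hx.1).1).1, hx.2⟩
        have h3 : ∑ i' ∈ C, ∑ x ∈ F.filter (fun x => c (j + 1) x = i'), P (j + 1) x ≤
            2 * m * B := by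
          refine (Finset.sum_le_card_nsmul _ _ (B : ℝ) fun i' _ => ih' i').trans ?_
          rw [nsmul_eq_mul]
          have : (C.card : ℝ) ≤ 2 * m := by exact_mod_cast hCcard
          gcongr
        rw [h1]
        calc 1 / (4 * (m : ℝ)) * ∑ x ∈ Bd, P (j + 1) x ≤ 1 / (4 * (m : ℝ)) * (2 * m * B) := by
              gcongr; exact h2.trans h3
          _ = (B : ℝ) / 2 := by field_simp; norm_num
      rw [hsplit]
      linarith
  -- conclusion
  have h0 : ∑ x ∈ F, P 0 x ≤ a * B := by
    have hmaps : ∀ x ∈ F, c 0 x ∈ range a := fun x hx => Finset.mem_range.2 (ha x hx)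
    rw [← Finset.sum_fiberwise_of_maps_to hmaps]
    refine (Finset.sum_le_card_nsmul _ _ (B : ℝ) fun i _ => main J 0 (by omega) i).trans ?_
    rw [Finset.card_range, nsmul_eq_mul]
  have h1 : ∀ x ∈ F, (1 / (4 * (m : ℝ))) ^ J * (1 / (2 * (K : ℝ))) ^ G ≤ P 0 x := by
    intro x hx
    have h2 : P 0 x = ∏ t ∈ range J, wt K m (g t x) := by
      simp only [hP]; rw [Finset.range_eq_Ico]
    have h3 : P 0 x = (1 / (2 * (K : ℝ))) ^ ((range J).filter fun j => g j x).card *
        (1 / (4 * (m : ℝ))) ^ ((range J).filter fun j => ¬ g j x).card := by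
      rw [h2]
      unfold wt
      rw [Finset.prod_ite, Finset.prod_const, Finset.prod_const]
    rw [h3, mul_comm]
    have h4 : (1 / (2 * (K : ℝ))) ≤ 1 := by
      rw [div_le_one (by positivity)]; linarith
    have h5 : (1 / (4 * (m : ℝ))) ≤ 1 := by
      rw [div_le_one (by positivity)]; linarith
    have h6 : ((range J).filter fun j => ¬ g j x).card ≤ J := by
      refine (Finset.card_filter_le _ _).trans ?_
      rw [Finset.card_range]
    exact mul_le_mul (pow_le_pow_of_le_one (by positivity) h4 (hG x hx))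
      (pow_le_pow_of_le_one (by positivity) h5 h6) (by positivity) (by positivity)
  have h2 : (F.card : ℝ) * ((1 / (4 * (m : ℝ))) ^ J * (1 / (2 * (K : ℝ))) ^ G) ≤ a * B := by
    calc (F.card : ℝ) * ((1 / (4 * (m : ℝ))) ^ J * (1 / (2 * (K : ℝ))) ^ G)
        = ∑ _x ∈ F, (1 / (4 * (m : ℝ))) ^ J * (1 / (2 * (K : ℝ))) ^ G := by
          rw [Finset.sum_const, nsmul_eq_mul]
      _ ≤ ∑ x ∈ F, P 0 x := Finset.sum_le_sum h1
      _ ≤ a * B := h0
  have h3 : (F.card : ℝ) = (F.card : ℝ) * ((1 / (4 * (m : ℝ))) ^ J * (1 / (2 * (K : ℝ))) ^ G) *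
      ((4 * m) ^ J * (2 * K) ^ G) := by
    rw [one_div, one_div, inv_pow, inv_pow]
    field_simp
  rw [h3]
  calc _ ≤ a * B * ((4 * (m : ℝ)) ^ J * (2 * K) ^ G) := by gcongr
    _ = _ := by ring

end

end Pool.Agent.TH338.DD
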