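import Pool.Agent.W764.HL.Pair
import Pool.Agent.TH338.DD.Tree

/-!
Equidistributed windows, and clusters of points.
-/

set_option autoImplicit false

open MeasureTheory Filter Topology Set

namespace Pool.Agent.TH338.DD

open Pool.Agent.W764.HL Pool.Agent.W764.SH
open Pool.Agent.W764.FB (T)

/-- the orbit of `x` is equidistributed up to `ε` in the window `X ≤ n < H X` -/
def Eqd (p q : ℕ) (ε H X : ℝ) (x : T) : Prop :=
  (win p q X (H * X)).Nonempty ∧ ∀ c : T, ∀ r : ℝ, 0 ≤ r → r ≤ 1 / 2 →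
    |(vis p q X (H * X) x c r : ℝ) - 2 * r * (win p q X (H * X)).card| ≤
      ε * (win p q X (H * X)).card

lemma vis_le {p q : ℕ} {X Y : ℝ} {x c : T} {r : ℝ} : vis p q X Y x c r ≤ (win p q X Y).card :=
  Finset.card_filter_le _ _

lemma norm_half : ‖(((1 / 2 : ℝ)) : T)‖ = 1 / 2 := by
  rw [UnitAddCircle.norm_eq]
  norm_num [round_eq]

/-- disjoint arcs -/
lemma vis_add {p q : ℕ} {X Y : ℝ} {x c : T} {r s : ℝ} (h : r + s < 1 / 2) :
    vis p q X Y x c r + vis p q X Y x (c + ((1 / 2 : ℝ) : T)) s ≤ (win p q X Y).card := by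
  classical
  unfold vis
  rw [← Finset.card_union_of_disjoint]
  · refine Finset.card_le_card ?_
    intro n hn
    rcases Finset.mem_union.1 hn with h1 | h1 <;> exact (Finset.mem_filter.1 h1).1
  · rw [Finset.disjoint_left]
    intro n h1 h2
    have h3 := (Finset.mem_filter.1 h1).2
    have h4 := (Finset.mem_filter.1 h2).2
    have h5 : ‖(((1 / 2 : ℝ)) : T)‖ ≤ r + s := by
      have e : (((1 / 2 : ℝ)) : T) = (n • x - c) - (n • x - (c + ((1 / 2 : ℝ) : T))) := by abel
      rw [e]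
      exact (norm_sub_le _ _).trans (add_le_add h3 h4)
    rw [norm_half] at h5
    linarith

/-- lower bounds for all arcs imply upper bounds -/
lemma eqd_of_lower {p q : ℕ} {ε H X : ℝ} {x : T} (hW : (win p q X (H * X)).Nonempty)
    (hlow : ∀ c : T, ∀ r : ℝ, 0 ≤ r → r ≤ 1 / 2 →
      (2 * r - ε) * (win p q X (H * X)).card ≤ (vis p q X (H * X) x c r : ℝ)) (hε : 0 ≤ ε) :
    Eqd p q ε H X x := by
  refine ⟨hW, fun c r hr0 hr => ?_⟩
  set W := win p q X (H * X) with hWdef
  have hWR : (0 : ℝ) < W.card := by exact_mod_cast hW.card_pos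
  have h1 := hlow c r hr0 hr
  rw [abs_le]
  constructor
  · linarith
  · rcases eq_or_lt_of_le hr with h2 | h2
    · have h3 : (vis p q X (H * X) x c r : ℝ) ≤ W.card := by exact_mod_cast vis_le
      have h4 : 0 ≤ ε * W.card := by positivity
      rw [h2]
      rw [h2] at h3
      linarith
    · refine le_of_forall_pos_le_add fun e he => ?_
      set s : ℝ := max 0 (1 / 2 - r - min (1 / 2 - r) (e / (2 * W.card))) with hs
      have hm0 : 0 < min (1 / 2 - r) (e / (2 * W.card)) := lt_min (by linarith) (by positivity)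
      have hm1 : min (1 / 2 - r) (e / (2 * W.card)) ≤ 1 / 2 - r := min_le_left _ _
      have hs' : s = 1 / 2 - r - min (1 / 2 - r) (e / (2 * W.card)) := max_eq_right (by linarith)
      have h3 := vis_add (p := p) (q := q) (X := X) (Y := H * X) (x := x) (c := c) (r := r)
        (s := s) (by rw [hs']; linarith)
      have h4 := hlow (c + ((1 / 2 : ℝ) : T)) s (le_max_left _ _) (by rw [hs']; linarith)
      have h5 : ((vis p q X (H * X) x c r : ℕ) : ℝ) +
          (vis p q X (H * X) x (c + ((1 / 2 : ℝ) : T)) s : ℕ) ≤ W.card := by exact_mod_cast h3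
      have h6 : min (1 / 2 - r) (e / (2 * W.card)) * W.card ≤ e / 2 := by
        calc min (1 / 2 - r) (e / (2 * W.card)) * W.card ≤ (e / (2 * W.card)) * W.card := by
              gcongr; exact min_le_right _ _
          _ = e / 2 := by field_simp
      rw [hs'] at h4
      have e1 : (2 * (1 / 2 - r - min (1 / 2 - r) (e / (2 * W.card))) - ε) * (W.card : ℝ) =
          W.card - 2 * r * W.card - 2 * (min (1 / 2 - r) (e / (2 * W.card)) * W.card) -
            ε * W.card := by ring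
      rw [hs'] at h5
      rw [e1] at h4
      linarith

/-- **Clusters contain points with equidistributed windows.** -/
theorem cluster_good {p q : ℕ} (hp : 2 ≤ p) (hq : 2 ≤ q) (hpq : Nat.Coprime p q) {ε : ℝ}
    (hε : 0 < ε) {m : ℕ} (hm : 2 / ε ≤ m) {K : ℝ} (hK : 1 ≤ K) :
    ∃ H0 : ℝ, 1 < H0 ∧ ∀ H : ℝ, H0 ≤ H → ∃ X0 : ℝ, 1 < X0 ∧ ∀ X : ℝ, X0 ≤ X →
      ∀ x : Fin m → T, (∀ i j, i ≠ j → 1 / X ≤ ‖x i - x j‖ ∧ ‖x i - x j‖ ≤ K / X) →
        ∃ i, Eqd p q ε H X (x i) := by
  obtain ⟨H0, hH0, h⟩ := cluster hp hq hpq m hK (ε := ε / 2) (by positivity)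
  refine ⟨H0, hH0, fun H hH => ?_⟩
  obtain ⟨δ, hδ, h2⟩ := h H hH
  have hm0 : (0 : ℝ) < m := lt_of_lt_of_le (by positivity) hm
  refine ⟨max 2 (2 / δ), by
    have := le_max_left (2 : ℝ) (2 / δ)
    linarith, fun X hX x hx => ?_⟩
  have hX2 : 2 ≤ X := (le_max_left _ _).trans hX
  have hX0 : 0 < X := by linarith
  have hXδ : 1 / X < δ := by
    have h3 : 2 / δ ≤ X := (le_max_right _ _).trans hX
    rw [div_le_iff₀ hδ] at h3
    rw [div_lt_iff₀ hX0]
    linarith
  obtain ⟨hW, h3⟩ := h2 (1 / X) (by positivity) hXδ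
  obtain ⟨α, hα1, hα2, hα3⟩ := h3 x (fun i j hij => by
    obtain ⟨h4, h5⟩ := hx i j hij
    refine ⟨h4, h5.trans (le_of_eq ?_)⟩
    ring)
  have e1 : 1 / (1 / X) = X := by field_simp
  have e2 : H / (1 / X) = H * X := by field_simp
  rw [e1, e2] at hW hα3
  -- a good index
  obtain ⟨i, hi⟩ : ∃ i, 1 - α i ≤ 1 / m := by
    by_contra hcon
    push Not at hcon
    have h4 : ∑ _i : Fin m, (1 / (m : ℝ)) < ∑ i, (1 - α i) := by
      have hne : (Finset.univ : Finset (Fin m)).Nonempty := by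
        have : 0 < m := by exact_mod_cast hm0
        exact ⟨⟨0, this⟩, Finset.mem_univ _⟩
      exact Finset.sum_lt_sum_of_nonempty hne fun i _ => hcon i
    rw [Finset.sum_const, Finset.card_univ, Fintype.card_fin, nsmul_eq_mul,
      mul_one_div_cancel hm0.ne'] at h4
    linarith
  refine ⟨i, eqd_of_lower hW (fun c r hr0 hr => ?_) hε.le⟩
  have h4 := hα3 i c r hr
  refine le_trans ?_ (h4.trans (le_of_eq ?_))
  · have hm1 : 1 / (m : ℝ) ≤ ε / 2 := by
      rw [div_le_iff₀ hε] at hm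
      rw [div_le_div_iff₀ hm0 (by norm_num)]
      linarith
    have h5 : 2 * r - ε ≤ 2 * r * α i - ε / 2 := by
      have h6 : 2 * r * (1 - α i) ≤ 1 * (1 / m) := by
        refine mul_le_mul (by linarith) hi (by linarith [(hα1 i).2]) (by norm_num)
      nlinarith
    gcongr
  · unfold vis
    congr 2

end Pool.Agent.TH338.DD
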