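import Pool.Agent.TH338.DD.Semi2
import Pool.Agent.TH338.DD.Digits

/-!
Points with few equidistributed windows: numbers with free digits at prescribed places.
-/

set_option autoImplicit false

open MeasureTheory Filter Topology Set
open scoped ENNReal NNReal

namespace Pool.Agent.TH338.DD

open Pool.Agent.W764.HL Pool.Agent.W764.SH
open Pool.Agent.W764.FB (T)

/-- the slabs contain few points -/
lemma cnt_slab {α β x δ : ℝ} (hα : 0 < α) (hβ : 0 < β) (hx : 0 ≤ x) (hδ : 0 ≤ δ) :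
    (cnt α β x δ : ℝ) ≤ ((x + δ) / β + 1) * (δ / α + 2) := by
  classical
  set B : ℕ := ⌈(x + δ) / β⌉₊ with hB
  set S : Finset ((_ : ℕ) × ℕ) := (Finset.range B).sigma fun b =>
    Finset.Ico ⌈(x - b * β) / α⌉₊ (⌈(x - b * β) / α⌉₊ + (⌈δ / α⌉₊ + 1)) with hS
  have h1 : cnt α β x δ ≤ S.card := by
    unfold cnt
    rw [← Set.ncard_coe_finset]
    refine Set.ncard_le_ncard_of_injOn (fun u : ℕ × ℕ => (⟨u.2, u.1⟩ : (_ : ℕ) × ℕ)) ?_ ?_
      (Finset.finite_toSet _)
    · rintro ⟨a, b⟩ ⟨h2, h3⟩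
      simp only at h2 h3
      rw [hS, Finset.mem_coe, Finset.mem_sigma, Finset.mem_range, Finset.mem_Ico]
      have ha0 : (0 : ℝ) ≤ a * α := by positivity
      refine ⟨?_, ?_, ?_⟩
      · show b < B
        rw [hB, Nat.lt_ceil, lt_div_iff₀ hβ]; linarith
      · show _ ≤ a
        rw [Nat.ceil_le, div_le_iff₀ hα]; linarith
      · show a < _
        have h4 : (a : ℝ) < (x - b * β) / α + δ / α := by
          rw [← add_div, lt_div_iff₀ hα]; linarith
        have h5 : (a : ℝ) < (⌈(x - b * β) / α⌉₊ : ℝ) + ⌈δ / α⌉₊ :=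
          h4.trans_le (add_le_add (Nat.le_ceil _) (Nat.le_ceil _))
        have h6 : a < ⌈(x - b * β) / α⌉₊ + ⌈δ / α⌉₊ := by exact_mod_cast h5
        exact h6.trans (by rw [← add_assoc]; exact Nat.lt_succ_self _)
    · rintro ⟨a, b⟩ _ ⟨a', b'⟩ _ h
      simp only [Sigma.mk.injEq, heq_eq_eq] at h
      obtain ⟨rfl, rfl⟩ := h
      rfl
  have h2 : (S.card : ℝ) = B * (⌈δ / α⌉₊ + 1) := by
    rw [hS, Finset.card_sigma]
    simp only [Nat.card_Ico, add_tsub_cancel_left, Finset.sum_const, Finset.card_range,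
      smul_eq_mul]
    push_cast
    ring
  have h3 : (B : ℝ) ≤ (x + δ) / β + 1 := (Nat.ceil_lt_add_one (by positivity)).le
  have h4 : (⌈δ / α⌉₊ : ℝ) + 1 ≤ δ / α + 2 := by
    have := (Nat.ceil_lt_add_one (show 0 ≤ δ / α by positivity)).le
    linarith
  calc (cnt α β x δ : ℝ) ≤ S.card := by exact_mod_cast h1
    _ = B * (⌈δ / α⌉₊ + 1) := h2
    _ ≤ ((x + δ) / β + 1) * (δ / α + 2) := by
      gcongr

/-- the multiples of the point -/
lemma norm_smul_pt {f : ℕ → ℕ} (hf : StrictMono f) {P : ℕ} (hP : 2 ≤ P) (d : ℕ → Fin (P - 1))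
    {U V : ℕ} (hUV : U ≤ V) (hgap : ∀ j, f j < U ∨ V ≤ f j) (m : ℕ) :
    ‖(P ^ U * m) • ((pt f hP d : ℝ) : T)‖ ≤ m * ((P : ℝ) ^ (V - U))⁻¹ := by
  obtain ⟨z, t, h1, h2, h3⟩ := pt_mul hf hP d hUV hgap
  have e1 : (P ^ U * m) • ((pt f hP d : ℝ) : T) = ((m * t : ℝ) : T) := by
    have e2 : (P ^ U * m) • ((pt f hP d : ℝ) : T) = (((P ^ U * m) • pt f hP d : ℝ) : T) := by
      rw [AddCircle.coe_nsmul]
    rw [e2, nsmul_eq_mul]
    have e3 : ((P ^ U * m : ℕ) : ℝ) * pt f hP d = m * t + ((m * z : ℕ) : ℝ) := by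
      push_cast
      rw [mul_comm ((P : ℝ) ^ U) (m : ℝ), mul_assoc, h1]
      ring
    rw [e3, AddCircle.coe_add]
    have e4 : ((((m * z : ℕ) : ℝ)) : T) = 0 := by
      rw [AddCircle.coe_eq_zero_iff]
      exact ⟨(m * z : ℕ), by simp⟩
    rw [e4, add_zero]
  rw [e1]
  have h4 : 0 ≤ (m : ℝ) * t := by positivity
  calc ‖((m * t : ℝ) : T)‖ ≤ |(m : ℝ) * t| := by
        rw [UnitAddCircle.norm_eq]
        have := round_le (m * t) 0
        simpa using this
    _ = m * t := abs_of_nonneg h4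
    _ ≤ m * ((P : ℝ) ^ (V - U))⁻¹ := by gcongr

/-- **Windows that are not equidistributed.** -/
lemma not_eqd {p q : ℕ} (hp : 2 ≤ p) (hq : 2 ≤ q) (hpq : Nat.Coprime p q) {κ : ℕ}
    {f : ℕ → ℕ} (hf : StrictMono f) {P : ℕ} (hP : 2 ≤ P) (hPp : P = p ^ κ)
    (d : ℕ → Fin (P - 1)) {U V : ℕ} (hUV : U ≤ V) (hgap : ∀ j, f j < U ∨ V ≤ f j)
    {e H X : ℝ} (he0 : 0 < e) (he1 : e ≤ 1) (hX : 0 < X) (hH : 0 < H)
    (hH8 : 8 * Real.log p ≤ Real.log H) (hXH : Real.log H + Real.log q ≤ Real.log X)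
    (hXU : U * Real.log P + e * Real.log X ≤ Real.log X) (hXV : H * X ≤ e / 16 * (P : ℝ) ^ V) :
    ¬ Eqd p q (e / 16) H X ((pt f hP d : ℝ) : T) := by
  classical
  obtain ⟨hlp, hlq⟩ := log_pos' hp hq
  have hirr := irr_of_coprime hp hq hpq
  have hPR : (0 : ℝ) < P := by
    have : 0 < P := by omega
    exact_mod_cast this
  rintro ⟨hne, hall⟩
  have h1 := hall 0 (e / 16) (by positivity) (by linarith)
  set W := win p q X (H * X) with hW
  have h2 : (vis p q X (H * X) ((pt f hP d : ℝ) : T) 0 (e / 16) : ℝ) ≤ 3 * e / 16 * W.card := by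
    have := (abs_le.1 h1).2
    linarith
  -- the subset
  set L : ℝ := Real.log X with hL
  set h : ℝ := Real.log H with hh
  have hsub : (win p q (X / (P : ℝ) ^ U) (H * X / (P : ℝ) ^ U)).card ≤
      vis p q X (H * X) ((pt f hP d : ℝ) : T) 0 (e / 16) := by
    unfold vis
    refine Finset.card_le_card_of_injOn (fun m => P ^ U * m) ?_ ?_
    · intro m hm
      rw [Finset.mem_coe, mem_win] at hm
      obtain ⟨⟨a, b, hab⟩, h3, h4⟩ := hm
      have hPU : (0 : ℝ) < (P : ℝ) ^ U := by positivity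
      rw [div_le_iff₀ hPU] at h3
      have h4' := h4
      rw [lt_div_iff₀ hPU] at h4
      rw [Finset.mem_coe, Finset.mem_filter, mem_win]
      refine ⟨⟨⟨κ * U + a, b, ?_⟩, ?_, ?_⟩, ?_⟩
      · rw [hab, hPp, ← pow_mul, pow_add]; ring
      · push_cast; linarith
      · push_cast; linarith
      · rw [sub_zero]
        refine (norm_smul_pt hf hP d hUV hgap m).trans ?_
        have h5 : (P : ℝ) ^ V = (P : ℝ) ^ U * (P : ℝ) ^ (V - U) := by
          rw [← pow_add]; congr 1; omega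
        rw [← div_eq_mul_inv, div_le_iff₀ (by positivity)]
        rw [h5] at hXV
        have h6 : (P : ℝ) ^ U * m ≤ (P : ℝ) ^ U * (e / 16 * (P : ℝ) ^ (V - U)) := by
          nlinarith
        exact le_of_mul_le_mul_left h6 hPU
    · intro m _ m' _ hmm
      exact Nat.eq_of_mul_eq_mul_left (by positivity) hmm
  have hlow : (L - U * Real.log P) / Real.log q * (h / Real.log p - 1) ≤
      ((win p q (X / (P : ℝ) ^ U) (H * X / (P : ℝ) ^ U)).card : ℝ) := by
    rw [card_win hp hq hirr (by positivity) (by positivity)]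
    have e1 : Real.log (X / (P : ℝ) ^ U) = L - U * Real.log P := by
      rw [Real.log_div hX.ne' (by positivity), Real.log_pow]
    have e2 : Real.log (H * X / (P : ℝ) ^ U) - Real.log (X / (P : ℝ) ^ U) = h := by
      rw [Real.log_div (by positivity) (by positivity), Real.log_div hX.ne' (by positivity),
        Real.log_mul hH.ne' hX.ne']
      ring
    rw [e2, e1]
    have hL0 : 0 ≤ L := by linarith
    exact cnt_lower hlp hlq (by nlinarith) (by linarith)
  have hup : (W.card : ℝ) ≤ ((L + h) / Real.log q + 1) * (h / Real.log p + 2) := by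
    rw [hW, card_win hp hq hirr hX (by positivity)]
    have e2 : Real.log (H * X) - Real.log X = h := by
      rw [Real.log_mul hH.ne' hX.ne']
      ring
    rw [e2]
    exact cnt_slab hlp hlq (by linarith) (by linarith)
  have hL0 : 0 < L := by linarith
  have hh0 : 0 < h := by linarith
  set u : ℝ := h / Real.log p with hu
  have hu8 : 8 ≤ u := by
    rw [hu, le_div_iff₀ hlp]; linarith
  set v : ℝ := L / Real.log q with hv
  have hv0 : 0 < v := by positivity
  have h3 : e * v ≤ (L - U * Real.log P) / Real.log q := by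
    rw [hv, ← mul_div_assoc]
    gcongr
    linarith
  have h4 : (L + h) / Real.log q + 1 ≤ 2 * v := by
    have e3 : (L + h) / Real.log q + 1 = (L + h + Real.log q) / Real.log q := by
      field_simp
    rw [e3, hv, ← mul_div_assoc]
    gcongr
    linarith
  have h5 : (W.card : ℝ) ≤ 2 * v * (u + 2) := hup.trans (by gcongr)
  have h6 : e * v * (u - 1) ≤
      ((win p q (X / (P : ℝ) ^ U) (H * X / (P : ℝ) ^ U)).card : ℝ) := by
    refine le_trans ?_ hlow
    have : 0 ≤ u - 1 := by linarith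
    gcongr
  have h7 : ((win p q (X / (P : ℝ) ^ U) (H * X / (P : ℝ) ^ U)).card : ℝ) ≤
      3 * e / 16 * W.card := le_trans (by exact_mod_cast hsub) h2
  have h8 : e * v * (u - 1) ≤ 3 * e / 16 * (2 * v * (u + 2)) := by
    refine h6.trans (h7.trans ?_)
    gcongr
  have h9 : 0 < e * v := by positivity
  nlinarith

end Pool.Agent.TH338.DD
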