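import Pool.Agent.TH338.DD.Sep

/-!
Nets, Hausdorff measure of limsup sets, and the Borel-Cantelli argument.
-/

set_option autoImplicit false

open MeasureTheory Filter Topology Set
open scoped ENNReal NNReal MeasureTheory

namespace Pool.Agent.TH338.DD

open Pool.Agent.W764.HL Pool.Agent.W764.SH
open Pool.Agent.W764.FB (T)

/-- separated sets are finite -/
lemma card_sep {n : ℕ} {F : Finset T}
    (hF : ∀ x ∈ F, ∀ y ∈ F, x ≠ y → (1 / 2 : ℝ) ^ n ≤ ‖x - y‖) : F.card ≤ 2 ^ n := by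
  have h7 := card_cell (Nat.zero_le n) hF 0
  have h8 : F.filter (fun x => cell 0 x = 0) = F := by
    refine Finset.filter_true_of_mem fun x _ => ?_
    have := cell_lt 0 x
    omega
  rwa [h8, Nat.sub_zero] at h7

/-- maximal separated subsets -/
lemma exists_net (A : Set T) (n : ℕ) : ∃ F : Finset T, (∀ x ∈ F, x ∈ A) ∧
    (∀ x ∈ F, ∀ y ∈ F, x ≠ y → (1 / 2 : ℝ) ^ n ≤ ‖x - y‖) ∧
    A ⊆ ⋃ x ∈ F, Metric.closedBall x ((1 / 2 : ℝ) ^ n) := by
  classical
  set P : ℕ → Prop := fun k => ∃ F : Finset T, (∀ x ∈ F, x ∈ A) ∧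
    (∀ x ∈ F, ∀ y ∈ F, x ≠ y → (1 / 2 : ℝ) ^ n ≤ ‖x - y‖) ∧ F.card = k with hP
  have hP0 : P 0 := ⟨∅, by simp, by simp, by simp⟩
  have hPm := Nat.findGreatest_spec (P := P) (Nat.zero_le (2 ^ n)) hP0
  obtain ⟨F, hF1, hF2, hF3⟩ := hPm
  refine ⟨F, hF1, hF2, fun y hy => ?_⟩
  by_contra hcon
  simp only [mem_iUnion, not_exists, Metric.mem_closedBall, not_le, dist_eq_norm] at hcon
  have hyF : y ∉ F := fun h => by
    have := hcon y h
    rw [sub_self, norm_zero] at this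
    have h2 : (0 : ℝ) < (1 / 2) ^ n := by positivity
    linarith
  have hsep : ∀ x ∈ insert y F, ∀ z ∈ insert y F, x ≠ z → (1 / 2 : ℝ) ^ n ≤ ‖x - z‖ := by
    intro x hx z hz hxz
    rw [Finset.mem_insert] at hx hz
    rcases hx with rfl | hx
    · rcases hz with rfl | hz
      · exact absurd rfl hxz
      · exact (hcon z hz).le
    · rcases hz with rfl | hz
      · rw [norm_sub_rev]; exact (hcon x hx).le
      · exact hF2 x hx z hz hxz
  have hcard : (insert y F).card = F.card + 1 := Finset.card_insert_of_notMem hyF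
  have hle := card_sep hsep
  have hPk : P (F.card + 1) := ⟨insert y F, fun x hx => by
    rw [Finset.mem_insert] at hx
    rcases hx with rfl | hx
    · exact hy
    · exact hF1 x hx, hsep, hcard⟩
  have := Nat.le_findGreatest (P := P) (by omega : F.card + 1 ≤ 2 ^ n) hPk
  omega

/-- Hausdorff measure of limsup sets -/
lemma haus_limsup {B : ℕ → Set T} {F : ℕ → Finset T}
    (hcov : ∀ n, B n ⊆ ⋃ x ∈ F n, Metric.closedBall x ((1 / 2 : ℝ) ^ n)) {C t d : ℝ} (hC : 0 ≤ C)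
    (htd : t < d) (hd : 0 < d) (hF : ∀ n, ((F n).card : ℝ) ≤ C * 2 ^ (t * n)) :
    μH[d] {x | ∃ᶠ n in atTop, x ∈ B n} = 0 := by
  classical
  set ρ : ℝ := 2 ^ ((t - d) / 2) with hρ
  have hρ0 : 0 < ρ := by positivity
  have hρ1 : ρ < 1 := Real.rpow_lt_one_of_one_lt_of_neg (by norm_num) (by linarith)
  set U : ℕ → (Σ n : ℕ, {x : T // x ∈ F n}) → Set T := fun N i =>
    if N ≤ i.1 then Metric.closedBall (i.2 : T) ((1 / 2 : ℝ) ^ i.1) else ∅ with hU
  have hdiam : ∀ N (i : Σ n : ℕ, {x : T // x ∈ F n}), N ≤ i.1 →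
      Metric.ediam (U N i) ≤ ENNReal.ofReal (2 * (1 / 2) ^ i.1) := by
    intro N i hi
    simp only [hU, if_pos hi]
    refine Metric.ediam_le_of_forall_dist_le fun x hx y hy => ?_
    rw [Metric.mem_closedBall] at hx hy
    have := dist_triangle_right x y (i.2 : T)
    linarith
  have key : ∀ N : ℕ, ∑' i : (Σ n : ℕ, {x : T // x ∈ F n}), Metric.ediam (U N i) ^ d ≤
      ENNReal.ofReal (C * 2 ^ d * (1 - ρ)⁻¹ * ρ ^ N) := by
    intro N
    rw [ENNReal.tsum_sigma']
    have h1 : ∀ n : ℕ, ∑' x : {x : T // x ∈ F n}, Metric.ediam (U N ⟨n, x⟩) ^ d ≤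
        ENNReal.ofReal (C * 2 ^ d * ρ ^ N * ρ ^ n) := by
      intro n
      by_cases hn : N ≤ n
      · have h2 : ∀ x : {x : T // x ∈ F n}, Metric.ediam (U N ⟨n, x⟩) ^ d ≤
            ENNReal.ofReal ((2 * (1 / 2) ^ n) ^ d) := by
          intro x
          rw [← ENNReal.ofReal_rpow_of_nonneg (by positivity) hd.le]
          exact ENNReal.rpow_le_rpow (hdiam N ⟨n, x⟩ hn) hd.le
        rw [tsum_fintype]
        refine (Finset.sum_le_card_nsmul _ _ _ fun x _ => h2 x).trans ?_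
        rw [Finset.card_univ, Fintype.card_coe, nsmul_eq_mul, ← ENNReal.ofReal_natCast,
          ← ENNReal.ofReal_mul (by positivity)]
        refine ENNReal.ofReal_le_ofReal ?_
        have h3 : ((2 : ℝ) * (1 / 2) ^ n) ^ d = 2 ^ d * 2 ^ (-(d * n)) := by
          rw [Real.mul_rpow (by norm_num) (by positivity), ← Real.rpow_natCast,
            ← Real.rpow_mul (by norm_num), one_div, Real.inv_rpow (by norm_num),
            ← Real.rpow_neg (by norm_num)]
          congr 2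
          ring
        have h4 : ρ ^ n * ρ ^ n = 2 ^ (t * n) * 2 ^ (-(d * n)) := by
          rw [← pow_add, hρ, ← Real.rpow_natCast, ← Real.rpow_mul (by norm_num),
            ← Real.rpow_add (by norm_num)]
          congr 1
          push_cast
          ring
        have h5 : ρ ^ n ≤ ρ ^ N := pow_le_pow_of_le_one hρ0.le hρ1.le hn
        calc ((F n).card : ℝ) * (2 * (1 / 2) ^ n) ^ d
            ≤ C * 2 ^ (t * n) * (2 ^ d * 2 ^ (-(d * n))) := by
              rw [h3]; gcongr; exact hF n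
          _ = C * 2 ^ d * (2 ^ (t * n) * 2 ^ (-(d * n))) := by ring
          _ = C * 2 ^ d * (ρ ^ n * ρ ^ n) := by rw [h4]
          _ ≤ C * 2 ^ d * (ρ ^ N * ρ ^ n) := by gcongr
          _ = C * 2 ^ d * ρ ^ N * ρ ^ n := by ring
      · have h2 : ∀ x : {x : T // x ∈ F n}, Metric.ediam (U N ⟨n, x⟩) ^ d = 0 := by
          intro x
          simp only [hU, if_neg hn, Metric.ediam_empty]
          exact ENNReal.zero_rpow_of_pos hd
        simp only [h2, tsum_zero]
        exact zero_le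
    refine (ENNReal.tsum_le_tsum h1).trans ?_
    rw [← ENNReal.ofReal_tsum_of_nonneg (fun n => by positivity)
      ((summable_geometric_of_lt_one hρ0.le hρ1).mul_left _), tsum_mul_left,
      tsum_geometric_of_lt_one hρ0.le hρ1]
    refine le_of_eq (congrArg _ ?_)
    ring
  have hlim : Tendsto (fun N : ℕ => ENNReal.ofReal (C * 2 ^ d * (1 - ρ)⁻¹ * ρ ^ N)) atTop
      (𝓝 0) := by
    rw [← ENNReal.ofReal_zero]
    refine ENNReal.tendsto_ofReal ?_
    have := (tendsto_pow_atTop_nhds_zero_of_lt_one hρ0.le hρ1).const_mul (C * 2 ^ d * (1 - ρ)⁻¹)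
    rwa [mul_zero] at this
  have hr : Tendsto (fun N : ℕ => ENNReal.ofReal (2 * (1 / 2 : ℝ) ^ N)) atTop (𝓝 0) := by
    rw [← ENNReal.ofReal_zero]
    refine ENNReal.tendsto_ofReal ?_
    have := (tendsto_pow_atTop_nhds_zero_of_lt_one (by norm_num : (0 : ℝ) ≤ 1 / 2)
      (by norm_num)).const_mul 2
    rwa [mul_zero] at this
  have hmain := Measure.hausdorffMeasure_le_liminf_tsum d {x | ∃ᶠ n in atTop, x ∈ B n}
    (l := atTop) (fun N : ℕ => ENNReal.ofReal (2 * (1 / 2 : ℝ) ^ N)) hr U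
    (Eventually.of_forall fun N i => by
      by_cases hi : N ≤ i.1
      · refine (hdiam N i hi).trans (ENNReal.ofReal_le_ofReal ?_)
        have : (1 / 2 : ℝ) ^ i.1 ≤ (1 / 2) ^ N :=
          pow_le_pow_of_le_one (by norm_num) (by norm_num) hi
        linarith
      · simp only [hU, if_neg hi, Metric.ediam_empty]
        exact zero_le)
    (Eventually.of_forall fun N x hx => by
      obtain ⟨n, hn, hxn⟩ := (frequently_atTop.1 hx) N
      obtain ⟨y, hy, hxy⟩ := mem_iUnion₂.1 (hcov n hxn)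
      refine mem_iUnion.2 ⟨⟨n, ⟨y, hy⟩⟩, ?_⟩
      simp only [hU, if_pos hn]
      exact hxy)
  refine le_antisymm (hmain.trans ?_) zero_le
  calc liminf (fun N => ∑' i : (Σ n : ℕ, {x : T // x ∈ F n}), Metric.ediam (U N i) ^ d) atTop
      ≤ liminf (fun N : ℕ => ENNReal.ofReal (C * 2 ^ d * (1 - ρ)⁻¹ * ρ ^ N)) atTop :=
        liminf_le_liminf (Eventually.of_forall key)
    _ = 0 := hlim.liminf_eq

/-- Borel-Cantelli -/
lemma ae_not_mem {ν : Measure T} [IsProbabilityMeasure ν] {B : ℕ → Set T} {F : ℕ → Finset T}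
    (hcov : ∀ n, B n ⊆ ⋃ x ∈ F n, Metric.closedBall x ((1 / 2 : ℝ) ^ n)) {C t s k : ℝ} (hC : 0 ≤ C)
    (hts : t < s) (hk : 0 ≤ k) (hF : ∀ n, ((F n).card : ℝ) ≤ C * 2 ^ (t * n))
    (hν : ∀ n, ∀ x ∈ F n, ν.real (Metric.closedBall x ((1 / 2 : ℝ) ^ n)) ≤
      k * ((1 / 2 : ℝ) ^ n) ^ s) :
    ∀ᵐ x ∂ν, ∀ᶠ n in atTop, x ∉ B n := by
  refine ae_eventually_notMem ?_
  set ρ : ℝ := 2 ^ (t - s) with hρ
  have hρ0 : 0 < ρ := by positivity
  have hρ1 : ρ < 1 := Real.rpow_lt_one_of_one_lt_of_neg (by norm_num) (by linarith)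
  have h1 : ∀ n, ν (B n) ≤ ENNReal.ofReal (C * k * ρ ^ n) := by
    intro n
    have h2 : ν.real (⋃ x ∈ F n, Metric.closedBall x ((1 / 2 : ℝ) ^ n)) ≤ C * k * ρ ^ n := by
      refine (measureReal_biUnion_finset_le _ _).trans ?_
      refine (Finset.sum_le_card_nsmul _ _ _ fun x hx => hν n x hx).trans ?_
      rw [nsmul_eq_mul]
      have h3 : (2 : ℝ) ^ (t * n) * ((1 / 2 : ℝ) ^ n) ^ s = ρ ^ n := by
        rw [hρ, one_div, inv_pow, Real.inv_rpow (by positivity), ← Real.rpow_natCast,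
          ← Real.rpow_natCast, ← Real.rpow_mul (by norm_num), ← Real.rpow_mul (by norm_num),
          ← Real.rpow_neg (by norm_num), ← Real.rpow_add (by norm_num)]
        congr 1
        ring
      calc ((F n).card : ℝ) * (k * ((1 / 2 : ℝ) ^ n) ^ s)
          ≤ C * 2 ^ (t * n) * (k * ((1 / 2 : ℝ) ^ n) ^ s) := by gcongr; exact hF n
        _ = C * k * (2 ^ (t * n) * ((1 / 2 : ℝ) ^ n) ^ s) := by ring
        _ = C * k * ρ ^ n := by rw [h3]
    refine (measure_mono (hcov n)).trans ?_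
    rw [← ofReal_measureReal (measure_ne_top _ _)]
    exact ENNReal.ofReal_le_ofReal h2
  refine ne_top_of_le_ne_top ?_ (ENNReal.tsum_le_tsum h1)
  rw [← ENNReal.ofReal_tsum_of_nonneg (fun n => by positivity)
      ((summable_geometric_of_lt_one hρ0.le hρ1).mul_left _)]
  exact ENNReal.ofReal_ne_top

end Pool.Agent.TH338.DD
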