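import Pool.Agent.TH338.DD.Code

/-!
The number of separated points whose window has few visits outside `G`.
-/

set_option autoImplicit false

open MeasureTheory Filter Topology Set

namespace Pool.Agent.TH338.DD

open Pool.Agent.W764.HL Pool.Agent.W764.SH
open Pool.Agent.W764.FB (T hh hh_zero close_hh norm_hh)

lemma exists_two_pow {n : ℕ} (hn : 1 ≤ n) : ∃ i : ℕ, n ≤ 2 ^ i ∧ 2 ^ i ≤ 2 * n := by
  refine ⟨Nat.log 2 n + 1, (Nat.lt_pow_succ_log_self (by norm_num) n).le, ?_⟩
  have := Nat.pow_log_le_self 2 (show n ≠ 0 by omega)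
  rw [pow_succ]
  omega

/-- the length of the path -/
lemma exists_len {q : ℕ} (hq : 2 ≤ q) {M : ℕ} (hM : 1 ≤ M) (r : ℕ) {Y : ℝ} (hY : 1 ≤ Y) :
    ∃ J : ℕ, Y ≤ (q : ℝ) ^ (r + M * J) ∧ (∀ i < J, (q : ℝ) ^ (r + M * i) ≤ Y) ∧
      (J : ℝ) ≤ Real.log Y / (M * Real.log q) + 1 := by
  classical
  have hqR : (2 : ℝ) ≤ q := by exact_mod_cast hq
  have hlq : 0 < Real.log q := Real.log_pos (by linarith)
  have hMR : (1 : ℝ) ≤ M := by exact_mod_cast hM
  have hex : ∃ J : ℕ, Y ≤ (q : ℝ) ^ (r + M * J) := by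
    obtain ⟨k, hk⟩ := pow_unbounded_of_one_lt Y (show (1 : ℝ) < q by linarith)
    refine ⟨k, hk.le.trans (pow_le_pow_right₀ (by linarith) ?_)⟩
    nlinarith
  refine ⟨Nat.find hex, Nat.find_spec hex, fun i hi => ?_, ?_⟩
  · exact (not_le.1 (Nat.find_min hex hi)).le
  · rcases Nat.eq_zero_or_pos (Nat.find hex) with h0 | h0
    · rw [h0]
      have : 0 ≤ Real.log Y := Real.log_nonneg hY
      push_cast
      positivity
    · have h1 := not_le.1 (Nat.find_min hex (show Nat.find hex - 1 < Nat.find hex by omega))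
      have h2 := Real.log_lt_log (by positivity) h1
      rw [Real.log_pow] at h2
      have h3 : ((r + M * (Nat.find hex - 1) : ℕ) : ℝ) = r + M * ((Nat.find hex : ℝ) - 1) := by
        push_cast [h0]
        ring
      rw [h3] at h2
      have h4 : ((Nat.find hex : ℝ) - 1) * (M * Real.log q) ≤ Real.log Y := by
        have h5 : (0 : ℝ) ≤ r * Real.log q := by positivity
        nlinarith
      have h5 : (Nat.find hex : ℝ) - 1 ≤ Real.log Y / (M * Real.log q) := by
        rw [le_div_iff₀ (by positivity)]; exact h4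
      linarith

/-- **Coding.** -/
theorem coding {p q M : ℕ} (hp : 2 ≤ p) (hq : 2 ≤ q) (hpq : Nat.Coprime p q) (hM : 1 ≤ M)
    {G : Set T} {δ : ℝ} (hδ : 0 < δ) (hG : Apart (q ^ M) G δ) :
    ∃ C : ℝ, 0 < C ∧ ∀ H X τ η : ℝ, 1 ≤ X → 0 ≤ τ → τ ≤ 1 → 0 < η → η ≤ 1 →
      (1 + 3 / η) * Real.log p ≤ Real.log H → 0 < H → ∀ F : Finset T,
      (∀ x ∈ F, ∀ y ∈ F, x ≠ y → 1 / X ≤ ‖x - y‖) →
      (∀ x ∈ F, ({n : ℕ | n ∈ win p q X (H * X) ∧ n • x ∉ G}.ncard : ℝ) ≤
        τ * (win p q X (H * X)).card) →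
      (F.card : ℝ) ≤ C * H ^ 8 * X ^ (τ * (1 + η) + 5 * Real.log 2 / (M * Real.log q)) := by
  classical
  obtain ⟨hlp, hlq⟩ := log_pos' hp hq
  have hirr := irr_of_coprime hp hq hpq
  have hp0 : (0 : ℝ) < p := by
    have : 0 < p := by omega
    exact_mod_cast this
  have hp1 : (1 : ℝ) ≤ p := by exact_mod_cast (by omega : 1 ≤ p)
  have hqR : (2 : ℝ) ≤ q := by exact_mod_cast hq
  have hl2 : 0 < Real.log 2 := Real.log_pos (by norm_num)
  have hl2q : Real.log 2 ≤ Real.log q := Real.log_le_log (by norm_num) hqR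
  have hl2p : Real.log 2 ≤ Real.log p := by
    refine Real.log_le_log (by norm_num) ?_
    exact_mod_cast hp
  have hMR : (1 : ℝ) ≤ M := by exact_mod_cast hM
  obtain ⟨i1, hi1, hi1'⟩ := exists_two_pow (n := 2 * q ^ M) (by
    have := Nat.one_le_pow M q (by omega)
    omega)
  obtain ⟨k0, hk0⟩ := pow_unbounded_of_one_lt ((p : ℝ) / δ) (show (1 : ℝ) < 2 by norm_num)
  set i0 : ℕ := k0 + 1 with hi0
  have hi0a : 2 ≤ 2 ^ i0 := by
    rw [hi0, pow_succ]
    have := Nat.one_le_two_pow (n := k0)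
    omega
  have hi0b : (p : ℝ) ≤ δ * 2 ^ i0 := by
    rw [div_lt_iff₀ hδ] at hk0
    rw [hi0, pow_succ]
    have : (0 : ℝ) < 2 ^ k0 := by positivity
    linarith [mul_pos hδ this]
  set C0 : ℝ := Real.exp (5 * Real.log 2 + 2 * Real.log q) with hC0
  refine ⟨M * 2 * (2 ^ i0 * 2 ^ i1) * C0, by positivity, ?_⟩
  intro H X τ η hX hτ0 hτ1 hη0 hη1 hH hHpos F hF hcount
  set L : ℝ := Real.log X with hL
  set h : ℝ := Real.log H with hh
  have hX0 : 0 < X := by linarith
  have hL0 : 0 ≤ L := Real.log_nonneg hX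
  set u : ℝ := h / Real.log p with hu
  have hu1 : 1 + 3 / η ≤ u := by rw [hu, le_div_iff₀ hlp]; exact hH
  have h3η : 3 ≤ 3 / η := by rw [le_div_iff₀ hη0]; linarith
  have hu4 : 4 ≤ u := by linarith
  have hh0 : 0 < h := by
    have : 0 < u := by linarith
    rw [hu] at this
    exact (div_pos_iff_of_pos_right hlp).1 this
  have hη3 : 3 ≤ η * (u - 1) := by
    have : 3 / η ≤ u - 1 := by linarith
    rw [div_le_iff₀ hη0] at this
    linarith
  set m : ℕ := ⌊u⌋₊ with hm
  have hmu : (m : ℝ) ≤ u := Nat.floor_le (by linarith)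
  have hmu' : u - 1 < m := by
    have := Nat.lt_floor_add_one u
    linarith
  have hm0 : (0 : ℝ) < m := by linarith
  have hm1 : 1 ≤ m := by exact_mod_cast hm0
  have hpm : (p : ℝ) ^ m ≤ H := by
    rw [← Real.log_le_log_iff (by positivity) hHpos, Real.log_pow]
    rw [hu, le_div_iff₀ hlp] at hmu
    exact hmu
  have hH1 : 1 ≤ H := (one_le_pow₀ hp1).trans hpm
  set W := win p q X (H * X) with hW
  -- the paths
  set Y : ℕ → ℝ := fun k => X * (p : ℝ) ^ k with hY
  have hY1 : ∀ k, 1 ≤ Y k := fun k => by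
    have : (1 : ℝ) ≤ (p : ℝ) ^ k := one_le_pow₀ hp1
    exact one_le_mul_of_one_le_of_one_le hX this
  have hYX : ∀ k, X ≤ Y k := fun k => le_mul_of_one_le_right hX0.le (one_le_pow₀ hp1)
  have hlen := fun w : ℕ × ℕ => exists_len hq hM w.2 (hY1 w.1)
  choose J hJ1 hJ2 hJ3 using hlen
  set I : Finset (ℕ × ℕ) := Finset.range m ×ˢ Finset.range M with hI
  have hIcard : I.card = m * M := by rw [hI, Finset.card_product, Finset.card_range, Finset.card_range]
  have hIne : I.Nonempty := Finset.card_pos.1 (by rw [hIcard]; positivity)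
  have hIR : (I.card : ℝ) = m * M := by rw [hIcard]; push_cast; ring
  set N : ℕ × ℕ → T → ℕ := fun w x =>
    ((Finset.range (J w)).filter fun i => pos p q (Y w.1) (w.2 + M * i) • x ∉ G).card with hN
  have hsum : ∀ x : T, ∑ w ∈ I, N w x ≤ {n : ℕ | n ∈ W ∧ n • x ∉ G}.ncard := by
    intro x
    rw [hN]
    simp only
    rw [← Finset.card_sigma, ← Set.ncard_coe_finset]
    refine Set.ncard_le_ncard_of_injOn
      (fun v : (_ : ℕ × ℕ) × ℕ => pos p q (Y v.1.1) (v.1.2 + M * v.2)) ?_ ?_
      ((Finset.finite_toSet W).subset fun n hn => hn.1)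
    · rintro ⟨⟨k, r⟩, i⟩ hv
      rw [Finset.mem_coe, Finset.mem_sigma, hI, Finset.mem_product, Finset.mem_range,
        Finset.mem_range, Finset.mem_filter, Finset.mem_range] at hv
      obtain ⟨⟨hk, -⟩, hi, hv2⟩ := hv
      simp only at hk hi hv2
      refine ⟨?_, hv2⟩
      rw [hW, mem_win]
      refine ⟨⟨_, _, rfl⟩, (hYX k).trans (le_pos hp hq (by linarith [hY1 k]) _), ?_⟩
      refine (pos_lt hp hq (by linarith [hY1 k]) (hJ2 (k, r) i hi)).trans_le ?_
      show (p : ℝ) * (X * (p : ℝ) ^ k) ≤ H * X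
      have h1 : (p : ℝ) * (X * (p : ℝ) ^ k) = (p : ℝ) ^ (k + 1) * X := by ring
      rw [h1]
      have h2 : (p : ℝ) ^ (k + 1) ≤ (p : ℝ) ^ m := pow_le_pow_right₀ hp1 (by omega)
      have h3 := h2.trans hpm
      gcongr
    · rintro ⟨⟨k, r⟩, i⟩ hv ⟨⟨k', r'⟩, i'⟩ hv' hvv
      rw [Finset.mem_coe, Finset.mem_sigma, hI, Finset.mem_product, Finset.mem_range,
        Finset.mem_range, Finset.mem_filter, Finset.mem_range] at hv hv'
      obtain ⟨⟨hk, hr⟩, hi, -⟩ := hv
      obtain ⟨⟨hk', hr'⟩, hi', -⟩ := hv'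
      simp only at hk hi hk' hi' hr hr' hvv
      have h1 := pow_mul_inj hp hq hirr (show
        p ^ (ex p q (Y k) (r + M * i), r + M * i).1 * q ^ (ex p q (Y k) (r + M * i), r + M * i).2 =
        p ^ (ex p q (Y k') (r' + M * i'), r' + M * i').1 *
          q ^ (ex p q (Y k') (r' + M * i'), r' + M * i').2 from hvv)
      rw [Prod.mk.injEq] at h1
      have hb := h1.2
      have hr2 : r = r' := by
        have h2 := congrArg (fun z => z % M) hb
        simpa [Nat.add_mul_mod_self_left, Nat.mod_eq_of_lt hr, Nat.mod_eq_of_lt hr'] using h2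
      subst hr2
      have hi2 : i = i' := by
        have h2 : M * i = M * i' := by omega
        exact Nat.eq_of_mul_eq_mul_left (by omega) h2
      subst hi2
      have hk2 : k = k' := by
        have a1 := le_pos hp hq (Y := Y k) (by linarith [hY1 k]) (r + M * i)
        have a2 := pos_lt hp hq (Y := Y k) (by linarith [hY1 k]) (hJ2 (k, r) i hi)
        have a3 := le_pos hp hq (Y := Y k') (by linarith [hY1 k']) (r + M * i)
        have a4 := pos_lt hp hq (Y := Y k') (by linarith [hY1 k']) (hJ2 (k', r) i hi')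
        rw [hvv] at a1 a2
        have b1 : X * (p : ℝ) ^ k < X * (p : ℝ) ^ (k' + 1) := by
          calc X * (p : ℝ) ^ k ≤ _ := a1
            _ < _ := a4
            _ = X * (p : ℝ) ^ (k' + 1) := by
              show (p : ℝ) * (X * (p : ℝ) ^ k') = _
              ring
        have b2 : X * (p : ℝ) ^ k' < X * (p : ℝ) ^ (k + 1) := by
          calc X * (p : ℝ) ^ k' ≤ _ := a3
            _ < _ := a2
            _ = X * (p : ℝ) ^ (k + 1) := by
              show (p : ℝ) * (X * (p : ℝ) ^ k) = _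
              ring
        have hpgt : (1 : ℝ) < p := by exact_mod_cast (by omega : 1 < p)
        have c1 := (pow_lt_pow_iff_right₀ hpgt).1 (lt_of_mul_lt_mul_left b1 hX0.le)
        have c2 := (pow_lt_pow_iff_right₀ hpgt).1 (lt_of_mul_lt_mul_left b2 hX0.le)
        omega
      subst hk2
      rfl
  set t : ℝ := τ * W.card / (m * M) with ht
  have ht0 : 0 ≤ t := by positivity
  have hex : ∀ x ∈ F, ∃ w ∈ I, (N w x : ℝ) ≤ t := by
    intro x hx
    refine Finset.exists_le_of_sum_le hIne ?_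
    rw [Finset.sum_const, nsmul_eq_mul, hIR, ht, mul_div_cancel₀ _ (by positivity)]
    refine le_trans ?_ (hcount x hx)
    exact_mod_cast hsum x
  have hcover : F.card ≤ ∑ w ∈ I, (F.filter fun x => (N w x : ℝ) ≤ t).card := by
    refine (Finset.card_le_card (t := I.biUnion fun w => F.filter fun x => (N w x : ℝ) ≤ t)
      fun x hx => ?_).trans Finset.card_biUnion_le
    obtain ⟨w, hw, hw2⟩ := hex x hx
    rw [Finset.mem_biUnion]
    exact ⟨w, hw, Finset.mem_filter.2 ⟨hx, hw2⟩⟩
  set a : ℝ := τ * (1 + η) + 5 * Real.log 2 / (M * Real.log q) with ha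
  have ha0 : 0 ≤ a := by positivity
  have ha7 : a ≤ 7 := by
    have h1 : 5 * Real.log 2 / (M * Real.log q) ≤ 5 := by
      rw [div_le_iff₀ (by positivity)]
      have h2 : Real.log 2 ≤ M * Real.log q := hl2q.trans (le_mul_of_one_le_left hlq.le hMR)
      linarith only [h2]
    have h2 : τ * (1 + η) ≤ 1 * (1 + 1) := by gcongr
    linarith
  have hpath : ∀ w ∈ I, ((F.filter fun x => (N w x : ℝ) ≤ t).card : ℝ) ≤
      2 ^ i0 * 2 ^ i1 * (C0 * (H ^ 7 * X ^ a)) := by
    intro w hw
    rw [hI, Finset.mem_product, Finset.mem_range, Finset.mem_range] at hw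
    have h1 := card_path hp hq hpq hG hX0 (hYX w.1) hw.2 hi1 hi0a hi0b (hJ1 w) (hJ2 w)
      (F := F.filter fun x => (N w x : ℝ) ≤ t)
      (fun x hx y hy hxy => hF x (Finset.mem_filter.1 hx).1 y (Finset.mem_filter.1 hy).1 hxy) ht0
      (fun x hx => by
        refine le_trans (le_of_eq ?_) (Finset.mem_filter.1 hx).2
        rw [hN]
        simp only
        rw [← Set.ncard_coe_finset]
        congr 2
        ext i
        simp)
    refine h1.trans ?_
    have hlogY : Real.log (Y w.1) ≤ L + h := by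
      show Real.log (X * (p : ℝ) ^ w.1) ≤ L + h
      rw [Real.log_mul hX0.ne' (by positivity)]
      have h2 : Real.log ((p : ℝ) ^ w.1) ≤ h := by
        refine Real.log_le_log (by positivity) ?_
        exact (pow_le_pow_right₀ hp1 hw.1.le).trans hpm
      linarith
    have hJ : (J w : ℝ) ≤ (L + h) / (M * Real.log q) + 1 := by
      refine (hJ3 w).trans ?_
      gcongr
    -- bound for t
    have hWc : (W.card : ℝ) ≤ ((L + h) / Real.log q + 1) * (u + 2) := by
      rw [hW, card_win hp hq hirr hX0 (by positivity)]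
      have e2 : Real.log (H * X) - Real.log X = h := by
        rw [Real.log_mul hHpos.ne' hX0.ne']
        ring
      rw [e2]
      exact cnt_slab hlp hlq hL0 hh0.le
    have htb : t ≤ τ * (1 + η) * (((L + h) / Real.log q + 1) / M) := by
      rw [ht, div_le_iff₀ (by positivity)]
      have h2 : u + 2 ≤ (1 + η) * m := by
        have h3 : (1 + η) * (u - 1) ≤ (1 + η) * m :=
          mul_le_mul_of_nonneg_left hmu'.le (by linarith only [hη0])
        linarith only [h3, hη3]
      have h3 : 0 ≤ (L + h) / Real.log q + 1 := by positivity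
      calc τ * W.card ≤ τ * (((L + h) / Real.log q + 1) * (u + 2)) := by gcongr
        _ ≤ τ * (((L + h) / Real.log q + 1) * ((1 + η) * m)) := by gcongr
        _ = τ * (1 + η) * (((L + h) / Real.log q + 1) / M) * (m * M) := by
          field_simp
    have hi1R : ((2 ^ i1 : ℕ) : ℝ) ≤ 4 * (q : ℝ) ^ M := by
      have : (2 ^ i1 : ℕ) ≤ 4 * q ^ M := by omega
      exact_mod_cast this
    have hlog1 : Real.log ((2 ^ i1 : ℕ) : ℝ) ≤ 2 * Real.log 2 + M * Real.log q := by
      refine (Real.log_le_log (by positivity) hi1R).trans (le_of_eq ?_)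
      rw [Real.log_mul (by norm_num) (by positivity), Real.log_pow]
      have : Real.log 4 = 2 * Real.log 2 := by
        rw [show (4 : ℝ) = 2 ^ 2 by norm_num, Real.log_pow]; norm_num
      rw [this]
    have hlog0 : 0 ≤ Real.log ((2 ^ i1 : ℕ) : ℝ) := Real.log_natCast_nonneg _
    have hexp : (2 : ℝ) ^ (J w) * ((2 ^ i1 : ℕ) : ℝ) ^ t ≤ C0 * (H ^ 7 * X ^ a) := by
      have e1 : (2 : ℝ) ^ (J w) = Real.exp (J w * Real.log 2) := by
        rw [mul_comm, Real.exp_mul, Real.exp_log (by norm_num), Real.rpow_natCast]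
      have e2 : ((2 ^ i1 : ℕ) : ℝ) ^ t = Real.exp (Real.log ((2 ^ i1 : ℕ) : ℝ) * t) :=
        Real.rpow_def_of_pos (by positivity) t
      have e3 : X ^ a = Real.exp (L * a) := Real.rpow_def_of_pos hX0 a
      have e4 : Real.exp (h * a) ≤ H ^ 7 := by
        have h2 : Real.exp (h * a) ≤ Real.exp (7 * h) := by
          refine Real.exp_le_exp.2 ?_
          have h3 := mul_le_mul_of_nonneg_left ha7 hh0.le
          linarith only [h3]
        refine h2.trans (le_of_eq ?_)
        rw [mul_comm, Real.exp_mul, hh, Real.exp_log hHpos]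
        norm_cast
      have hXa : 0 ≤ X ^ a := by positivity
      calc (2 : ℝ) ^ (J w) * ((2 ^ i1 : ℕ) : ℝ) ^ t
          = Real.exp (J w * Real.log 2 + Real.log ((2 ^ i1 : ℕ) : ℝ) * t) := by
            rw [e1, e2, Real.exp_add]
        _ ≤ Real.exp ((5 * Real.log 2 + 2 * Real.log q) + (h * a + L * a)) := by
            refine Real.exp_le_exp.2 ?_
            have f1 : (J w : ℝ) * Real.log 2 ≤ ((L + h) / (M * Real.log q) + 1) * Real.log 2 := by
              gcongr
            have f2 : Real.log ((2 ^ i1 : ℕ) : ℝ) * t ≤ (2 * Real.log 2 + M * Real.log q) *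
                (τ * (1 + η) * (((L + h) / Real.log q + 1) / M)) := by
              gcongr
            set v : ℝ := (L + h) / (M * Real.log q) with hv
            have hv0 : 0 ≤ v := by positivity
            have f3 : ((L + h) / Real.log q + 1) / M = v + 1 / M := by
              rw [hv]; field_simp
            rw [f3] at f2
            have f4 : L + h = v * (M * Real.log q) := by
              rw [hv]; field_simp
            have f5 : h * a + L * a = (L + h) * (τ * (1 + η)) + 5 * Real.log 2 * v := by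
              rw [ha, hv]; field_simp; ring
            rw [f5, f4]
            have g1 : τ * (1 + η) ≤ 2 := by
              have : τ * (1 + η) ≤ 1 * (1 + 1) := by gcongr
              linarith
            have g0 : 0 ≤ τ * (1 + η) := by positivity
            have g2 : (1 : ℝ) / M ≤ 1 := by
              rw [div_le_one (by linarith)]; exact hMR
            have g3 : (M : ℝ) * (1 / M) = 1 := by field_simp
            have g4 : (2 * Real.log 2 + M * Real.log q) * (τ * (1 + η) * (v + 1 / M)) =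
                (τ * (1 + η)) * (2 * Real.log 2 * v) + (τ * (1 + η)) * (v * (M * Real.log q)) +
                (τ * (1 + η)) * (2 * Real.log 2 * (1 / M)) + (τ * (1 + η)) * Real.log q *
                  (M * (1 / M)) := by ring
            rw [g4, g3] at f2
            have k1 : (τ * (1 + η)) * (2 * Real.log 2 * v) ≤ 2 * (2 * Real.log 2 * v) := by
              gcongr
            have k2 : (τ * (1 + η)) * (2 * Real.log 2 * (1 / M)) ≤ 2 * (2 * Real.log 2 * 1) := by
              gcongr
            have k3 : (τ * (1 + η)) * Real.log q ≤ 2 * Real.log q := by gcongr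
            linarith
        _ = C0 * (Real.exp (h * a) * X ^ a) := by
            rw [Real.exp_add, Real.exp_add (h * a), e3, hC0]
        _ ≤ C0 * (H ^ 7 * X ^ a) := by
            gcongr
    have : (0 : ℝ) ≤ 2 ^ i0 * 2 ^ i1 := by positivity
    gcongr
  have hmH : (m : ℝ) ≤ 2 * H := by
    have h1 : h ≤ H := by
      have := Real.log_le_sub_one_of_pos hHpos
      linarith
    have h2 : (1 : ℝ) / 2 ≤ Real.log p := by
      have := Real.log_two_gt_d9
      linarith
    have h3 : u ≤ 2 * h := by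
      rw [hu, div_le_iff₀ hlp]
      have h4 := mul_le_mul_of_nonneg_left h2 hh0.le
      linarith only [h4]
    linarith only [h1, h3, hmu]
  have hXa : 0 ≤ X ^ a := by positivity
  calc (F.card : ℝ) ≤ ∑ w ∈ I, ((F.filter fun x => (N w x : ℝ) ≤ t).card : ℝ) := by
        exact_mod_cast hcover
    _ ≤ ∑ _w ∈ I, 2 ^ i0 * 2 ^ i1 * (C0 * (H ^ 7 * X ^ a)) := Finset.sum_le_sum hpath
    _ = m * M * (2 ^ i0 * 2 ^ i1 * (C0 * (H ^ 7 * X ^ a))) := by
        rw [Finset.sum_const, nsmul_eq_mul, hIR]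
    _ ≤ (2 * H) * M * (2 ^ i0 * 2 ^ i1 * (C0 * (H ^ 7 * X ^ a))) := by gcongr
    _ = M * 2 * (2 ^ i0 * 2 ^ i1) * C0 * H ^ 8 * X ^ a := by ring

end Pool.Agent.TH338.DD
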