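import Pool.Agent.TH338.DD.Few2
import Pool.Agent.TH338.DD.Exact

/-!
The points whose windows dominate a multiple of Lebesgue measure: dimension of the exceptional set
and measures of positive dimension.
-/

set_option autoImplicit false

open MeasureTheory Filter Topology Set
open scoped ENNReal NNReal MeasureTheory

namespace Pool.Agent.TH338.DD

open Pool.Agent.W764.HL Pool.Agent.W764.SH
open Pool.Agent.W764.FB (T)

/-- the dyadic form -/
def DomD (p q : ℕ) (κ : ℝ) (x : T) : Prop :=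
  ∀ ε : ℝ, 0 < ε → ∃ H0 : ℕ, ∀ H : ℕ, H0 ≤ H → ∀ᶠ i : ℕ in atTop, Dom p q κ ε H (2 ^ i) x

/-- the real form -/
def DomR (p q : ℕ) (κ : ℝ) (x : T) : Prop :=
  ∀ ε : ℝ, 0 < ε → ∃ H0 : ℝ, ∀ H : ℝ, H0 ≤ H → ∃ X0 : ℝ, ∀ X : ℝ, X0 ≤ X → Dom p q κ ε H X x

lemma win_sub {p q : ℕ} {X Y X' Y' : ℝ} (hX : X' ≤ X) (hY : Y ≤ Y') :
    win p q X Y ⊆ win p q X' Y' := by
  intro n hn
  rw [mem_win] at hn ⊢
  exact ⟨hn.1, hX.trans hn.2.1, hn.2.2.trans_le hY⟩

lemma vis_sub {p q : ℕ} {X Y X' Y' : ℝ} (hX : X' ≤ X) (hY : Y ≤ Y') (x c : T) (r : ℝ) :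
    vis p q X Y x c r ≤ vis p q X' Y' x c r := by
  classical
  unfold vis
  refine Finset.card_le_card fun k hk => ?_
  rw [Finset.mem_filter] at hk ⊢
  exact ⟨win_sub hX hY hk.1, hk.2⟩

/-- comparison of windows -/
lemma card_compare {p q : ℕ} (hp : 2 ≤ p) (hq : 2 ≤ q) (hpq : Nat.Coprime p q) {ε : ℝ}
    (hε : 0 < ε) (hε1 : ε ≤ 1) :
    ∃ h0 : ℝ, ∀ H : ℝ, 0 < H → h0 ≤ Real.log H → ∃ L0 : ℝ, ∀ X : ℝ, 0 < X → L0 ≤ Real.log X →
      ∀ K Z : ℝ, H / 4 ≤ K → X ≤ Z →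
        (1 - ε / 2) * (win p q X (H * X)).card ≤ (win p q Z (K * Z)).card := by
  obtain ⟨hlp, hlq⟩ := log_pos' hp hq
  have hirr := irr_of_coprime hp hq hpq
  have hl4 : 0 < Real.log 4 := Real.log_pos (by norm_num)
  refine ⟨max (4 * (Real.log 4 + 3 * Real.log p) / ε) (Real.log 4 + 2 * Real.log p), ?_⟩
  intro H hH hh
  set h : ℝ := Real.log H with hhdef
  have hh1 : 4 * (Real.log 4 + 3 * Real.log p) / ε ≤ h := (le_max_left _ _).trans hh
  have hh2 : Real.log 4 + 2 * Real.log p ≤ h := (le_max_right _ _).trans hh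
  have hh0 : 0 < h := by linarith
  refine ⟨4 * (h + Real.log q) / ε, ?_⟩
  intro X hX hL K Z hK hZ
  set L : ℝ := Real.log X with hLdef
  have hL0 : 0 < L := lt_of_lt_of_le (by positivity) hL
  have hK0 : 0 < K := lt_of_lt_of_le (by positivity) hK
  have hZ0 : 0 < Z := hX.trans_le hZ
  have hlK : h - Real.log 4 ≤ Real.log K := by
    rw [hhdef, ← Real.log_div hH.ne' (by norm_num)]
    exact Real.log_le_log (by positivity) hK
  have hlZ : L ≤ Real.log Z := Real.log_le_log hX hZ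
  have hup : ((win p q X (H * X)).card : ℝ) ≤ ((L + h) / Real.log q + 1) * (h / Real.log p + 2) := by
    rw [card_win hp hq hirr hX (by positivity)]
    have e2 : Real.log (H * X) - Real.log X = h := by
      rw [Real.log_mul hH.ne' hX.ne']
      ring
    rw [e2]
    exact cnt_slab hlp hlq hL0.le hh0.le
  have hlow : L / Real.log q * ((h - Real.log 4) / Real.log p - 1) ≤
      ((win p q Z (K * Z)).card : ℝ) := by
    rw [card_win hp hq hirr hZ0 (by positivity)]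
    have e2 : Real.log (K * Z) - Real.log Z = Real.log K := by
      rw [Real.log_mul hK0.ne' hZ0.ne']
      ring
    rw [e2]
    refine le_trans ?_ (cnt_lower hlp hlq (hL0.le.trans hlZ) (by linarith))
    have h1 : 0 ≤ (h - Real.log 4) / Real.log p - 1 := by
      rw [sub_nonneg, le_div_iff₀ hlp]; linarith
    have h2 : 0 ≤ Real.log Z / Real.log q := div_nonneg (hL0.le.trans hlZ) hlq.le
    gcongr
  refine le_trans ?_ hlow
  rw [div_le_iff₀ hε] at hh1 hL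
  have e1 : ((L + h) / Real.log q + 1) * (h / Real.log p + 2) =
      (L + h + Real.log q) * (h + 2 * Real.log p) / (Real.log q * Real.log p) := by field_simp
  have e2 : L / Real.log q * ((h - Real.log 4) / Real.log p - 1) =
      L * (h - Real.log 4 - Real.log p) / (Real.log q * Real.log p) := by field_simp
  have k1 : (1 - ε / 4) * (L + h + Real.log q) ≤ L := by nlinarith
  have k2 : (1 - ε / 4) * (h + 2 * Real.log p) ≤ h - Real.log 4 - Real.log p := by nlinarith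
  have hε4 : 0 ≤ 1 - ε / 4 := by linarith
  calc (1 - ε / 2) * (win p q X (H * X)).card
      ≤ (1 - ε / 2) * (((L + h) / Real.log q + 1) * (h / Real.log p + 2)) := by
        gcongr
        linarith
    _ = (1 - ε / 2) * ((L + h + Real.log q) * (h + 2 * Real.log p)) /
        (Real.log q * Real.log p) := by rw [e1]; ring
    _ ≤ ((1 - ε / 4) * (L + h + Real.log q)) * ((1 - ε / 4) * (h + 2 * Real.log p)) /
        (Real.log q * Real.log p) := by
        refine div_le_div_of_nonneg_right ?_ (by positivity)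
        have h3 : 0 ≤ (L + h + Real.log q) * (h + 2 * Real.log p) := by positivity
        have h4 : (1 - ε / 2) ≤ (1 - ε / 4) * (1 - ε / 4) := by nlinarith [sq_nonneg (ε / 4)]
        have h5 := mul_le_mul_of_nonneg_right h4 h3
        linarith
    _ ≤ L * (h - Real.log 4 - Real.log p) / (Real.log q * Real.log p) := by
        gcongr
    _ = _ := e2.symm

/-- from the dyadic form to the real form -/
lemma domR_of_domD {p q : ℕ} (hp : 2 ≤ p) (hq : 2 ≤ q) (hpq : Nat.Coprime p q) {κ : ℝ}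
    (hκ1 : κ ≤ 1) {x : T} (hx : DomD p q κ x) : DomR p q κ x := by
  classical
  -- it is enough to treat small `ε`
  have main : ∀ ε : ℝ, 0 < ε → ε ≤ 1 → ∃ H0 : ℝ, ∀ H : ℝ, H0 ≤ H → ∃ X0 : ℝ, ∀ X : ℝ, X0 ≤ X →
      Dom p q κ ε H X x := by
    intro ε hε hε1
    obtain ⟨h0, hh0⟩ := card_compare hp hq hpq hε hε1
    obtain ⟨N0, hN0⟩ := hx (ε / 2) (by positivity)
    refine ⟨max (Real.exp h0) (max (2 * N0 + 2) 4), fun H hH => ?_⟩
    have hH1 : Real.exp h0 ≤ H := (le_max_left _ _).trans hH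
    have hH2 : 2 * (N0 : ℝ) + 2 ≤ H := ((le_max_left _ _).trans (le_max_right _ _)).trans hH
    have hH3 : 4 ≤ H := ((le_max_right _ _).trans (le_max_right _ _)).trans hH
    have hHp : 0 < H := by linarith
    obtain ⟨L0, hL0⟩ := hh0 H hHp ((Real.le_log_iff_exp_le hHp).2 hH1)
    set K : ℕ := ⌊H / 2⌋₊ with hK
    have hK1 : (K : ℝ) ≤ H / 2 := Nat.floor_le (by positivity)
    have hK2 : H / 2 < K + 1 := Nat.lt_floor_add_one _
    have hKN : N0 ≤ K := by
      have : (N0 : ℝ) < K + 1 := by linarith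
      have h2 : N0 < K + 1 := by exact_mod_cast this
      omega
    have hK4 : H / 4 ≤ K := by linarith
    have hev := hN0 K hKN
    rw [eventually_atTop] at hev
    obtain ⟨i0, hi0⟩ := hev
    refine ⟨max (Real.exp L0) (max (2 ^ i0) 1), fun X hX => ?_⟩
    have hX1 : Real.exp L0 ≤ X := (le_max_left _ _).trans hX
    have hX2 : (2 : ℝ) ^ i0 ≤ X := ((le_max_left _ _).trans (le_max_right _ _)).trans hX
    have hX3 : 1 ≤ X := ((le_max_right _ _).trans (le_max_right _ _)).trans hX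
    have hXp : 0 < X := by linarith
    obtain ⟨i, hi1, hi2⟩ : ∃ i : ℕ, X ≤ 2 ^ i ∧ (2 : ℝ) ^ i ≤ 2 * X := by
      obtain ⟨n, hn1, hn2⟩ := exists_nat_pow_near hX3 (show (1 : ℝ) < 2 by norm_num)
      refine ⟨n + 1, hn2.le, ?_⟩
      rw [pow_succ]
      linarith
    have hii : i0 ≤ i := by
      have h1 : (2 : ℝ) ^ i0 ≤ 2 ^ i := hX2.trans hi1
      exact (pow_le_pow_iff_right₀ (by norm_num)).1 h1
    have hcmp := hL0 X hXp ((Real.le_log_iff_exp_le hXp).2 hX1) K (2 ^ i) hK4 hi1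
    have hd := hi0 i hii
    intro c r hr0 hr
    rcases le_or_gt (2 * r * κ - ε) 0 with hneg | hpos
    · exact (mul_nonpos_of_nonpos_of_nonneg hneg (Nat.cast_nonneg _)).trans (Nat.cast_nonneg _)
    have h1 := hd c r hr0 hr
    have h2 : vis p q (2 ^ i) (K * 2 ^ i) x c r ≤ vis p q X (H * X) x c r := by
      refine vis_sub hi1 ?_ x c r
      calc (K : ℝ) * 2 ^ i ≤ H / 2 * (2 * X) := by gcongr
        _ = H * X := by ring
    have hrk : 2 * r * κ ≤ 1 := by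
      have : 2 * r * κ ≤ 2 * r * 1 := by gcongr
      linarith
    have h3 : (2 * r * κ - ε) * (win p q X (H * X)).card ≤
        (2 * r * κ - ε / 2) * ((1 - ε / 2) * (win p q X (H * X)).card) := by
      rw [← mul_assoc]
      gcongr
      nlinarith
    calc (2 * r * κ - ε) * (win p q X (H * X)).card
        ≤ (2 * r * κ - ε / 2) * ((1 - ε / 2) * (win p q X (H * X)).card) := h3
      _ ≤ (2 * r * κ - ε / 2) * (win p q (2 ^ i) (K * 2 ^ i)).card := by
        gcongr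
        linarith
      _ ≤ vis p q (2 ^ i) (K * 2 ^ i) x c r := h1
      _ ≤ vis p q X (H * X) x c r := by exact_mod_cast h2
  intro ε hε
  obtain ⟨H0, h⟩ := main (min ε 1) (by positivity) (min_le_right _ _)
  refine ⟨H0, fun H hH => ?_⟩
  obtain ⟨X0, h2⟩ := h H hH
  refine ⟨X0, fun X hX c r hr0 hr => le_trans ?_ (h2 X hX c r hr0 hr)⟩
  have := min_le_left ε 1
  gcongr

lemma Dom.mono {p q : ℕ} {κ ε ε' H X : ℝ} {x : T} (h : Dom p q κ ε H X x) (hε : ε ≤ ε') :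
    Dom p q κ ε' H X x := fun c r hr0 hr => by
  refine le_trans ?_ (h c r hr0 hr)
  gcongr

lemma domD_of {p q : ℕ} {κ : ℝ} {x : T} (h : ∀ k : ℕ, ∃ H0 : ℕ, ∀ H : ℕ, H0 ≤ H →
    ∀ᶠ i : ℕ in atTop, Dom p q κ (1 / ((k : ℝ) + 1)) H (2 ^ i) x) : DomD p q κ x := by
  intro ε hε
  obtain ⟨k, hk⟩ := exists_nat_one_div_lt hε
  obtain ⟨H0, h1⟩ := h k
  refine ⟨H0, fun H hH => ?_⟩
  filter_upwards [h1 H hH] with i hi
  exact hi.mono hk.le

/-- the form of `few` at the scales `2 ^ i`, for all `i` -/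
lemma few_two {p q : ℕ} (hp : 2 ≤ p) (hq : 2 ≤ q) (hpq : Nat.Coprime p q) {κ ε σ : ℝ}
    (hκ0 : 0 ≤ κ) (hκ1 : κ ≤ 1) (hε : 0 < ε) (hσ : 0 < σ) :
    ∃ H0 : ℝ, ∀ H : ℝ, H0 ≤ H → ∃ C : ℝ, 0 ≤ C ∧ ∀ i : ℕ, ∀ F : Finset T,
      (∀ x ∈ F, ∀ y ∈ F, x ≠ y → (1 / 2 : ℝ) ^ i ≤ ‖x - y‖) →
      (∀ x ∈ F, ¬ Dom p q κ ε H (2 ^ i) x) → (F.card : ℝ) ≤ C * 2 ^ ((κ + σ) * i) := by
  obtain ⟨H0, -, h⟩ := few hp hq hpq hκ0 hκ1 hε hσ
  refine ⟨H0, fun H hH => ?_⟩
  obtain ⟨X0, h2⟩ := h H hH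
  obtain ⟨i0, hi0⟩ := pow_unbounded_of_one_lt X0 (show (1 : ℝ) < 2 by norm_num)
  refine ⟨2 ^ i0, by positivity, fun i F hF hbad => ?_⟩
  have h1 : (1 : ℝ) ≤ 2 ^ ((κ + σ) * i) := Real.one_le_rpow (by norm_num) (by positivity)
  rcases le_or_gt i0 i with hi | hi
  · have h3 : X0 ≤ 2 ^ i := hi0.le.trans (pow_le_pow_right₀ (by norm_num) hi)
    have h4 := h2 (2 ^ i) h3 F (fun x hx y hy hxy => by
      have := hF x hx y hy hxy
      rwa [one_div, inv_pow, ← one_div] at this) hbad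
    rw [← Real.rpow_natCast, ← Real.rpow_mul (by norm_num), mul_comm (i : ℝ)] at h4
    refine h4.trans ?_
    have h5 : (1 : ℝ) ≤ 2 ^ i0 := one_le_pow₀ (by norm_num)
    nlinarith
  · have h3 : (F.card : ℝ) ≤ 2 ^ i := by exact_mod_cast card_sep hF
    have h4 : (2 : ℝ) ^ i ≤ 2 ^ i0 := pow_le_pow_right₀ (by norm_num) hi.le
    have h5 : (0 : ℝ) < 2 ^ i0 := by positivity
    nlinarith

/-- **Dimension, upper bound.** -/
theorem domD_dim {p q : ℕ} (hp : 2 ≤ p) (hq : 2 ≤ q) (hpq : Nat.Coprime p q) (κ : ℝ≥0)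
    (hκ : κ ≤ 1) : dimH {x : T | ¬ DomD p q κ x} ≤ κ := by
  refine ENNReal.le_of_forall_pos_le_add fun e he _ => ?_
  set d : ℝ≥0 := κ + e with hd
  have hdR : (d : ℝ) = κ + e := by rw [hd]; push_cast; rfl
  have heR : (0 : ℝ) < e := by exact_mod_cast he
  have hκ0 : (0 : ℝ) ≤ κ := κ.2
  have hκ1 : (κ : ℝ) ≤ 1 := by exact_mod_cast hκ
  have hsep := fun k : ℕ => few_two hp hq hpq hκ0 hκ1 (ε := 1 / ((k : ℝ) + 1)) (by positivity)
    (σ := (e : ℝ) / 2) (by positivity)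
  choose H0 hC using hsep
  set Z : ℕ → ℕ → Set T := fun k H => {x | ∃ᶠ i : ℕ in atTop,
    x ∈ {x : T | ¬ Dom p q κ (1 / ((k : ℝ) + 1)) H (2 ^ i) x}} with hZ
  have hZ0 : ∀ k H : ℕ, H0 k ≤ H → μH[(d : ℝ)] (Z k H) = 0 := by
    intro k H hH
    obtain ⟨C, hC0, h1⟩ := hC k H hH
    have hnet := fun n : ℕ => exists_net {x : T | ¬ Dom p q κ (1 / ((k : ℝ) + 1)) H (2 ^ n) x} n
    choose F hF1 hF2 hF3 using hnet
    exact haus_limsup hF3 hC0 (t := κ + e / 2) (d := d) (by rw [hdR]; linarith)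
      (by rw [hdR]; linarith) fun n => h1 n (F n) (hF2 n) fun x hx => hF1 n x hx
  have hsub : {x : T | ¬ DomD p q κ x} ⊆ ⋃ k : ℕ, ⋃ H : ℕ, ⋃ _ : H0 k ≤ H, Z k H := by
    intro x hx
    by_contra hcon
    apply hx
    refine domD_of fun k => ?_
    obtain ⟨H1, hH1⟩ := exists_nat_ge (H0 k)
    refine ⟨H1, fun H hH => ?_⟩
    by_contra hev
    apply hcon
    have hHk : H0 k ≤ H := hH1.trans (by exact_mod_cast hH)
    refine mem_iUnion.2 ⟨k, mem_iUnion.2 ⟨H, mem_iUnion.2 ⟨hHk, ?_⟩⟩⟩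
    rw [not_eventually] at hev
    exact hev
  have hnull : μH[(d : ℝ)] {x : T | ¬ DomD p q κ x} = 0 := by
    refine measure_mono_null hsub ?_
    rw [measure_iUnion_null_iff]
    intro k
    rw [measure_iUnion_null_iff]
    intro H
    rw [measure_iUnion_null_iff]
    intro hH
    exact hZ0 k H hH
  have h1 := dimH_le_of_hausdorffMeasure_ne_top (d := d) (by rw [hnull]; exact ENNReal.zero_ne_top)
  refine h1.trans (le_of_eq ?_)
  rw [hd]
  push_cast
  rfl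

/-- **Measures of positive dimension.** -/
theorem ae_dom {p q : ℕ} (hp : 2 ≤ p) (hq : 2 ≤ q) (hpq : Nat.Coprime p q) {ν : Measure T}
    [IsProbabilityMeasure ν] {s : ℝ} (hs1 : s ≤ 1)
    (hν : ∀ s' < s, ∀ᵐ x ∂ν, ∃ C : ℝ, ∀ r : ℝ, 0 < r → ν.real (Metric.closedBall x r) ≤ C * r ^ s') :
    ∀ᵐ x ∂ν, DomD p q s x := by
  have main : ∀ κ < s, ∀ᵐ x ∂ν, DomD p q κ x := by
    intro κ hκs
    rcases lt_or_ge κ 0 with hκ0 | hκ0
    · refine Eventually.of_forall fun x ε hε => ⟨0, fun H _ => Eventually.of_forall fun i => ?_⟩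
      intro c r hr0 hr
      have h1 : 2 * r * κ - ε ≤ 0 := by
        have : 2 * r * κ ≤ 0 := mul_nonpos_of_nonneg_of_nonpos (by positivity) hκ0.le
        linarith
      exact (mul_nonpos_of_nonpos_of_nonneg h1 (Nat.cast_nonneg _)).trans (Nat.cast_nonneg _)
    set σ : ℝ := (s - κ) / 3 with hσ
    have hσ0 : 0 < σ := by rw [hσ]; linarith
    set s' : ℝ := κ + 2 * σ with hs'
    have hs's : s' < s := by
      have : s = κ + 3 * σ := by rw [hσ]; ring
      linarith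
    have hκ1 : κ ≤ 1 := by linarith
    have hsep := fun k : ℕ => few_two hp hq hpq hκ0 hκ1 (ε := 1 / ((k : ℝ) + 1)) (by positivity) hσ0
    choose H0 hC using hsep
    have h1 : ∀ k H l : ℕ, H0 k ≤ H → ∀ᵐ x ∂ν, ∀ᶠ n : ℕ in atTop,
        x ∉ {x : T | (∀ r : ℝ, 0 < r → ν.real (Metric.closedBall x r) ≤ l * r ^ s') ∧
          ¬ Dom p q κ (1 / ((k : ℝ) + 1)) H (2 ^ n) x} := by
      intro k H l hH
      obtain ⟨C, hC0, h2⟩ := hC k H hH
      have hnet := fun n : ℕ => exists_net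
        {x : T | (∀ r : ℝ, 0 < r → ν.real (Metric.closedBall x r) ≤ l * r ^ s') ∧
          ¬ Dom p q κ (1 / ((k : ℝ) + 1)) H (2 ^ n) x} n
      choose F hF1 hF2 hF3 using hnet
      exact ae_not_mem hF3 hC0 (t := κ + σ) (s := s') (k := l) (by rw [hs']; linarith)
        (Nat.cast_nonneg l) (fun n => h2 n (F n) (hF2 n) fun x hx => (hF1 n x hx).2)
        fun n x hx => (hF1 n x hx).1 _ (by positivity)
    have h2 : ∀ᵐ x ∂ν, ∀ k H l : ℕ, H0 k ≤ H → ∀ᶠ n : ℕ in atTop,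
        x ∉ {x : T | (∀ r : ℝ, 0 < r → ν.real (Metric.closedBall x r) ≤ l * r ^ s') ∧
          ¬ Dom p q κ (1 / ((k : ℝ) + 1)) H (2 ^ n) x} := by
      rw [ae_all_iff]; intro k
      rw [ae_all_iff]; intro H
      rw [ae_all_iff]; intro l
      by_cases hH : H0 k ≤ H
      · filter_upwards [h1 k H l hH] with x hx _ using hx
      · exact Eventually.of_forall fun x h => absurd h hH
    filter_upwards [h2, hν s' hs's] with x hx hx2
    obtain ⟨C, hCx⟩ := hx2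
    obtain ⟨l, hl⟩ := exists_nat_ge C
    refine domD_of fun k => ?_
    obtain ⟨H1, hH1⟩ := exists_nat_ge (H0 k)
    refine ⟨H1, fun H hH => ?_⟩
    have hHk : H0 k ≤ H := hH1.trans (by exact_mod_cast hH)
    filter_upwards [hx k H l hHk] with n hn
    by_contra hlt
    refine hn ⟨fun r hr => (hCx r hr).trans ?_, hlt⟩
    have : 0 ≤ r ^ s' := Real.rpow_nonneg hr.le _
    gcongr
  have h1 : ∀ᵐ x ∂ν, ∀ j : ℕ, DomD p q (s - 1 / ((j : ℝ) + 1)) x := by
    rw [ae_all_iff]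
    intro j
    refine main _ ?_
    have : 0 < 1 / ((j : ℝ) + 1) := by positivity
    linarith
  filter_upwards [h1] with x hx ε hε
  obtain ⟨j, hj⟩ := exists_nat_one_div_lt (show 0 < ε / 2 by positivity)
  obtain ⟨H0, h2⟩ := hx j (ε / 2) (by positivity)
  refine ⟨H0, fun H hH => ?_⟩
  filter_upwards [h2 H hH] with i hi c r hr0 hr
  refine le_trans ?_ (hi c r hr0 hr)
  have h3 : 2 * r * (1 / ((j : ℝ) + 1)) ≤ 1 * (1 / ((j : ℝ) + 1)) := by
    gcongr
    linarith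
  have h4 : 2 * r * s - ε ≤ 2 * r * (s - 1 / ((j : ℝ) + 1)) - ε / 2 := by
    rw [mul_sub]
    linarith
  gcongr

end Pool.Agent.TH338.DD
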