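import Pool.Agent.TH338.DD.Loc
import Pool.Agent.TH338.DD.WinDim

/-!
The averages over the whole semigroup: separated points that do not dominate are few.
-/

set_option autoImplicit false

open MeasureTheory Filter Topology Set

namespace Pool.Agent.TH338.DD

open Pool.Agent.W764.HL Pool.Agent.W764.SH
open Pool.Agent.W764.FB (T)

/-- the averages over the semigroup up to `N` dominate `κ` times Lebesgue measure up to `ε` -/
def SDom (p q : ℕ) (κ ε N : ℝ) (x : T) : Prop :=
  ∀ c : T, ∀ r : ℝ, 0 ≤ r → r ≤ 1 / 2 →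
    (2 * r * κ - ε) * (win p q 1 N).card ≤ (vis p q 1 N x c r : ℝ)

/-- the sum of truncated linear terms -/
lemma trunc_sum {U : ℝ} (hU : 0 ≤ U) (b : ℕ) :
    ∑ t ∈ Finset.range b, max 0 (U - (t + 1)) ≤ U ^ 2 / 2 - (max 0 (U - b)) ^ 2 / 2 := by
  induction b with
  | zero =>
    simp only [Finset.range_zero, Finset.sum_empty, Nat.cast_zero, sub_zero]
    rw [max_eq_right hU]
    linarith
  | succ b ih =>
    rw [Finset.sum_range_succ]
    push_cast
    rcases le_or_gt 0 (U - (b + 1)) with h | h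
    · have h1 : max 0 (U - ((b : ℝ) + 1)) = U - (b + 1) := max_eq_right h
      have h2 : max 0 (U - (b : ℝ)) = U - b := max_eq_right (by linarith)
      rw [h2] at ih
      rw [h1]
      nlinarith
    · have h1 : max 0 (U - ((b : ℝ) + 1)) = 0 := max_eq_left h.le
      rw [h1]
      have h2 : 0 ≤ (max 0 (U - (b : ℝ))) ^ 2 := sq_nonneg _
      nlinarith

open Classical in
/-- the profile -/
lemma profile {U : ℝ} (hU : 0 ≤ U) (n : ℕ) (good : ℕ → Prop) (ρ : ℕ → ℝ)
    (h1 : ∀ i < n, good i → ρ i ≤ 0)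
    (h2 : ∀ i < n, ¬ good i →
      ρ i ≤ max 0 (U - ((Finset.Ico i n).filter fun l => ¬ good l).card)) :
    ∑ i ∈ Finset.range n, ρ i ≤ U ^ 2 / 2 := by
  set B : ℕ → ℕ := fun i => ((Finset.Ico i n).filter fun l => ¬ good l).card with hB
  have key : ∀ d j, j + d = n → ∑ i ∈ Finset.Ico j n, ρ i ≤
      ∑ t ∈ Finset.range (B j), max 0 (U - (t + 1)) := by
    intro d
    induction d with
    | zero =>
      intro j hj
      have : j = n := by omega
      subst this
      simp [hB]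
    | succ d ih =>
      intro j hj
      have hjn : j < n := by omega
      have ih' := ih (j + 1) (by omega)
      rw [Finset.sum_eq_sum_Ico_succ_bot hjn]
      have hins : Finset.Ico j n = insert j (Finset.Ico (j + 1) n) := by
        ext l
        simp only [Finset.mem_insert, Finset.mem_Ico]
        omega
      by_cases hg : good j
      · have hBj : B j = B (j + 1) := by
          simp only [hB]
          rw [hins, Finset.filter_insert, if_neg (not_not.2 hg)]
        rw [hBj]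
        have := h1 j hjn hg
        linarith
      · have hBj : B j = B (j + 1) + 1 := by
          simp only [hB]
          rw [hins, Finset.filter_insert, if_pos hg, Finset.card_insert_of_notMem]
          intro hmem
          have := (Finset.mem_Ico.1 (Finset.mem_filter.1 hmem).1).1
          omega
        have h3 := h2 j hjn hg
        have h4 : (((Finset.Ico j n).filter fun l => ¬ good l).card : ℝ) = (B (j + 1) : ℝ) + 1 := by
          have : ((Finset.Ico j n).filter fun l => ¬ good l).card = B (j + 1) + 1 := hBj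
          rw [this]
          push_cast
          ring
        rw [h4] at h3
        rw [hBj, Finset.sum_range_succ]
        linarith
  have h3 := key n 0 (by omega)
  rw [Finset.range_eq_Ico]
  refine h3.trans ((trunc_sum hU _).trans ?_)
  have := sq_nonneg (max 0 (U - (B 0 : ℝ)))
  linarith

/-- from the windows to the averages -/
lemma avg_lower {p q : ℕ} (hp : 2 ≤ p) (hq : 2 ≤ q) (hpq : Nat.Coprime p q) {u : ℝ} (hu0 : 0 ≤ u)
    (hu1 : u ≤ 1) {ε ε1 : ℝ} (hε : 0 < ε) (hε1 : 0 < ε1) (hε1' : ε1 ≤ ε / 4) {h : ℕ}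
    (hh : 4 * Real.log p ≤ ε * (h * Real.log 2)) (hh2 : Real.log p ≤ h * Real.log 2) :
    ∀ᶠ n : ℕ in atTop, ∀ (x : T) (a : ℕ → ℝ), (∀ i < n, 0 ≤ a i ∧ a i ≤ 1) →
      (∀ i < n, Dom p q (a i) ε1 (2 ^ h) (2 ^ i) x) →
      ∑ i ∈ Finset.range n, (i : ℝ) * (1 - a i) ≤ (u * n) ^ 2 / 2 →
      SDom p q (1 - u ^ 2) ε (2 ^ n) x := by
  classical
  obtain ⟨hlp, hlq⟩ := log_pos' hp hq
  have hl2 : 0 < Real.log 2 := Real.log_pos (by norm_num)
  set α : ℝ := Real.log p with hα
  set β : ℝ := Real.log q with hβ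
  set l : ℝ := Real.log 2 with hl
  have hh0 : (0 : ℝ) < h := by
    have : 0 < (h : ℝ) * l := lt_of_lt_of_le hlp hh2
    exact (pos_iff_pos_of_mul_pos this).2 hl2
  filter_upwards [quad (a := ε / 4) (b := (2 * α + β) / l + (2 * h + 1))
    (c := (2 * α + β) * β / l ^ 2) (by positivity), eventually_ge_atTop h]
    with n hn hnh x a ha hdom hsum c r hr0 hr
  set κ : ℝ := 1 - u ^ 2 with hκ
  have hu2 : u ^ 2 ≤ 1 := pow_le_one₀ hu0 hu1
  have hκ0 : 0 ≤ κ := by rw [hκ]; linarith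
  have hκ1 : κ ≤ 1 := by rw [hκ]; linarith [sq_nonneg u]
  rcases le_or_gt (2 * r * κ - ε) 0 with hneg | hpos
  · exact (mul_nonpos_of_nonpos_of_nonneg hneg (Nat.cast_nonneg _)).trans (Nat.cast_nonneg _)
  set w : ℝ := l / β * (h * l / α - 1) with hw
  have hw0 : 0 ≤ w := by
    have : 0 ≤ h * l / α - 1 := by
      rw [sub_nonneg, le_div_iff₀ hlp, one_mul]; exact hh2
    positivity
  obtain ⟨m, hm⟩ : ∃ m : ℕ, n = m + h := ⟨n - h, by omega⟩
  have hmn : m ≤ n := by omega
  have hd := double (p := p) (q := q) (h := h) (n := m) (x := x) (c := c) (r := r)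
  have hwl : ∀ i : ℕ, w * i ≤ (win p q (2 ^ i) (2 ^ h * 2 ^ i)).card := by
    intro i
    have h1 := win_lower hp hq hpq (h := h) hh2 i
    refine le_trans (le_of_eq ?_) h1
    rw [hw]
    ring
  have h1 : ∀ i ∈ Finset.range m, (2 * r * a i - ε1) * (w * i) ≤
      (vis p q (2 ^ i) (2 ^ h * 2 ^ i) x c r : ℝ) := by
    intro i hi
    rw [Finset.mem_range] at hi
    rcases le_or_gt (2 * r * a i - ε1) 0 with h2 | h2
    · refine (mul_nonpos_of_nonpos_of_nonneg h2 (by positivity)).trans (Nat.cast_nonneg _)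
    · refine le_trans ?_ (hdom i (by omega) c r hr0 hr)
      have := hwl i
      gcongr
  have h2 : ∑ i ∈ Finset.range m, (2 * r * a i - ε1) * (w * i) ≤
      h * (vis p q 1 (2 ^ n) x c r : ℝ) := by
    refine (Finset.sum_le_sum h1).trans ?_
    rw [hm]
    exact_mod_cast hd
  have hgauss : ∀ m : ℕ, ∑ i ∈ Finset.range m, (i : ℝ) = (m : ℝ) * (m - 1) / 2 := by
    intro m
    induction m with
    | zero => simp
    | succ k ih =>
      rw [Finset.sum_range_succ, ih]
      push_cast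
      ring
  have h3 : ∑ i ∈ Finset.range m, (i : ℝ) * (1 - a i) ≤ (u * n) ^ 2 / 2 := by
    refine le_trans ?_ hsum
    refine Finset.sum_le_sum_of_subset_of_nonneg (Finset.range_subset_range.2 hmn) fun i hi _ => ?_
    have := (ha i (Finset.mem_range.1 hi)).2
    have h4 : 0 ≤ 1 - a i := by linarith
    positivity
  have h4 : ∑ i ∈ Finset.range m, (2 * r * a i - ε1) * (w * i) =
      w * (2 * r * (∑ i ∈ Finset.range m, (i : ℝ) - ∑ i ∈ Finset.range m, (i : ℝ) * (1 - a i)) -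
        ε1 * ∑ i ∈ Finset.range m, (i : ℝ)) := by
    rw [← Finset.sum_sub_distrib, Finset.mul_sum, Finset.mul_sum, ← Finset.sum_sub_distrib,
      Finset.mul_sum]
    refine Finset.sum_congr rfl fun i _ => ?_
    ring
  rw [h4, hgauss] at h2
  have hnR : (n : ℝ) = m + h := by rw [hm]; push_cast; ring
  have hm0 : (0 : ℝ) ≤ m := Nat.cast_nonneg m
  have hn0 : (0 : ℝ) ≤ n := Nat.cast_nonneg n
  have h5 : (n : ℝ) ^ 2 - (2 * h + 1) * n ≤ (m : ℝ) * (m - 1) := by
    have : (m : ℝ) = n - h := by linarith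
    rw [this]
    have h6 : (0 : ℝ) ≤ (h : ℝ) ^ 2 + h := by positivity
    linarith only [h6]
  have h6 : (m : ℝ) * (m - 1) ≤ (n : ℝ) ^ 2 := by
    have a1 : (m : ℝ) ≤ n := by exact_mod_cast hmn
    have a2 : (m : ℝ) * m ≤ n * n := mul_self_le_mul_self hm0 a1
    linarith only [a2, hm0]
  have h7 : w * (r * κ * n ^ 2 - (2 * h + 1) * n - ε1 * n ^ 2 / 2) ≤
      h * (vis p q 1 (2 ^ n) x c r : ℝ) := by
    refine le_trans ?_ h2
    refine mul_le_mul_of_nonneg_left ?_ hw0
    have a1 : r * ((n : ℝ) ^ 2 - (2 * h + 1) * n - u ^ 2 * n ^ 2) ≤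
        2 * r * ((m : ℝ) * (m - 1) / 2 - ∑ i ∈ Finset.range m, (i : ℝ) * (1 - a i)) := by
      have a2 : (n : ℝ) ^ 2 - (2 * h + 1) * n - u ^ 2 * n ^ 2 ≤
          2 * ((m : ℝ) * (m - 1) / 2 - ∑ i ∈ Finset.range m, (i : ℝ) * (1 - a i)) := by
        have a3 : (u * n) ^ 2 = u ^ 2 * n ^ 2 := by ring
        linarith
      calc r * ((n : ℝ) ^ 2 - (2 * h + 1) * n - u ^ 2 * n ^ 2)
          ≤ r * (2 * ((m : ℝ) * (m - 1) / 2 - ∑ i ∈ Finset.range m, (i : ℝ) * (1 - a i))) := by
            gcongr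
        _ = _ := by ring
    have a4 : r * ((2 * h + 1) * n) ≤ 1 * ((2 * h + 1) * n) := by
      gcongr
      linarith
    have a5 : ε1 * ((m : ℝ) * (m - 1) / 2) ≤ ε1 * (n ^ 2 / 2) := by gcongr
    have a6 : r * κ * n ^ 2 = r * (n ^ 2 - u ^ 2 * n ^ 2) := by rw [hκ]; ring
    have a7 : r * ((n : ℝ) ^ 2 - (2 * h + 1) * n - u ^ 2 * n ^ 2) =
      r * (n ^ 2 - u ^ 2 * n ^ 2) - r * ((2 * h + 1) * n) := by ring
    rw [a6]
    linarith
  -- the semigroup
  have hS := win_upper hp hq hpq (N := 2 ^ n) (one_le_pow₀ (by norm_num))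
  have e1 : Real.log ((2 : ℝ) ^ n) = n * l := Real.log_pow _ _
  rw [e1] at hS
  set t : ℝ := α / (h * l) with ht
  have ht0 : 0 ≤ t := by positivity
  have ht1 : t ≤ ε / 4 := by
    rw [ht, div_le_iff₀ (by positivity)]
    linarith
  have ht2 : t ≤ 1 := by
    rw [ht, div_le_one (by positivity)]; exact hh2
  have e2 : w / h = l ^ 2 / (α * β) * (1 - t) := by
    rw [hw, ht]; field_simp
  have h8 : l ^ 2 / (α * β) * ((1 - t) * (r * κ * n ^ 2 - (2 * h + 1) * n - ε1 * n ^ 2 / 2)) ≤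
      (vis p q 1 (2 ^ n) x c r : ℝ) := by
    rw [← mul_assoc, ← e2, div_mul_eq_mul_div, div_le_iff₀ hh0]
    linarith
  refine le_trans ?_ h8
  have hrκ : r * κ ≤ 1 / 2 := by
    calc r * κ ≤ 1 / 2 * 1 := by gcongr
      _ = 1 / 2 := by norm_num
  have h9 : (2 * r * κ - ε) * (win p q 1 (2 ^ n)).card ≤
      (2 * r * κ - ε) * (1 / (2 * α * β) * ((n * l) ^ 2 + (2 * α + β) * (n * l + β))) := by
    gcongr
  refine h9.trans ?_
  have e3 : (2 * r * κ - ε) * (1 / (2 * α * β) * ((n * l) ^ 2 + (2 * α + β) * (n * l + β))) =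
      l ^ 2 / (α * β) * ((r * κ - ε / 2) * (n ^ 2 + ((2 * α + β) / l * n +
        (2 * α + β) * β / l ^ 2))) := by
    field_simp
  rw [e3]
  refine mul_le_mul_of_nonneg_left ?_ (by positivity)
  have b1 : 0 ≤ r * κ := by positivity
  have b2 : 0 ≤ (2 * h + 1) * (n : ℝ) + ε1 * n ^ 2 / 2 := by positivity
  have b3 : t * (r * κ * n ^ 2) ≤ ε / 4 * (1 / 2 * n ^ 2) := by gcongr
  have b4 : 0 ≤ t * ((2 * h + 1) * (n : ℝ) + ε1 * n ^ 2 / 2) := by positivity
  have b5 : ε1 * (n : ℝ) ^ 2 / 2 ≤ ε / 4 * n ^ 2 / 2 := by gcongr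
  have b6 : 0 ≤ (2 * α + β) / l * n + (2 * α + β) * β / l ^ 2 := by positivity
  have b7 : (r * κ - ε / 2) * ((2 * α + β) / l * n + (2 * α + β) * β / l ^ 2) ≤
      1 * ((2 * α + β) / l * n + (2 * α + β) * β / l ^ 2) := by
    gcongr
    linarith
  linarith only [b3, b4, b5, b7, hn]

end Pool.Agent.TH338.DD
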