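import Pool.Agent.TH338.DD.WinDim

/-!
Points whose windows do not dominate a multiple of Lebesgue measure: lower bound for the dimension.
-/

set_option autoImplicit false

open MeasureTheory Filter Topology Set
open scoped ENNReal NNReal

namespace Pool.Agent.TH338.DD

open Pool.Agent.W764.HL Pool.Agent.W764.SH
open Pool.Agent.W764.FB (T)

/-- visits near zero -/
lemma near_zero {p q κ : ℕ} {f : ℕ → ℕ} (hf : StrictMono f) {P : ℕ} (hP : 2 ≤ P)
    (hPp : P = p ^ κ) (d : ℕ → Fin (P - 1)) {U V : ℕ} (hUV : U ≤ V)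
    (hgap : ∀ j, f j < U ∨ V ≤ f j) {ρ X Y : ℝ} (hY : Y ≤ ρ * (P : ℝ) ^ V) :
    (win p q (X / (P : ℝ) ^ U) (Y / (P : ℝ) ^ U)).card ≤
      vis p q X Y ((pt f hP d : ℝ) : T) 0 ρ := by
  classical
  have hPR : (0 : ℝ) < P := by
    have : 0 < P := by omega
    exact_mod_cast this
  unfold vis
  refine Finset.card_le_card_of_injOn (fun m => P ^ U * m) ?_ ?_
  · intro m hm
    rw [Finset.mem_coe, mem_win] at hm
    obtain ⟨⟨a, b, hab⟩, h3, h4⟩ := hm
    have hPU : (0 : ℝ) < (P : ℝ) ^ U := by positivity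
    rw [div_le_iff₀ hPU] at h3
    rw [lt_div_iff₀ hPU] at h4
    rw [Finset.mem_coe, Finset.mem_filter, mem_win]
    refine ⟨⟨⟨κ * U + a, b, ?_⟩, ?_, ?_⟩, ?_⟩
    · rw [hab, hPp, ← pow_mul, pow_add]; ring
    · push_cast; linarith
    · push_cast; linarith
    · rw [sub_zero]
      refine (norm_smul_pt hf hP d hUV hgap m).trans ?_
      have h5 : (P : ℝ) ^ V = (P : ℝ) ^ U * (P : ℝ) ^ (V - U) := by
        rw [← pow_add]; congr 1; omega
      rw [← div_eq_mul_inv, div_le_iff₀ (by positivity)]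
      rw [h5] at hY
      have h6 : (P : ℝ) ^ U * m ≤ (P : ℝ) ^ U * (ρ * (P : ℝ) ^ (V - U)) := by
        nlinarith
      exact le_of_mul_le_mul_left h6 hPU
  · intro m _ m' _ hmm
    exact Nat.eq_of_mul_eq_mul_left (by positivity) hmm

lemma half_add_half (z : T) : z + ((1 / 2 : ℝ) : T) + ((1 / 2 : ℝ) : T) = z := by
  rw [add_assoc, ← AddCircle.coe_add]
  have : ((1 / 2 + 1 / 2 : ℝ) : T) = 0 := by
    rw [AddCircle.coe_eq_zero_iff]
    exact ⟨1, by norm_num⟩
  rw [this, add_zero]

/-- visits near zero and far from zero -/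
lemma vis_far {p q : ℕ} {X Y : ℝ} {x : T} {ρ : ℝ} (hρ : 0 < ρ) :
    vis p q X Y x ((1 / 2 : ℝ) : T) (1 / 2 - 2 * ρ) + vis p q X Y x 0 ρ ≤ (win p q X Y).card := by
  have h := vis_add (p := p) (q := q) (X := X) (Y := Y) (x := x) (c := ((1 / 2 : ℝ) : T))
    (r := 1 / 2 - 2 * ρ) (s := ρ) (by linarith)
  have e : ((1 / 2 : ℝ) : T) + ((1 / 2 : ℝ) : T) = 0 := by
    have := half_add_half 0
    rwa [zero_add] at this
  rwa [e] at h

/-- the points do not dominate -/
lemma not_domR {p q : ℕ} (hp : 2 ≤ p) (hq : 2 ≤ q) (hpq : Nat.Coprime p q) {κ : ℕ} {P : ℕ}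
    (hP : 2 ≤ P) (hPp : P = p ^ κ) {s θ : ℝ} (hs0 : 0 < s) (hs1 : s ≤ 1) (hsθ : s < θ) (hθ1 : θ ≤ 1)
    (d : ℕ → Fin (P - 1)) : ¬ DomR p q θ ((pt (pl s) hP d : ℝ) : T) := by
  classical
  intro hD
  obtain ⟨hlp, hlq⟩ := log_pos' hp hq
  have hirr := irr_of_coprime hp hq hpq
  have hPR : (2 : ℝ) ≤ P := by exact_mod_cast hP
  have hlP : 0 < Real.log P := Real.log_pos (by linarith)
  set x : T := ((pt (pl s) hP d : ℝ) : T) with hx
  set g : ℝ := θ - s with hg
  have hg0 : 0 < g := by rw [hg]; linarith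
  have hg1 : g < 1 := by rw [hg]; linarith
  set ρ : ℝ := g / 32 with hρ
  have hρ0 : 0 < ρ := by positivity
  obtain ⟨H0, h0⟩ := hD (g / 8) (by positivity)
  set h : ℝ := max (Real.log (max H0 1)) (32 * Real.log p / g) with hh
  have hh1 : Real.log (max H0 1) ≤ h := le_max_left _ _
  have hh2 : 32 * Real.log p / g ≤ h := le_max_right _ _
  set H : ℝ := Real.exp h with hH
  have hHp : 0 < H := Real.exp_pos _
  have hlH : Real.log H = h := Real.log_exp h
  have hHH : H0 ≤ H := by
    have h1 : max H0 1 ≤ H := by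
      rw [hH, ← Real.log_le_iff_le_exp (by positivity)]
      exact hh1
    exact (le_max_left _ _).trans h1
  rw [div_le_iff₀ hg0] at hh2
  have hhlp : 32 * Real.log p ≤ h := by
    have h1 : 0 ≤ h := by
      by_contra hneg
      push Not at hneg
      have : h * g < 0 := mul_neg_of_neg_of_pos hneg hg0
      linarith
    have h2 := mul_le_mul_of_nonneg_left hg1.le h1
    linarith only [h2, hh2]
  have hh0 : 0 < h := by linarith
  obtain ⟨X0, hX0⟩ := h0 H hHH
  set B : ℝ := (h + Real.log q + |Real.log ρ| + h + |Real.log (max X0 1)|) / Real.log P + 1 with hB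
  have hB0 : 0 ≤ B := by positivity
  obtain ⟨k, hk⟩ := (long_gap (A := 1) (B := B) (θ := s + g / 4) hs0 hs1 (by linarith)
    one_pos).exists
  obtain ⟨hUV, hgap⟩ := pl_gap hs0 hs1 (k := k)
  set U := pl s (k.factorial - 1) + 1 with hU
  set V := pl s k.factorial with hV
  rw [one_mul] at hk
  set X : ℝ := ρ * (P : ℝ) ^ V / H with hX
  have hXp : 0 < X := by positivity
  set L : ℝ := Real.log X with hL
  have hLV : L = V * Real.log P + Real.log ρ - h := by
    rw [hL, hX, Real.log_div (by positivity) hHp.ne', Real.log_mul hρ0.ne' (by positivity),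
      Real.log_pow, hlH]
    ring
  have hHX : H * X = ρ * (P : ℝ) ^ V := by rw [hX]; field_simp
  have hU0 : (0 : ℝ) ≤ U := Nat.cast_nonneg _
  have hsg : s + g / 4 ≤ 1 := by linarith
  have hV0 : (0 : ℝ) ≤ V := Nat.cast_nonneg _
  have hBV : B ≤ V := by
    have : (s + g / 4) * (V : ℝ) ≤ 1 * V := by gcongr
    linarith
  have hBP : B * Real.log P = h + Real.log q + |Real.log ρ| + h + |Real.log (max X0 1)| +
      Real.log P := by
    rw [hB]; field_simp
  have hρa := neg_abs_le (Real.log ρ)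
  have hρb := le_abs_self (Real.log ρ)
  have hXa := le_abs_self (Real.log (max X0 1))
  have hXX : X0 ≤ X := by
    have h1 : Real.log (max X0 1) ≤ L := by
      rw [hLV]
      have : B * Real.log P ≤ V * Real.log P := by gcongr
      linarith
    exact (le_max_left _ _).trans ((Real.log_le_log_iff (by positivity) hXp).1 h1)
  have hdom := hX0 X hXX ((1 / 2 : ℝ) : T) (1 / 2 - 2 * ρ) (by rw [hρ]; linarith) (by linarith)
  have hfar := vis_far (p := p) (q := q) (X := X) (Y := H * X) (x := x) hρ0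
  have hnear := near_zero (q := q) (X := X) (pl_mono hs0 hs1) hP hPp d hUV hgap hHX.le
  set W := win p q X (H * X) with hW
  -- the bounds
  have hlow : (L - U * Real.log P) / Real.log q * (h / Real.log p - 1) ≤
      ((win p q (X / (P : ℝ) ^ U) (H * X / (P : ℝ) ^ U)).card : ℝ) := by
    rw [card_win hp hq hirr (by positivity) (by positivity)]
    have e1 : Real.log (X / (P : ℝ) ^ U) = L - U * Real.log P := by
      rw [Real.log_div hXp.ne' (by positivity), Real.log_pow]
    have e2 : Real.log (H * X / (P : ℝ) ^ U) - Real.log (X / (P : ℝ) ^ U) = h := by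
      rw [Real.log_div (by positivity) (by positivity), Real.log_div hXp.ne' (by positivity),
        Real.log_mul hHp.ne' hXp.ne', hlH]
      ring
    rw [e2, e1]
    refine cnt_lower hlp hlq ?_ (by linarith)
    rw [hLV]
    have h1 : (U : ℝ) + B ≤ V := by
      have : (s + g / 4) * (V : ℝ) ≤ 1 * V := by gcongr
      linarith
    have h2 : ((U : ℝ) + B) * Real.log P ≤ V * Real.log P := by gcongr
    rw [add_mul, hBP] at h2
    have := abs_nonneg (Real.log (max X0 1))
    linarith
  have hup : (W.card : ℝ) ≤ ((L + h) / Real.log q + 1) * (h / Real.log p + 2) := by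
    rw [hW, card_win hp hq hirr hXp (by positivity)]
    have e2 : Real.log (H * X) - Real.log X = h := by
      rw [Real.log_mul hHp.ne' hXp.ne', hlH]
      ring
    rw [e2]
    refine cnt_slab hlp hlq ?_ hh0.le
    show 0 ≤ L
    rw [hLV]
    have h1 : B * Real.log P ≤ V * Real.log P := by gcongr
    have := abs_nonneg (Real.log (max X0 1))
    linarith
  have hL0 : 0 ≤ L := by
    rw [hLV]
    have h1 : B * Real.log P ≤ V * Real.log P := by gcongr
    have := abs_nonneg (Real.log (max X0 1))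
    linarith
  have k1 : (1 - s - g / 4) * (L + h + Real.log q) ≤ L - U * Real.log P := by
    have h1 : ((U : ℝ) + B) * Real.log P ≤ (s + g / 4) * V * Real.log P := by gcongr
    rw [add_mul, hBP] at h1
    have h2 : V * Real.log P = L - Real.log ρ + h := by rw [hLV]; ring
    have h3 : (s + g / 4) * V * Real.log P = (s + g / 4) * (L - Real.log ρ + h) := by
      rw [mul_assoc, h2]
    rw [h3] at h1
    have h4 : (s + g / 4) * (-Real.log ρ + h) ≤ 1 * (|Real.log ρ| + h) := by
      have a1 : -Real.log ρ ≤ |Real.log ρ| := neg_le_abs _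
      have a2 : 0 ≤ s + g / 4 := by positivity
      have a3 : 0 ≤ |Real.log ρ| + h := by positivity
      calc (s + g / 4) * (-Real.log ρ + h) ≤ (s + g / 4) * (|Real.log ρ| + h) := by gcongr
        _ ≤ 1 * (|Real.log ρ| + h) := by gcongr
    have h5 : (1 - s - g / 4) * (h + Real.log q) ≤ 1 * (h + Real.log q) := by
      gcongr
      linarith
    have := abs_nonneg (Real.log (max X0 1))
    linarith only [h1, h4, h5, this, hlP]
  have k2 : (1 - g / 8) * (h + 2 * Real.log p) ≤ h - Real.log p := by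
    linarith only [hh2, mul_pos hg0 hlp, hlp]
  have e1 : ((L + h) / Real.log q + 1) * (h / Real.log p + 2) =
      (L + h + Real.log q) * (h + 2 * Real.log p) / (Real.log q * Real.log p) := by field_simp
  have e2 : (L - U * Real.log P) / Real.log q * (h / Real.log p - 1) =
      (L - U * Real.log P) * (h - Real.log p) / (Real.log q * Real.log p) := by field_simp
  have hsg2 : 0 < 1 - s - g / 4 := by
    have : s + g ≤ 1 := by rw [hg]; linarith
    linarith
  have key : (1 - s - g / 2) * W.card ≤ (vis p q X (H * X) x 0 ρ : ℝ) := by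
    calc (1 - s - g / 2) * W.card
        ≤ ((1 - s - g / 4) * (1 - g / 8)) * (((L + h) / Real.log q + 1) * (h / Real.log p + 2)) := by
          have a1 : 1 - s - g / 2 ≤ (1 - s - g / 4) * (1 - g / 8) := by
            have a0 : g * (1 - s - g / 4) ≤ g * 1 :=
              mul_le_mul_of_nonneg_left (by linarith only [hs0, hg0]) hg0.le
            linarith only [a0, hg0]
          have a2 : 0 ≤ (1 - s - g / 4) * (1 - g / 8) := by
            have : 0 ≤ 1 - g / 8 := by linarith
            positivity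
          gcongr
      _ = ((1 - s - g / 4) * (L + h + Real.log q)) * ((1 - g / 8) * (h + 2 * Real.log p)) /
          (Real.log q * Real.log p) := by rw [e1]; ring
      _ ≤ (L - U * Real.log P) * (h - Real.log p) / (Real.log q * Real.log p) := by
          have a1 : 0 ≤ (1 - s - g / 4) * (L + h + Real.log q) := by positivity
          have a3 : 0 ≤ 1 - g / 8 := by linarith
          have a2 : 0 ≤ (1 - g / 8) * (h + 2 * Real.log p) := by positivity
          have a4 : 0 ≤ L - U * Real.log P := a1.trans k1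
          gcongr
      _ = (L - U * Real.log P) / Real.log q * (h / Real.log p - 1) := e2.symm
      _ ≤ _ := hlow
      _ ≤ _ := by exact_mod_cast hnear
  have hWR : (0 : ℝ) < W.card := by
    have h1 : 0 < (L - U * Real.log P) / Real.log q * (h / Real.log p - 1) := by
      have a1 : 0 < (1 - s - g / 4) * (L + h + Real.log q) := by positivity
      have a2 : 0 < L - U * Real.log P := a1.trans_le k1
      have a3 : 0 < h / Real.log p - 1 := by
        rw [sub_pos, lt_div_iff₀ hlp]; linarith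
      positivity
    have h2 : ((win p q (X / (P : ℝ) ^ U) (H * X / (P : ℝ) ^ U)).card : ℝ) ≤ W.card := by
      have := hnear.trans (vis_le (p := p) (q := q))
      exact_mod_cast this
    linarith
  have hfarR : (vis p q X (H * X) x ((1 / 2 : ℝ) : T) (1 / 2 - 2 * ρ) : ℝ) +
      vis p q X (H * X) x 0 ρ ≤ W.card := by exact_mod_cast hfar
  have hfin : (2 * (1 / 2 - 2 * ρ) * θ - g / 8) * W.card ≤ (1 - (1 - s - g / 2)) * W.card := by
    linarith
  have hfin2 := le_of_mul_le_mul_right hfin hWR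
  have hρθ : 4 * ρ * θ ≤ 4 * ρ * 1 := by gcongr
  rw [hρ] at hρθ hfin2
  have : θ = s + g := by rw [hg]; ring
  linarith only [hfin2, hρθ, this, hg0]

/-- **Exact dimension for the windows.** -/
theorem domR_dim {p q : ℕ} (hp : 2 ≤ p) (hq : 2 ≤ q) (hpq : Nat.Coprime p q) (θ : ℝ≥0)
    (hθ : θ ≤ 1) : dimH {x : T | ¬ DomR p q θ x} = θ := by
  have hθ1 : (θ : ℝ) ≤ 1 := by exact_mod_cast hθ
  refine le_antisymm ?_ ?_
  · refine le_trans (dimH_mono ?_) (domD_dim hp hq hpq θ hθ)
    intro x hx hd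
    exact hx (domR_of_domD hp hq hpq hθ1 hd)
  obtain ⟨hlp, hlq⟩ := log_pos' hp hq
  have hl2 : 0 < Real.log 2 := Real.log_pos (by norm_num)
  refine ENNReal.le_of_forall_nnreal_lt fun c hc => ?_
  have hcθ : (c : ℝ) < θ := by exact_mod_cast (ENNReal.coe_lt_coe.1 hc)
  have hc0 : (0 : ℝ) ≤ c := c.2
  set s : ℝ := (c + θ) / 2 with hs
  have hsc : (c : ℝ) < s := by rw [hs]; linarith
  have hsθ : s < θ := by rw [hs]; linarith
  have hs0 : 0 < s := lt_of_le_of_lt hc0 hsc
  have hs1 : s ≤ 1 := by linarith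
  obtain ⟨κ, hκ⟩ := exists_nat_ge (max 2 (Real.log 2 / ((1 - c / s) * Real.log p)))
  have hκ2 : (2 : ℝ) ≤ κ := (le_max_left _ _).trans hκ
  have hκ3 := (le_max_right (2 : ℝ) _).trans hκ
  have hcs : 0 < 1 - c / s := by
    rw [sub_pos, div_lt_one hs0]; exact hsc
  rw [div_le_iff₀ (by positivity)] at hκ3
  have hκ2' : 2 ≤ κ := by exact_mod_cast hκ2
  have hP : 3 ≤ p ^ κ := by
    calc 3 ≤ 2 ^ 2 := by norm_num
      _ ≤ p ^ 2 := Nat.pow_le_pow_left hp 2
      _ ≤ p ^ κ := Nat.pow_le_pow_right (by omega) hκ2'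
  have h1 := dim_pts hs0 hs1 hP
  have h2 : (range fun d : ℕ → Fin (p ^ κ - 1) => ((pt (pl s) (by omega) d : ℝ) : T)) ⊆
      {x : T | ¬ DomR p q θ x} := by
    rintro _ ⟨d, rfl⟩
    exact not_domR hp hq hpq (by omega) rfl hs0 hs1 hsθ hθ1 d
  refine le_trans ?_ (h1.trans (dimH_mono h2))
  rw [← ENNReal.ofReal_coe_nnreal]
  refine ENNReal.ofReal_le_ofReal ?_
  have hPR : (3 : ℝ) ≤ ((p ^ κ : ℕ) : ℝ) := by exact_mod_cast hP
  have hlP : 0 < Real.log ((p ^ κ : ℕ) : ℝ) := Real.log_pos (by linarith)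
  have h3 : Real.log ((p ^ κ : ℕ) : ℝ) = κ * Real.log p := by
    push_cast
    rw [Real.log_pow]
  have h4 : Real.log ((p ^ κ : ℕ) : ℝ) - Real.log 2 ≤ Real.log ((p ^ κ - 1 : ℕ) : ℝ) := by
    rw [← Real.log_div (by linarith) (by norm_num)]
    refine Real.log_le_log (by positivity) ?_
    rw [Nat.cast_sub (by omega)]
    push_cast at hPR ⊢
    linarith
  have h5 : (c : ℝ) / s ≤ Real.log ((p ^ κ - 1 : ℕ) : ℝ) / Real.log ((p ^ κ : ℕ) : ℝ) := by
    rw [le_div_iff₀ hlP]
    rw [h3] at h4 ⊢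
    nlinarith
  rw [div_le_iff₀ hs0] at h5
  linarith

end Pool.Agent.TH338.DD
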