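import Pool.Agent.TH338.DD.SemFew
import Pool.Agent.TH338.DD.WinLow

/-!
The averages over the semigroup: the dimension of the exceptional set.
-/

set_option autoImplicit false

open MeasureTheory Filter Topology Set
open scoped ENNReal NNReal MeasureTheory

namespace Pool.Agent.TH338.DD

open Pool.Agent.W764.HL Pool.Agent.W764.SH
open Pool.Agent.W764.FB (T)

/-- the triangle contains many points -/
lemma tri_lower {α β x : ℝ} (hα : 0 < α) (hβ : 0 < β) (hx : 0 ≤ x) :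
    x ^ 2 / (2 * α * β) ≤ cnt α β 0 x := by
  classical
  set B : ℕ := ⌈x / β⌉₊ with hB
  set S : Finset ((_ : ℕ) × ℕ) := (Finset.range B).sigma fun b =>
    Finset.range ⌈(x - b * β) / α⌉₊ with hS
  have h1 : S.card ≤ cnt α β 0 x := by
    unfold cnt
    rw [← Set.ncard_coe_finset]
    refine Set.ncard_le_ncard_of_injOn (fun u : (_ : ℕ) × ℕ => ((u.2, u.1) : ℕ × ℕ)) ?_ ?_
      (slab_finite hα hβ _ _)
    · rintro ⟨b, a⟩ hu
      rw [hS, Finset.mem_coe, Finset.mem_sigma, Finset.mem_range, Finset.mem_range] at hu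
      obtain ⟨-, h3⟩ := hu
      simp only at h3
      rw [Nat.lt_ceil, lt_div_iff₀ hα] at h3
      refine ⟨?_, ?_⟩
      · show 0 ≤ (a : ℝ) * α + b * β
        positivity
      · show (a : ℝ) * α + b * β < 0 + x
        linarith
    · rintro ⟨b, a⟩ _ ⟨b', a'⟩ _ h
      simp only [Prod.mk.injEq] at h
      obtain ⟨rfl, rfl⟩ := h
      rfl
  have h2 : ∑ b ∈ Finset.range B, (x - b * β) / α ≤ (S.card : ℝ) := by
    rw [hS, Finset.card_sigma]
    push_cast
    refine Finset.sum_le_sum fun b _ => ?_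
    rw [Finset.card_range]
    exact Nat.le_ceil _
  have h3 : ∑ b ∈ Finset.range B, (x - b * β) / α =
      (B * x - β * (B * (B - 1) / 2)) / α := by
    have h4 : ∀ k : ℕ, ∑ b ∈ Finset.range k, (x - b * β) / α =
        (k * x - β * (k * (k - 1) / 2)) / α := by
      intro k
      induction k with
      | zero => simp
      | succ k ih =>
        rw [Finset.sum_range_succ, ih]
        push_cast
        field_simp
        ring
    exact h4 B
  set u : ℝ := B * β with hu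
  have hu1 : x ≤ u := by
    have : x / β ≤ B := Nat.le_ceil _
    rwa [div_le_iff₀ hβ] at this
  have hu2 : u ≤ x + β := by
    have : (B : ℝ) < x / β + 1 := Nat.ceil_lt_add_one (by positivity)
    have h5 : (B : ℝ) * β < (x / β + 1) * β := by gcongr
    have h6 : (x / β + 1) * β = x + β := by field_simp
    linarith
  have h4 : (B * x - β * (B * (B - 1) / 2)) / α = (2 * u * x - u ^ 2 + u * β) / (2 * α * β) := by
    rw [hu]
    field_simp
    ring
  calc x ^ 2 / (2 * α * β) ≤ (2 * u * x - u ^ 2 + u * β) / (2 * α * β) := by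
        gcongr
        have h5 : (u - x) ^ 2 ≤ (u - x) * β := by
          rw [sq]
          exact mul_le_mul_of_nonneg_left (by linarith) (by linarith)
        have h6 : 0 ≤ x * β := by positivity
        linarith [h5, h6]
    _ = (B * x - β * (B * (B - 1) / 2)) / α := h4.symm
    _ = _ := h3.symm
    _ ≤ S.card := h2
    _ ≤ cnt α β 0 x := by exact_mod_cast h1

lemma sem_lower {p q : ℕ} (hp : 2 ≤ p) (hq : 2 ≤ q) (hpq : Nat.Coprime p q) {N : ℝ} (hN : 1 ≤ N) :
    Real.log N ^ 2 / (2 * Real.log p * Real.log q) ≤ (win p q 1 N).card := by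
  obtain ⟨hlp, hlq⟩ := log_pos' hp hq
  rw [card_win hp hq (irr_of_coprime hp hq hpq) one_pos (by linarith), Real.log_one, sub_zero]
  exact tri_lower hlp hlq (Real.log_nonneg hN)

/-- the dyadic form -/
def SemD (p q : ℕ) (κ : ℝ) (x : T) : Prop :=
  ∀ ε : ℝ, 0 < ε → ∀ᶠ n : ℕ in atTop, SDom p q κ ε (2 ^ n) x

/-- the real form -/
def SemR (p q : ℕ) (κ : ℝ) (x : T) : Prop :=
  ∀ ε : ℝ, 0 < ε → ∃ N0 : ℝ, ∀ N : ℝ, N0 ≤ N → SDom p q κ ε N x

lemma SDom.mono {p q : ℕ} {κ ε ε' N : ℝ} {x : T} (h : SDom p q κ ε N x) (hε : ε ≤ ε') :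
    SDom p q κ ε' N x := fun c r hr0 hr => by
  refine le_trans ?_ (h c r hr0 hr)
  gcongr

lemma semR_of_semD {p q : ℕ} (hp : 2 ≤ p) (hq : 2 ≤ q) (hpq : Nat.Coprime p q) {κ : ℝ}
    (hκ1 : κ ≤ 1) {x : T} (hx : SemD p q κ x) : SemR p q κ x := by
  obtain ⟨hlp, hlq⟩ := log_pos' hp hq
  have hl2 : 0 < Real.log 2 := Real.log_pos (by norm_num)
  set α : ℝ := Real.log p with hα
  set β : ℝ := Real.log q with hβ
  set l : ℝ := Real.log 2 with hl
  have main : ∀ ε : ℝ, 0 < ε → ε ≤ 1 → ∃ N0 : ℝ, ∀ N : ℝ, N0 ≤ N → SDom p q κ ε N x := by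
    intro ε hε hε1
    have hev := hx (ε / 2) (by positivity)
    have hquad := quad (a := ε / 2 * l ^ 2) (b := 2 * l ^ 2 + (2 * α + β) * l)
      (c := l ^ 2 + (2 * α + β) * (l + β)) (by positivity)
    obtain ⟨n0, hn0⟩ := eventually_atTop.1 (hev.and hquad)
    refine ⟨max 1 (2 ^ n0), fun N hN c r hr0 hr => ?_⟩
    have hN1 : 1 ≤ N := (le_max_left _ _).trans hN
    have hN2 : (2 : ℝ) ^ n0 ≤ N := (le_max_right _ _).trans hN
    obtain ⟨n, hn1, hn2⟩ := exists_nat_pow_near hN1 (show (1 : ℝ) < 2 by norm_num)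
    have hnn : n0 ≤ n := by
      have h1 : (2 : ℝ) ^ n0 < 2 ^ (n + 1) := hN2.trans_lt hn2
      have := (pow_lt_pow_iff_right₀ (show (1 : ℝ) < 2 by norm_num)).1 h1
      omega
    obtain ⟨hd, hq2⟩ := hn0 n hnn
    rcases le_or_gt (2 * r * κ - ε) 0 with hneg | hpos
    · exact (mul_nonpos_of_nonpos_of_nonneg hneg (Nat.cast_nonneg _)).trans (Nat.cast_nonneg _)
    have hrk : 2 * r * κ ≤ 1 := by
      have : 2 * r * κ ≤ 2 * r * 1 := by gcongr
      linarith
    have hlow := sem_lower hp hq hpq (N := 2 ^ n) (one_le_pow₀ (by norm_num))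
    have hup := win_upper hp hq hpq (N := 2 ^ (n + 1)) (one_le_pow₀ (by norm_num))
    rw [Real.log_pow] at hlow hup
    push_cast at hup
    have hsub : ((win p q 1 N).card : ℝ) ≤ (win p q 1 (2 ^ (n + 1))).card := by
      exact_mod_cast Finset.card_le_card (win_sub le_rfl hn2.le)
    have hcmp : (1 - ε / 2) * (win p q 1 N).card ≤ (win p q 1 (2 ^ n)).card := by
      have hn' : (0 : ℝ) ≤ n := Nat.cast_nonneg n
      calc (1 - ε / 2) * (win p q 1 N).card
          ≤ (1 - ε / 2) * (1 / (2 * α * β) * ((((n : ℝ) + 1) * l) ^ 2 +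
            (2 * α + β) * (((n : ℝ) + 1) * l + β))) := by
            have := hsub.trans hup
            gcongr
            linarith
        _ = ((1 - ε / 2) * ((((n : ℝ) + 1) * l) ^ 2 +
            (2 * α + β) * (((n : ℝ) + 1) * l + β))) / (2 * α * β) := by ring
        _ ≤ (n * l) ^ 2 / (2 * α * β) := by
            gcongr
            have a1 : 0 ≤ ε / 2 * ((2 * n + 1) * l ^ 2 + (2 * α + β) * (((n : ℝ) + 1) * l + β)) := by
              positivity
            linarith only [a1, hq2]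
        _ ≤ _ := hlow
    have hvis : vis p q 1 (2 ^ n) x c r ≤ vis p q 1 N x c r := vis_mono hn1 x c r
    have h3 : (2 * r * κ - ε) * (win p q 1 N).card ≤
        (2 * r * κ - ε / 2) * ((1 - ε / 2) * (win p q 1 N).card) := by
      rw [← mul_assoc]
      refine mul_le_mul_of_nonneg_right ?_ (Nat.cast_nonneg _)
      have := mul_le_mul_of_nonneg_left hrk hε.le
      linarith only [this, sq_nonneg ε]
    calc (2 * r * κ - ε) * (win p q 1 N).card
        ≤ (2 * r * κ - ε / 2) * ((1 - ε / 2) * (win p q 1 N).card) := h3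
      _ ≤ (2 * r * κ - ε / 2) * (win p q 1 (2 ^ n)).card := by
        gcongr
        linarith
      _ ≤ vis p q 1 (2 ^ n) x c r := hd c r hr0 hr
      _ ≤ vis p q 1 N x c r := by exact_mod_cast hvis
  intro ε hε
  obtain ⟨N0, h⟩ := main (min ε 1) (by positivity) (min_le_right _ _)
  exact ⟨N0, fun N hN => (h N hN).mono (min_le_left _ _)⟩

lemma semD_of {p q : ℕ} {κ : ℝ} {x : T} (h : ∀ k : ℕ,
    ∀ᶠ n : ℕ in atTop, SDom p q κ (1 / ((k : ℝ) + 1)) (2 ^ n) x) : SemD p q κ x := by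
  intro ε hε
  obtain ⟨k, hk⟩ := exists_nat_one_div_lt hε
  filter_upwards [h k] with n hn
  exact hn.mono hk.le

/-- **Dimension, upper bound.** -/
theorem semD_dim {p q : ℕ} (hp : 2 ≤ p) (hq : 2 ≤ q) (hpq : Nat.Coprime p q) {u : ℝ} (hu0 : 0 ≤ u)
    (hu1 : u ≤ 1) : dimH {x : T | ¬ SemD p q (1 - u ^ 2) x} ≤ ENNReal.ofReal (1 - u) := by
  refine ENNReal.le_of_forall_pos_le_add fun e he _ => ?_
  have heR : (0 : ℝ) < e := by exact_mod_cast he
  set d : ℝ≥0 := Real.toNNReal (1 - u) + e with hd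
  have hdR : (d : ℝ) = (1 - u) + e := by
    rw [hd]
    push_cast
    rw [Real.coe_toNNReal _ (by linarith)]
  have hsep := fun k : ℕ => sfew hp hq hpq hu0 hu1 (ε := 1 / ((k : ℝ) + 1)) (by positivity)
    (σ := (e : ℝ) / 2) (by positivity)
  choose C hC0 hC using hsep
  set Z : ℕ → Set T := fun k => {x | ∃ᶠ n : ℕ in atTop,
    x ∈ {x : T | ¬ SDom p q (1 - u ^ 2) (1 / ((k : ℝ) + 1)) (2 ^ n) x}} with hZ
  have hZ0 : ∀ k : ℕ, μH[(d : ℝ)] (Z k) = 0 := by
    intro k
    have hnet := fun n : ℕ =>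
      exists_net {x : T | ¬ SDom p q (1 - u ^ 2) (1 / ((k : ℝ) + 1)) (2 ^ n) x} n
    choose F hF1 hF2 hF3 using hnet
    exact haus_limsup hF3 (hC0 k) (t := 1 - u + e / 2) (d := d) (by rw [hdR]; linarith)
      (by rw [hdR]; linarith) fun n => hC k n (F n) (hF2 n) fun x hx => hF1 n x hx
  have hsub : {x : T | ¬ SemD p q (1 - u ^ 2) x} ⊆ ⋃ k : ℕ, Z k := by
    intro x hx
    by_contra hcon
    apply hx
    refine semD_of fun k => ?_
    by_contra hev
    apply hcon
    refine mem_iUnion.2 ⟨k, ?_⟩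
    rw [not_eventually] at hev
    exact hev
  have hnull : μH[(d : ℝ)] {x : T | ¬ SemD p q (1 - u ^ 2) x} = 0 := by
    refine measure_mono_null hsub ?_
    rw [measure_iUnion_null_iff]
    exact hZ0
  have h1 := dimH_le_of_hausdorffMeasure_ne_top (d := d) (by rw [hnull]; exact ENNReal.zero_ne_top)
  refine h1.trans (le_of_eq ?_)
  rw [hd, ENNReal.ofReal]
  push_cast
  rfl

/-- **Measures.** -/
theorem ae_sem {p q : ℕ} (hp : 2 ≤ p) (hq : 2 ≤ q) (hpq : Nat.Coprime p q) {ν : Measure T}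
    [IsProbabilityMeasure ν] {s : ℝ} (hs0 : 0 ≤ s) (hs1 : s ≤ 1)
    (hν : ∀ s' < s, ∀ᵐ x ∂ν, ∃ C : ℝ, ∀ r : ℝ, 0 < r → ν.real (Metric.closedBall x r) ≤ C * r ^ s') :
    ∀ᵐ x ∂ν, SemD p q (1 - (1 - s) ^ 2) x := by
  have main : ∀ t : ℝ, 0 ≤ t → t < s → ∀ᵐ x ∂ν, SemD p q (1 - (1 - t) ^ 2) x := by
    intro κ hκ0 hκs
    set σ : ℝ := (s - κ) / 3 with hσ
    have hσ0 : 0 < σ := by rw [hσ]; linarith
    set s' : ℝ := κ + 2 * σ with hs'
    have hs's : s' < s := by
      have : s = κ + 3 * σ := by rw [hσ]; ring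
      linarith
    have hsep := fun k : ℕ => sfew hp hq hpq (u := 1 - κ) (by linarith) (by linarith)
      (ε := 1 / ((k : ℝ) + 1)) (by positivity) hσ0
    choose C hC0 hC using hsep
    have h1 : ∀ k l : ℕ, ∀ᵐ x ∂ν, ∀ᶠ n : ℕ in atTop,
        x ∉ {x : T | (∀ r : ℝ, 0 < r → ν.real (Metric.closedBall x r) ≤ l * r ^ s') ∧
          ¬ SDom p q (1 - (1 - κ) ^ 2) (1 / ((k : ℝ) + 1)) (2 ^ n) x} := by
      intro k l
      have hnet := fun n : ℕ => exists_net
        {x : T | (∀ r : ℝ, 0 < r → ν.real (Metric.closedBall x r) ≤ l * r ^ s') ∧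
          ¬ SDom p q (1 - (1 - κ) ^ 2) (1 / ((k : ℝ) + 1)) (2 ^ n) x} n
      choose F hF1 hF2 hF3 using hnet
      exact ae_not_mem hF3 (hC0 k) (t := κ + σ) (s := s') (k := l) (by rw [hs']; linarith)
        (Nat.cast_nonneg l) (fun n => by
          have h3 := hC k n (F n) (hF2 n) fun x hx => (hF1 n x hx).2
          have e : 1 - (1 - κ) + σ = κ + σ := by ring
          rwa [e] at h3)
        fun n x hx => (hF1 n x hx).1 _ (by positivity)
    have h2 : ∀ᵐ x ∂ν, ∀ k l : ℕ, ∀ᶠ n : ℕ in atTop,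
        x ∉ {x : T | (∀ r : ℝ, 0 < r → ν.real (Metric.closedBall x r) ≤ l * r ^ s') ∧
          ¬ SDom p q (1 - (1 - κ) ^ 2) (1 / ((k : ℝ) + 1)) (2 ^ n) x} := by
      rw [ae_all_iff]; intro k
      rw [ae_all_iff]; intro l
      exact h1 k l
    filter_upwards [h2, hν s' hs's] with x hx hx2
    obtain ⟨C, hCx⟩ := hx2
    obtain ⟨l, hl⟩ := exists_nat_ge C
    refine semD_of fun k => ?_
    filter_upwards [hx k l] with n hn
    by_contra hlt
    refine hn ⟨fun r hr => (hCx r hr).trans ?_, hlt⟩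
    have : 0 ≤ r ^ s' := Real.rpow_nonneg hr.le _
    gcongr
  rcases eq_or_lt_of_le hs0 with h0 | h0
  · rw [← h0]
    refine Eventually.of_forall fun x ε hε => Eventually.of_forall fun n c r hr0 hr => ?_
    have h1 : 2 * r * (1 - (1 - (0 : ℝ)) ^ 2) - ε ≤ 0 := by
      have : 2 * r * (1 - (1 - (0 : ℝ)) ^ 2) = 0 := by ring
      linarith
    exact (mul_nonpos_of_nonpos_of_nonneg h1 (Nat.cast_nonneg _)).trans (Nat.cast_nonneg _)
  have h1 : ∀ᵐ x ∂ν, ∀ j : ℕ, SemD p q (1 - (1 - max 0 (s - 1 / ((j : ℝ) + 1))) ^ 2) x := by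
    rw [ae_all_iff]
    intro j
    refine main _ (le_max_left _ _) (max_lt h0 ?_)
    have : 0 < 1 / ((j : ℝ) + 1) := by positivity
    linarith
  filter_upwards [h1] with x hx ε hε
  obtain ⟨j, hj⟩ := exists_nat_one_div_lt (show 0 < ε / 4 by positivity)
  filter_upwards [hx j (ε / 2) (by positivity)] with n hn c r hr0 hr
  refine le_trans ?_ (hn c r hr0 hr)
  refine mul_le_mul_of_nonneg_right ?_ (Nat.cast_nonneg _)
  set t : ℝ := max 0 (s - 1 / ((j : ℝ) + 1)) with ht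
  have ht0 : 0 ≤ t := le_max_left _ _
  have ht1 : s - ε / 4 ≤ t := (by linarith : s - ε / 4 ≤ s - 1 / ((j : ℝ) + 1)).trans
    (le_max_right _ _)
  have hts : t ≤ s := max_le hs0 (by
    have : 0 < 1 / ((j : ℝ) + 1) := by positivity
    linarith)
  have h3 : (1 - (1 - s) ^ 2) - (1 - (1 - t) ^ 2) ≤ ε / 2 := by
    have e : (1 - (1 - s) ^ 2) - (1 - (1 - t) ^ 2) = (s - t) * (2 - s - t) := by ring
    rw [e]
    calc (s - t) * (2 - s - t) ≤ (ε / 4) * 2 := by
          gcongr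
          · linarith
          · linarith
          · linarith
      _ = ε / 2 := by ring
  have h4 : 2 * r * ((1 - (1 - s) ^ 2) - (1 - (1 - t) ^ 2)) ≤ 1 * (ε / 2) := by
    have h5 : 0 ≤ (1 - (1 - s) ^ 2) - (1 - (1 - t) ^ 2) := by
      have e : (1 - (1 - s) ^ 2) - (1 - (1 - t) ^ 2) = (s - t) * (2 - s - t) := by ring
      rw [e]
      exact mul_nonneg (by linarith) (by linarith)
    gcongr
    linarith
  linarith

end Pool.Agent.TH338.DD
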