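import Pool.Agent.TH338.DD.Prof

/-!
Separated points whose averages over the semigroup do not dominate are few.
-/

set_option autoImplicit false

open MeasureTheory Filter Topology Set

namespace Pool.Agent.TH338.DD

open Pool.Agent.W764.HL Pool.Agent.W764.SH
open Pool.Agent.W764.FB (T)

lemma norm_ge (x y : T) (h : 1 / 2 < |rep x - rep y|) : 1 - |rep x - rep y| ≤ ‖x - y‖ := by
  have h1 : x - y = ((rep x - rep y : ℝ) : T) := by
    rw [AddCircle.coe_sub, coe_rep, coe_rep]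
  rw [h1, UnitAddCircle.norm_eq]
  set z : ℝ := rep x - rep y with hz
  rcases eq_or_ne (round z) 0 with h0 | h0
  · rw [h0, Int.cast_zero, sub_zero]
    linarith
  · have h2 : (1 : ℝ) ≤ |(round z : ℝ)| := by
      have := Int.one_le_abs h0
      exact_mod_cast this
    have h3 := abs_sub_abs_le_abs_sub (round z : ℝ) z
    have h4 : |(round z : ℝ) - z| = |z - round z| := abs_sub_comm _ _
    linarith

/-- the cells meeting a small ball -/
lemma ball_cells {i : ℕ} {x y : T} (h : ‖x - y‖ ≤ (1 / 2 : ℝ) ^ i) :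
    cell i y ∈ ({cell i x - 1, cell i x, cell i x + 1, 0, 2 ^ i - 1} : Finset ℕ) := by
  have h1 := cell_le i x
  have h2 := lt_cell i x
  have h3 := cell_le i y
  have h4 := lt_cell i y
  have h5 : (0 : ℝ) < 2 ^ i := by positivity
  have e : (1 / 2 : ℝ) ^ i * 2 ^ i = 1 := by
    rw [← mul_pow]; norm_num
  simp only [Finset.mem_insert, Finset.mem_singleton]
  rcases le_or_gt |rep x - rep y| (1 / 2) with h6 | h6
  · rw [norm_sub_eq x y h6] at h
    have h7 : |rep x - rep y| * 2 ^ i ≤ 1 := by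
      calc |rep x - rep y| * 2 ^ i ≤ (1 / 2 : ℝ) ^ i * 2 ^ i := by gcongr
        _ = 1 := e
    have h8 : |2 ^ i * rep x - 2 ^ i * rep y| ≤ 1 := by
      rw [← mul_sub, abs_mul, abs_of_pos h5, mul_comm]
      exact h7
    rw [abs_le] at h8
    have h9 : (cell i y : ℝ) < cell i x + 2 := by linarith
    have h10 : (cell i x : ℝ) < cell i y + 2 := by linarith
    have h11 : cell i y < cell i x + 2 := by exact_mod_cast h9
    have h12 : cell i x < cell i y + 2 := by exact_mod_cast h10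
    omega
  · have h7 := (norm_ge x y h6).trans h
    have h8 : (1 - |rep x - rep y|) * 2 ^ i ≤ 1 := by
      calc (1 - |rep x - rep y|) * 2 ^ i ≤ (1 / 2 : ℝ) ^ i * 2 ^ i := by gcongr
        _ = 1 := e
    have hx0 := rep_nonneg x
    have hx1 := rep_lt x
    have hy0 := rep_nonneg y
    have hy1 := rep_lt y
    rcases le_or_gt (rep y) (rep x) with h9 | h9
    · rw [abs_of_nonneg (by linarith)] at h8
      have h10 : (cell i y : ℝ) < 1 := by nlinarith
      have h11 : cell i y < 1 := by exact_mod_cast h10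
      omega
    · rw [abs_of_neg (by linarith)] at h8
      have h10 : ((2 ^ i : ℕ) : ℝ) < cell i y + 2 := by
        push_cast
        nlinarith
      have h11 : 2 ^ i < cell i y + 2 := by exact_mod_cast h10
      have h12 := cell_lt i y
      omega

/-- **Two constraints.** -/
theorem joint {p q : ℕ} (hp : 2 ≤ p) (hq : 2 ≤ q) (hpq : Nat.Coprime p q) {κ ε σ : ℝ}
    (hκ0 : 0 ≤ κ) (hκ1 : κ ≤ 1) (hε : 0 < ε) (hσ : 0 < σ) :
    ∃ H0 : ℝ, ∀ H : ℝ, H0 ≤ H → ∃ C : ℝ, 0 ≤ C ∧ ∀ i n : ℕ, i ≤ n → ∀ F : Finset T,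
      (∀ x ∈ F, ∀ y ∈ F, x ≠ y → (1 / 2 : ℝ) ^ n ≤ ‖x - y‖) →
      (∀ x ∈ F, ¬ Dom p q κ ε H (2 ^ i) x) → ∀ g : ℝ, 0 ≤ g →
      (∀ x ∈ F, (gl p q ε H i n x : ℝ) ≤ g) → (F.card : ℝ) ≤ C * 2 ^ (κ * i + g + σ * n) := by
  classical
  obtain ⟨H1, h1⟩ := few_two hp hq hpq hκ0 hκ1 hε hσ
  obtain ⟨H2, -, h2⟩ := sep_loc hp hq hpq hε hσ
  refine ⟨max H1 H2, fun H hH => ?_⟩
  obtain ⟨C1, hC1, h3⟩ := h1 H ((le_max_left _ _).trans hH)
  obtain ⟨C2, hC2, h4⟩ := h2 H ((le_max_right _ _).trans hH)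
  refine ⟨C1 * (5 * C2), by positivity, fun i n hin F hF hbad g hg hgl => ?_⟩
  obtain ⟨R, hR1, hR2, hR3⟩ := exists_net (F : Set T) i
  have hR := h3 i R hR2 fun x hx => hbad x (by exact_mod_cast hR1 x hx)
  set S : T → Finset ℕ := fun x => {cell i x - 1, cell i x, cell i x + 1, 0, 2 ^ i - 1} with hS
  have hcover : F ⊆ R.biUnion fun x => (S x).biUnion fun a => F.filter fun y => cell i y = a := by
    intro y hy
    have h5 := hR3 (by exact_mod_cast hy : y ∈ (F : Set T))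
    rw [mem_iUnion₂] at h5
    obtain ⟨x, hx, hyx⟩ := h5
    rw [Metric.mem_closedBall, dist_comm, dist_eq_norm] at hyx
    rw [Finset.mem_biUnion]
    refine ⟨x, hx, ?_⟩
    rw [Finset.mem_biUnion]
    exact ⟨cell i y, ball_cells hyx, Finset.mem_filter.2 ⟨hy, rfl⟩⟩
  set B : ℝ := C2 * 2 ^ (g + σ * ((n : ℝ) - i)) with hB
  have hB0 : 0 ≤ B := by positivity
  have hcell : ∀ a : ℕ, ((F.filter fun y => cell i y = a).card : ℝ) ≤ B := fun a =>
    h4 i n hin _ (fun x hx y hy => hF x (Finset.mem_filter.1 hx).1 y (Finset.mem_filter.1 hy).1) a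
      (fun x hx => (Finset.mem_filter.1 hx).2) g hg fun x hx => hgl x (Finset.mem_filter.1 hx).1
  have hSc : ∀ x, (S x).card ≤ 5 := fun x => Finset.card_le_five
  have h5 : (F.card : ℝ) ≤ R.card * (5 * B) := by
    have h6 : (F.card : ℝ) ≤ ∑ x ∈ R, ∑ a ∈ S x, ((F.filter fun y => cell i y = a).card : ℝ) := by
      have h7 : F.card ≤ ∑ x ∈ R, ∑ a ∈ S x, (F.filter fun y => cell i y = a).card := by
        refine (Finset.card_le_card hcover).trans (Finset.card_biUnion_le.trans ?_)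
        exact Finset.sum_le_sum fun x _ => Finset.card_biUnion_le
      exact_mod_cast h7
    refine h6.trans ?_
    rw [← nsmul_eq_mul]
    refine Finset.sum_le_card_nsmul _ _ _ fun x _ => ?_
    refine (Finset.sum_le_card_nsmul _ _ B fun a _ => hcell a).trans ?_
    rw [nsmul_eq_mul]
    have : ((S x).card : ℝ) ≤ 5 := by exact_mod_cast hSc x
    gcongr
  calc (F.card : ℝ) ≤ R.card * (5 * B) := h5
    _ ≤ (C1 * 2 ^ ((κ + σ) * i)) * (5 * B) := by gcongr
    _ = C1 * (5 * C2) * (2 ^ ((κ + σ) * i) * 2 ^ (g + σ * ((n : ℝ) - i))) := by rw [hB]; ring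
    _ = C1 * (5 * C2) * 2 ^ (κ * i + g + σ * n) := by
      rw [← Real.rpow_add (by norm_num)]
      congr 2
      ring

/-- polynomials against exponentials -/
lemma poly_exp {a : ℝ} (ha : 0 < a) : ∃ C : ℝ, 0 ≤ C ∧ ∀ n : ℕ,
    ((n : ℝ) + 1) ^ 2 ≤ C * 2 ^ (a * n) := by
  have hl2 : 0 < Real.log 2 := Real.log_pos (by norm_num)
  set b : ℝ := a * Real.log 2 / 2 with hb
  have hb0 : 0 < b := by positivity
  refine ⟨Real.exp (2 * b) / b ^ 2, by positivity, fun n => ?_⟩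
  have h1 : b * ((n : ℝ) + 1) ≤ Real.exp (b * (n + 1)) := by
    have := Real.add_one_le_exp (b * ((n : ℝ) + 1))
    linarith
  have h2 : (b * ((n : ℝ) + 1)) ^ 2 ≤ Real.exp (b * (n + 1)) ^ 2 := by gcongr
  have h3 : Real.exp (b * ((n : ℝ) + 1)) ^ 2 = Real.exp (2 * b) * 2 ^ (a * n) := by
    rw [← Real.exp_nat_mul, Real.rpow_def_of_pos (by norm_num), ← Real.exp_add]
    congr 1
    rw [hb]
    push_cast
    ring
  rw [h3, mul_pow] at h2
  rw [div_mul_eq_mul_div, le_div_iff₀ (by positivity)]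
  linarith

lemma Eqd.dom {p q : ℕ} {ε H X : ℝ} {x : T} (h : Eqd p q ε H X x) : Dom p q 1 ε H X x := by
  intro c r hr0 hr
  have h1 := (abs_le.1 (h.2 c r hr0 hr)).1
  rw [mul_one, sub_mul]
  linarith

open Classical in
/-- **Few bad points for the semigroup averages.** -/
theorem sfew {p q : ℕ} (hp : 2 ≤ p) (hq : 2 ≤ q) (hpq : Nat.Coprime p q) {u ε σ : ℝ}
    (hu0 : 0 ≤ u) (hu1 : u ≤ 1) (hε : 0 < ε) (hσ : 0 < σ) :
    ∃ C : ℝ, 0 ≤ C ∧ ∀ n : ℕ, ∀ F : Finset T,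
      (∀ x ∈ F, ∀ y ∈ F, x ≠ y → (1 / 2 : ℝ) ^ n ≤ ‖x - y‖) →
      (∀ x ∈ F, ¬ SDom p q (1 - u ^ 2) ε (2 ^ n) x) → (F.card : ℝ) ≤ C * 2 ^ ((1 - u + σ) * n) := by
  obtain ⟨hlp, hlq⟩ := log_pos' hp hq
  have hl2 : 0 < Real.log 2 := Real.log_pos (by norm_num)
  obtain ⟨K, hK⟩ := exists_nat_ge (2 / σ)
  have hK0 : (0 : ℝ) < K := lt_of_lt_of_le (by positivity) hK
  have hK1 : 1 ≤ K := by exact_mod_cast hK0
  have hKσ : 1 / (K : ℝ) ≤ σ / 2 := by
    rw [div_le_iff₀ hσ] at hK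
    rw [div_le_iff₀ hK0]; linarith
  set ε1 : ℝ := ε / 4 with hε1
  have hε1p : 0 < ε1 := by positivity
  -- the constants
  have hjoint : ∀ k : ℕ, ∃ H0 : ℝ, k ≤ K → ∀ H : ℝ, H0 ≤ H → ∃ C : ℝ, 0 ≤ C ∧ ∀ i n : ℕ, i ≤ n →
      ∀ F : Finset T, (∀ x ∈ F, ∀ y ∈ F, x ≠ y → (1 / 2 : ℝ) ^ n ≤ ‖x - y‖) →
      (∀ x ∈ F, ¬ Dom p q ((k : ℝ) / K) ε1 H (2 ^ i) x) → ∀ g : ℝ, 0 ≤ g →
      (∀ x ∈ F, (gl p q ε1 H i n x : ℝ) ≤ g) →
      (F.card : ℝ) ≤ C * 2 ^ ((k : ℝ) / K * i + g + σ / 4 * n) := by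
    intro k
    by_cases hk : k ≤ K
    · have hkR : (k : ℝ) ≤ K := by exact_mod_cast hk
      obtain ⟨H0, h⟩ := joint hp hq hpq (κ := (k : ℝ) / K) (ε := ε1) (σ := σ / 4) (by positivity)
        (by rw [div_le_one hK0]; exact hkR) hε1p (by positivity)
      exact ⟨H0, fun _ => h⟩
    · exact ⟨0, fun h => absurd h hk⟩
  choose H0 hH0 using hjoint
  obtain ⟨Hm, hHm⟩ : ∃ Hm : ℝ, ∀ k ≤ K, H0 k ≤ Hm := by
    obtain ⟨k0, -, hk0⟩ := (Finset.range (K + 1)).exists_max_image H0 ⟨0, by simp⟩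
    exact ⟨H0 k0, fun k hk => hk0 k (Finset.mem_range.2 (by omega))⟩
  obtain ⟨h1, hh1⟩ := pow_unbounded_of_one_lt Hm (show (1 : ℝ) < 2 by norm_num)
  obtain ⟨h2, hh2⟩ := exists_nat_ge (4 * Real.log p / (ε * Real.log 2))
  obtain ⟨h3, hh3⟩ := exists_nat_ge (Real.log p / Real.log 2)
  set h : ℕ := max h1 (max h2 h3) with hh
  have hhA : Hm ≤ (2 : ℝ) ^ h := hh1.le.trans (pow_le_pow_right₀ (by norm_num) (le_max_left _ _))
  have hhB : 4 * Real.log p ≤ ε * (h * Real.log 2) := by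
    have : (h2 : ℝ) ≤ h := by exact_mod_cast (le_max_left _ _).trans (le_max_right _ _)
    have h4 := hh2.trans this
    rw [div_le_iff₀ (by positivity)] at h4
    linarith
  have hhC : Real.log p ≤ h * Real.log 2 := by
    have : (h3 : ℝ) ≤ h := by exact_mod_cast (le_max_right _ _).trans (le_max_right _ _)
    have h4 := hh3.trans this
    rwa [div_le_iff₀ hl2] at h4
  have hC' : ∀ k : ℕ, ∃ C : ℝ, 0 ≤ C ∧ (k ≤ K → ∀ i n : ℕ, i ≤ n →
      ∀ F : Finset T, (∀ x ∈ F, ∀ y ∈ F, x ≠ y → (1 / 2 : ℝ) ^ n ≤ ‖x - y‖) →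
      (∀ x ∈ F, ¬ Dom p q ((k : ℝ) / K) ε1 (2 ^ h) (2 ^ i) x) → ∀ g : ℝ, 0 ≤ g →
      (∀ x ∈ F, (gl p q ε1 (2 ^ h) i n x : ℝ) ≤ g) →
      (F.card : ℝ) ≤ C * 2 ^ ((k : ℝ) / K * i + g + σ / 4 * n)) := by
    intro k
    by_cases hk : k ≤ K
    · obtain ⟨C, hC0, hC⟩ := hH0 k hk (2 ^ h) ((hHm k hk).trans hhA)
      exact ⟨C, hC0, fun _ => hC⟩
    · exact ⟨0, le_rfl, fun h => absurd h hk⟩
  choose C hC0 hC using hC'
  obtain ⟨Cm, hCm0, hCm⟩ : ∃ Cm : ℝ, 0 ≤ Cm ∧ ∀ k ≤ K, C k ≤ Cm := by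
    obtain ⟨k0, -, hk0⟩ := (Finset.range (K + 1)).exists_max_image C ⟨0, by simp⟩
    exact ⟨C k0, hC0 k0, fun k hk => hk0 k (Finset.mem_range.2 (by omega))⟩
  obtain ⟨n0, hn0⟩ := eventually_atTop.1
    (avg_lower hp hq hpq hu0 hu1 hε hε1p (le_of_eq hε1) hhB hhC)
  obtain ⟨Cp, hCp0, hCp⟩ := poly_exp (a := σ / 4) (by positivity)
  refine ⟨2 ^ n0 + K * Cm * Cp, by positivity, fun n F hF hbad => ?_⟩
  have hone : (1 : ℝ) ≤ 2 ^ ((1 - u + σ) * n) := Real.one_le_rpow (by norm_num) (by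
    have : 0 ≤ 1 - u + σ := by linarith
    positivity)
  rcases lt_or_ge n n0 with hnn | hnn
  · have h4 : (F.card : ℝ) ≤ 2 ^ n := by exact_mod_cast card_sep hF
    have h5 : (2 : ℝ) ^ n ≤ 2 ^ n0 := pow_le_pow_right₀ (by norm_num) hnn.le
    have h6 : (0 : ℝ) ≤ K * Cm * Cp := by positivity
    calc (F.card : ℝ) ≤ 2 ^ n0 * 1 := by linarith
      _ ≤ (2 ^ n0 + K * Cm * Cp) * 2 ^ ((1 - u + σ) * n) := by gcongr; linarith
  -- the parts
  set I : Finset ((ℕ × ℕ) × ℕ) := ((Finset.range n ×ˢ Finset.Icc 1 K) ×ˢ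
    Finset.range (n + 1)).filter fun w =>
      ((w.1.2 : ℝ) / K) * w.1.1 + w.2 ≤ (1 - u + σ / 2) * n with hI
  set P : (ℕ × ℕ) × ℕ → Finset T := fun w => F.filter fun x =>
    ¬ Dom p q ((w.1.2 : ℝ) / K) ε1 (2 ^ h) (2 ^ w.1.1) x ∧ gl p q ε1 (2 ^ h) w.1.1 n x ≤ w.2 with hP
  have hPcard : ∀ w ∈ I, ((P w).card : ℝ) ≤ Cm * 2 ^ ((1 - u + σ / 2) * n + σ / 4 * n) := by
    intro w hw
    rw [hI, Finset.mem_filter, Finset.mem_product, Finset.mem_product, Finset.mem_range,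
      Finset.mem_Icc, Finset.mem_range] at hw
    obtain ⟨⟨⟨hi, hk1, hkK⟩, hG⟩, hle⟩ := hw
    have h4 := hC w.1.2 hkK w.1.1 n hi.le (P w)
      (fun x hx y hy => hF x (Finset.mem_filter.1 hx).1 y (Finset.mem_filter.1 hy).1)
      (fun x hx => (Finset.mem_filter.1 hx).2.1) w.2 (Nat.cast_nonneg _)
      (fun x hx => by exact_mod_cast (Finset.mem_filter.1 hx).2.2)
    refine h4.trans ?_
    have h5 : (2 : ℝ) ^ (((w.1.2 : ℝ) / K) * w.1.1 + w.2 + σ / 4 * n) ≤
        2 ^ ((1 - u + σ / 2) * n + σ / 4 * n) :=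
      Real.rpow_le_rpow_of_exponent_le (by norm_num) (by linarith)
    have h6 := hCm w.1.2 hkK
    gcongr
  have hcover : F ⊆ I.biUnion P := by
    intro x hx
    by_contra hnot
    apply hbad x hx
    -- the profile of `x`
    set D : ℕ → ℕ → Prop := fun i k => Dom p q ((k : ℝ) / K) ε1 (2 ^ h) (2 ^ i) x with hD
    have hD0 : ∀ i, D i 0 := by
      intro i c r hr0 hr
      rw [Nat.cast_zero, zero_div, mul_zero, zero_sub]
      refine le_trans ?_ (Nat.cast_nonneg _)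
      exact mul_nonpos_of_nonpos_of_nonneg (by linarith) (Nat.cast_nonneg _)
    set ka : ℕ → ℕ := fun i => Nat.findGreatest (D i) K with hka
    have hka1 : ∀ i, D i (ka i) := fun i => Nat.findGreatest_spec (Nat.zero_le K) (hD0 i)
    have hkaK : ∀ i, ka i ≤ K := fun i => Nat.findGreatest_le K
    have hka2 : ∀ i, ka i < K → ¬ D i (ka i + 1) := fun i hi =>
      Nat.findGreatest_is_greatest (Nat.lt_succ_self _) hi
    set a : ℕ → ℝ := fun i => (ka i : ℝ) / K with ha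
    have hkaR : ∀ i, (ka i : ℝ) ≤ K := fun i => by exact_mod_cast hkaK i
    have ha01 : ∀ i, 0 ≤ a i ∧ a i ≤ 1 := fun i =>
      ⟨by positivity, by rw [ha]; simp only; rw [div_le_one hK0]; exact hkaR i⟩
    have haK : ∀ i, ka i = K → a i = 1 := fun i hi => by
      rw [ha]; simp only; rw [hi, div_self hK0.ne']
    refine hn0 n hnn x a (fun i _ => ha01 i) (fun i _ => hka1 i) ?_
    refine profile (U := u * n) (by positivity) n (fun i => Eqd p q ε1 (2 ^ h) (2 ^ i) x)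
      (fun i => (i : ℝ) * (1 - a i)) ?_ ?_
    · intro i _ hg
      have h4 : D i K := by
        show Dom p q ((K : ℝ) / K) ε1 (2 ^ h) (2 ^ i) x
        rw [div_self hK0.ne']
        exact hg.dom
      have h5 : ka i = K := by
        refine le_antisymm (hkaK i) ?_
        exact Nat.le_findGreatest le_rfl h4
      show (i : ℝ) * (1 - a i) ≤ 0
      rw [haK i h5, sub_self, mul_zero]
    · intro i hin _
      rcases Nat.lt_or_ge (ka i) K with hlt | hge
      · have hGn : gl p q ε1 (2 ^ h) i n x ≤ n := by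
          unfold gl
          refine (Finset.card_filter_le _ _).trans ?_
          rw [Nat.card_Ico]
          omega
        have h4 : ¬ (((((i, ka i + 1), gl p q ε1 (2 ^ h) i n x) : (ℕ × ℕ) × ℕ)) ∈ I) := by
          intro hmem
          apply hnot
          rw [Finset.mem_biUnion]
          exact ⟨_, hmem, Finset.mem_filter.2 ⟨hx, hka2 i hlt, le_rfl⟩⟩
        have h5 : (1 - u + σ / 2) * n < (((ka i + 1 : ℕ) : ℝ) / K) * i +
            gl p q ε1 (2 ^ h) i n x := by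
          by_contra hle
          push Not at hle
          apply h4
          rw [hI, Finset.mem_filter, Finset.mem_product, Finset.mem_product, Finset.mem_range,
            Finset.mem_Icc, Finset.mem_range]
          exact ⟨⟨⟨hin, Nat.succ_le_succ (Nat.zero_le _), hlt⟩, Nat.lt_succ_of_le hGn⟩, hle⟩
        refine le_trans ?_ (le_max_right _ _)
        have h6 : (((Finset.Ico i n).filter fun l => ¬ Eqd p q ε1 (2 ^ h) (2 ^ l) x).card : ℝ) =
            (n : ℝ) - i - gl p q ε1 (2 ^ h) i n x := by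
          have h7 := Finset.card_filter_add_card_filter_not (s := Finset.Ico i n)
            (fun l => Eqd p q ε1 (2 ^ h) (2 ^ l) x)
          rw [Nat.card_Ico] at h7
          unfold gl
          have h8 : (((Finset.Ico i n).filter fun l => Eqd p q ε1 (2 ^ h) (2 ^ l) x).card : ℝ) +
              ((Finset.Ico i n).filter fun l => ¬ Eqd p q ε1 (2 ^ h) (2 ^ l) x).card =
              (n : ℝ) - i := by
            rw [← Nat.cast_sub hin.le]
            exact_mod_cast h7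
          linarith
        rw [h6]
        have h7 : (((ka i + 1 : ℕ) : ℝ) / K) * i = a i * i + 1 / K * i := by
          rw [ha]; push_cast; ring
        rw [h7] at h5
        have hinR : (i : ℝ) ≤ n := by exact_mod_cast hin.le
        have h8 : 1 / (K : ℝ) * i ≤ σ / 2 * n := by gcongr
        show (i : ℝ) * (1 - a i) ≤ u * n - (n - i - gl p q ε1 (2 ^ h) i n x)
        linarith
      · have h5 : ka i = K := le_antisymm (hkaK i) hge
        have h6 : (i : ℝ) * (1 - a i) = 0 := by rw [haK i h5, sub_self, mul_zero]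
        exact h6.le.trans (le_max_left _ _)
  have hIcard : (I.card : ℝ) ≤ K * ((n : ℝ) + 1) ^ 2 := by
    have h4 : I.card ≤ n * K * (n + 1) := by
      refine (Finset.card_filter_le _ _).trans ?_
      rw [Finset.card_product, Finset.card_product, Finset.card_range, Nat.card_Icc,
        Finset.card_range, Nat.add_sub_cancel]
    have h5 : (I.card : ℝ) ≤ n * K * (n + 1) := by exact_mod_cast h4
    refine h5.trans ?_
    have hn' : (0 : ℝ) ≤ n := Nat.cast_nonneg n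
    have h6 : 0 ≤ (K : ℝ) * (n + 1) := by positivity
    nlinarith
  have hmain : (F.card : ℝ) ≤ (K * ((n : ℝ) + 1) ^ 2) *
      (Cm * 2 ^ ((1 - u + σ / 2) * n + σ / 4 * n)) := by
    have h4 : (F.card : ℝ) ≤ ∑ w ∈ I, ((P w).card : ℝ) := by
      exact_mod_cast (Finset.card_le_card hcover).trans Finset.card_biUnion_le
    refine h4.trans ((Finset.sum_le_card_nsmul _ _ _ hPcard).trans ?_)
    rw [nsmul_eq_mul]
    gcongr
  have h4 := hCp n
  have h5 : (2 : ℝ) ^ ((1 - u + σ / 2) * n + σ / 4 * n) * 2 ^ (σ / 4 * n) =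
      2 ^ ((1 - u + σ) * n) := by
    rw [← Real.rpow_add (by norm_num)]
    congr 1
    ring
  calc (F.card : ℝ) ≤ (K * ((n : ℝ) + 1) ^ 2) *
        (Cm * 2 ^ ((1 - u + σ / 2) * n + σ / 4 * n)) := hmain
    _ ≤ (K * (Cp * 2 ^ (σ / 4 * n))) * (Cm * 2 ^ ((1 - u + σ / 2) * n + σ / 4 * n)) := by gcongr
    _ = K * Cm * Cp * (2 ^ ((1 - u + σ / 2) * n + σ / 4 * n) * 2 ^ (σ / 4 * n)) := by ring
    _ = K * Cm * Cp * 2 ^ ((1 - u + σ) * n) := by rw [h5]
    _ ≤ (2 ^ n0 + K * Cm * Cp) * 2 ^ ((1 - u + σ) * n) := by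
      gcongr
      have : (0 : ℝ) < 2 ^ n0 := by positivity
      linarith

end Pool.Agent.TH338.DD
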