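import Pool.Agent.TH338.DD.SemDim

/-!
The averages over the semigroup: points that do not dominate, and the exact dimension.
-/

set_option autoImplicit false

open MeasureTheory Filter Topology Set
open scoped ENNReal NNReal MeasureTheory

namespace Pool.Agent.TH338.DD

open Pool.Agent.W764.HL Pool.Agent.W764.SH
open Pool.Agent.W764.FB (T)

/-- the points do not dominate -/
lemma not_semR {p q : ℕ} (hp : 2 ≤ p) (hq : 2 ≤ q) (hpq : Nat.Coprime p q) {κ : ℕ} {P : ℕ}
    (hP : 2 ≤ P) (hPp : P = p ^ κ) {s u : ℝ} (hs0 : 0 < s) (hu0 : 0 ≤ u) (hsu : u < 1 - s)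
    (d : ℕ → Fin (P - 1)) : ¬ SemR p q (1 - u ^ 2) ((pt (pl s) hP d : ℝ) : T) := by
  classical
  intro hD
  obtain ⟨hlp, hlq⟩ := log_pos' hp hq
  have hPR : (2 : ℝ) ≤ P := by exact_mod_cast hP
  have hlP : 0 < Real.log P := Real.log_pos (by linarith)
  have hs1 : s ≤ 1 := by linarith
  set x : T := ((pt (pl s) hP d : ℝ) : T) with hx
  set α : ℝ := Real.log p with hα
  set β : ℝ := Real.log q with hβ
  set v : ℝ := 1 - s with hv
  have hv1 : v ≤ 1 := by rw [hv]; linarith
  have hv0 : 0 < v := by linarith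
  set g : ℝ := v ^ 2 - u ^ 2 with hg
  have hg0 : 0 < g := by
    rw [hg, sub_pos]
    exact pow_lt_pow_left₀ hsu hu0 (by norm_num)
  have hg1 : g ≤ 1 := by
    have h1 : v ^ 2 ≤ 1 := pow_le_one₀ hv0.le hv1
    have h2 := sq_nonneg u
    rw [hg]; linarith
  have hgv : g ≤ v := by
    have h1 : v ^ 2 ≤ v := by
      rw [sq]; exact mul_le_of_le_one_left hv0.le hv1
    have h2 := sq_nonneg u
    rw [hg]; linarith
  set ρ : ℝ := g / 32 with hρ
  have hρ0 : 0 < ρ := by positivity
  obtain ⟨N0, hN0⟩ := hD (g / 8) (by positivity)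
  -- the size of `N`
  set L0 : ℝ := max (Real.log (max N0 1)) (1 + 16 * (2 * α + β) * (1 + β) / g) with hL0
  have hL0a : Real.log (max N0 1) ≤ L0 := le_max_left _ _
  have hL0b : 1 + 16 * (2 * α + β) * (1 + β) / g ≤ L0 := le_max_right _ _
  have hL0c : 0 ≤ L0 := le_trans (by positivity) hL0b
  set B : ℝ := (|Real.log ρ| + L0) / Real.log P + 1 with hB
  have hB0 : 0 ≤ B := by positivity
  obtain ⟨k, hk⟩ := (long_gap (A := 1) (B := B) (θ := s + g / 16) hs0 hs1 (by linarith)
    one_pos).exists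
  obtain ⟨hUV, hgap⟩ := pl_gap hs0 hs1 (k := k)
  set U := pl s (k.factorial - 1) + 1 with hU
  set V := pl s k.factorial with hV
  rw [one_mul] at hk
  set N : ℝ := ρ * (P : ℝ) ^ V with hN
  have hNp : 0 < N := by positivity
  set L : ℝ := Real.log N with hL
  have hLV : L = V * Real.log P + Real.log ρ := by
    rw [hL, hN, Real.log_mul hρ0.ne' (by positivity), Real.log_pow]
    ring
  have hU0 : (0 : ℝ) ≤ U := Nat.cast_nonneg _
  have hV0 : (0 : ℝ) ≤ V := Nat.cast_nonneg _
  have hsg : s + g / 16 ≤ 1 := by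
    have : v = 1 - s := hv
    linarith
  have hBV : B ≤ V := by
    have : (s + g / 16) * (V : ℝ) ≤ 1 * V := by gcongr
    linarith
  have hBP : B * Real.log P = |Real.log ρ| + L0 + Real.log P := by
    rw [hB]; field_simp
  have hρa := neg_abs_le (Real.log ρ)
  have hLL : L0 ≤ L := by
    rw [hLV]
    have : B * Real.log P ≤ V * Real.log P := by gcongr
    linarith
  have hNN : N0 ≤ N := by
    exact (le_max_left _ _).trans ((Real.log_le_log_iff (by positivity) hNp).1 (hL0a.trans hLL))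
  have hN1 : 1 ≤ N := by
    exact (le_max_right _ _).trans ((Real.log_le_log_iff (by positivity) hNp).1 (hL0a.trans hLL))
  have hL1 : 1 + 16 * (2 * α + β) * (1 + β) / g ≤ L := hL0b.trans hLL
  have hLp : 1 ≤ L := by
    have : 0 ≤ 16 * (2 * α + β) * (1 + β) / g := by positivity
    linarith
  have hLg : 16 * (2 * α + β) * (1 + β) ≤ g * L := by
    have h1 : 16 * (2 * α + β) * (1 + β) / g ≤ L := by linarith
    rw [div_le_iff₀ hg0] at h1
    linarith
  have hdom := hN0 N hNN ((1 / 2 : ℝ) : T) (1 / 2 - 2 * ρ) (by rw [hρ]; linarith) (by linarith)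
  have hfar := vis_far (p := p) (q := q) (X := 1) (Y := N) (x := x) hρ0
  have hnear := near_zero (q := q) (X := 1) (Y := N) (ρ := ρ) (pl_mono hs0 hs1) hP hPp d hUV hgap
    le_rfl
  set W := win p q 1 N with hW
  -- the gap
  have hUL : U * Real.log P ≤ (s + g / 16) * L := by
    have h1 : ((U : ℝ) + B) * Real.log P ≤ (s + g / 16) * V * Real.log P := by gcongr
    rw [add_mul, hBP] at h1
    have h2 : V * Real.log P = L - Real.log ρ := by rw [hLV]; ring
    have h3 : (s + g / 16) * V * Real.log P = (s + g / 16) * L - (s + g / 16) * Real.log ρ := by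
      rw [mul_assoc, h2]; ring
    rw [h3] at h1
    have h4 : -((s + g / 16) * Real.log ρ) ≤ 1 * |Real.log ρ| := by
      have a1 : -Real.log ρ ≤ |Real.log ρ| := neg_le_abs _
      calc -((s + g / 16) * Real.log ρ) = (s + g / 16) * (-Real.log ρ) := by ring
        _ ≤ (s + g / 16) * |Real.log ρ| := by gcongr
        _ ≤ 1 * |Real.log ρ| := by gcongr
    linarith
  have hdiff : (v - g / 16) * L ≤ L - U * Real.log P := by
    have : v = 1 - s := hv
    rw [this]
    linarith
  have hvg : 0 < v - g / 16 := by linarith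
  have hlow : (L - U * Real.log P) ^ 2 / (2 * α * β) ≤
      ((win p q (1 / (P : ℝ) ^ U) (N / (P : ℝ) ^ U)).card : ℝ) := by
    have hNU : 1 ≤ N / (P : ℝ) ^ U := by
      have h1 : 0 ≤ Real.log (N / (P : ℝ) ^ U) := by
        rw [Real.log_div hNp.ne' (by positivity), Real.log_pow]
        have : 0 ≤ (v - g / 16) * L := by positivity
        linarith
      exact (Real.log_nonneg_iff (by positivity)).1 h1
    have h1 := sem_lower hp hq hpq hNU
    rw [Real.log_div hNp.ne' (by positivity), Real.log_pow] at h1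
    refine h1.trans ?_
    have h2 : (1 : ℝ) / (P : ℝ) ^ U ≤ 1 := by
      rw [div_le_one (by positivity)]
      exact one_le_pow₀ (by linarith)
    exact_mod_cast Finset.card_le_card (win_sub h2 le_rfl)
  have hup := win_upper hp hq hpq hN1
  have hkey : (v ^ 2 - g / 4) * W.card ≤ (vis p q 1 N x 0 ρ : ℝ) := by
    have hvg2 : 0 ≤ v ^ 2 - g / 4 := by
      have : g ≤ v ^ 2 := by rw [hg]; linarith [sq_nonneg u]
      linarith
    calc (v ^ 2 - g / 4) * W.card
        ≤ (v ^ 2 - g / 4) * (1 / (2 * α * β) * (L ^ 2 + (2 * α + β) * (L + β))) := by gcongr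
      _ = ((v ^ 2 - g / 4) * (L ^ 2 + (2 * α + β) * (L + β))) / (2 * α * β) := by ring
      _ ≤ ((v - g / 16) * L) ^ 2 / (2 * α * β) := by
          gcongr
          have a1 : (v ^ 2 - g / 4) * ((2 * α + β) * (L + β)) ≤ 1 * ((2 * α + β) * (L + β)) := by
            have : v ^ 2 ≤ 1 := pow_le_one₀ hv0.le hv1
            gcongr
            linarith
          have a2 : (2 * α + β) * (L + β) ≤ (2 * α + β) * (L * (1 + β)) := by
            gcongr
            have := mul_le_mul_of_nonneg_right hLp hlq.le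
            linarith
          have a3 : (2 * α + β) * (L * (1 + β)) ≤ g / 16 * L ^ 2 := by
            have := mul_le_mul_of_nonneg_right hLg (show 0 ≤ L / 16 by positivity)
            linarith only [this]
          have a4 : (v ^ 2 - g / 8) * L ^ 2 ≤ ((v - g / 16) * L) ^ 2 := by
            rw [mul_pow]
            gcongr
            have := mul_le_mul_of_nonneg_left hv1 hg0.le
            linarith only [this, sq_nonneg g]
          linarith only [a1, a2, a3, a4, mul_pos hg0 (pow_pos (lt_of_lt_of_le one_pos hLp) 2)]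
      _ ≤ (L - U * Real.log P) ^ 2 / (2 * α * β) := by
          gcongr
      _ ≤ _ := hlow
      _ ≤ _ := by exact_mod_cast hnear
  have hWR : (0 : ℝ) < W.card := by
    have h1 := sem_lower hp hq hpq hN1
    have h2 : 0 < Real.log N ^ 2 / (2 * Real.log p * Real.log q) := by
      have : 0 < Real.log N := by linarith
      positivity
    linarith
  have hfarR : (vis p q 1 N x ((1 / 2 : ℝ) : T) (1 / 2 - 2 * ρ) : ℝ) +
      vis p q 1 N x 0 ρ ≤ W.card := by exact_mod_cast hfar
  have hfin : (2 * (1 / 2 - 2 * ρ) * (1 - u ^ 2) - g / 8) * W.card ≤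
      (1 - (v ^ 2 - g / 4)) * W.card := by
    linarith
  have hfin2 := le_of_mul_le_mul_right hfin hWR
  have hρu : 4 * ρ * (1 - u ^ 2) ≤ 4 * ρ * 1 := by
    gcongr
    linarith [sq_nonneg u]
  have hgg : g = v ^ 2 - u ^ 2 := hg
  rw [hρ] at hρu hfin2
  linarith only [hfin2, hρu, hgg, hg0]

/-- **Exact dimension for the averages over the semigroup.** -/
theorem semR_dim {p q : ℕ} (hp : 2 ≤ p) (hq : 2 ≤ q) (hpq : Nat.Coprime p q) {κ : ℝ} (hκ0 : 0 ≤ κ)
    (hκ1 : κ ≤ 1) : dimH {x : T | ¬ SemR p q κ x} = ENNReal.ofReal (1 - √(1 - κ)) := by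
  set u : ℝ := √(1 - κ) with hu
  have hu0 : 0 ≤ u := Real.sqrt_nonneg _
  have hu2 : u ^ 2 = 1 - κ := Real.sq_sqrt (by linarith)
  have hu1 : u ≤ 1 := by
    by_contra h
    push Not at h
    have : 1 < u ^ 2 := one_lt_pow₀ h (by norm_num)
    linarith
  have hκ : κ = 1 - u ^ 2 := by linarith
  rw [hκ]
  refine le_antisymm ?_ ?_
  · refine le_trans (dimH_mono ?_) (semD_dim hp hq hpq hu0 hu1)
    intro x hx hd
    exact hx (semR_of_semD hp hq hpq (by linarith) hd)
  obtain ⟨hlp, hlq⟩ := log_pos' hp hq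
  have hl2 : 0 < Real.log 2 := Real.log_pos (by norm_num)
  refine ENNReal.le_of_forall_nnreal_lt fun c hc => ?_
  have hcθ : (c : ℝ) < 1 - u := by
    have h1 := (ENNReal.lt_ofReal_iff_toReal_lt ENNReal.coe_ne_top).1 hc
    simpa using h1
  have hc0 : (0 : ℝ) ≤ c := c.2
  set s : ℝ := (c + (1 - u)) / 2 with hs
  have hsc : (c : ℝ) < s := by rw [hs]; linarith
  have hsθ : s < 1 - u := by rw [hs]; linarith
  have hs0 : 0 < s := lt_of_le_of_lt hc0 hsc
  have hs1 : s ≤ 1 := by linarith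
  obtain ⟨κ', hκ'⟩ := exists_nat_ge (max 2 (Real.log 2 / ((1 - c / s) * Real.log p)))
  have hκ2 : (2 : ℝ) ≤ κ' := (le_max_left _ _).trans hκ'
  have hκ3 := (le_max_right (2 : ℝ) _).trans hκ'
  have hcs : 0 < 1 - c / s := by
    rw [sub_pos, div_lt_one hs0]; exact hsc
  rw [div_le_iff₀ (by positivity)] at hκ3
  have hκ2' : 2 ≤ κ' := by exact_mod_cast hκ2
  have hP : 3 ≤ p ^ κ' := by
    calc 3 ≤ 2 ^ 2 := by norm_num
      _ ≤ p ^ 2 := Nat.pow_le_pow_left hp 2
      _ ≤ p ^ κ' := Nat.pow_le_pow_right (by omega) hκ2'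
  have h1 := dim_pts hs0 hs1 hP
  have h2 : (range fun d : ℕ → Fin (p ^ κ' - 1) => ((pt (pl s) (by omega) d : ℝ) : T)) ⊆
      {x : T | ¬ SemR p q (1 - u ^ 2) x} := by
    rintro _ ⟨d, rfl⟩
    exact not_semR hp hq hpq (by omega) rfl hs0 hu0 (by linarith) d
  refine le_trans ?_ (h1.trans (dimH_mono h2))
  rw [← ENNReal.ofReal_coe_nnreal]
  refine ENNReal.ofReal_le_ofReal ?_
  have hPR : (3 : ℝ) ≤ ((p ^ κ' : ℕ) : ℝ) := by exact_mod_cast hP
  have hlP : 0 < Real.log ((p ^ κ' : ℕ) : ℝ) := Real.log_pos (by linarith)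
  have h3 : Real.log ((p ^ κ' : ℕ) : ℝ) = κ' * Real.log p := by
    push_cast
    rw [Real.log_pow]
  have h4 : Real.log ((p ^ κ' : ℕ) : ℝ) - Real.log 2 ≤ Real.log ((p ^ κ' - 1 : ℕ) : ℝ) := by
    rw [← Real.log_div (by linarith) (by norm_num)]
    refine Real.log_le_log (by positivity) ?_
    rw [Nat.cast_sub (by omega)]
    push_cast at hPR ⊢
    linarith
  have h5 : (c : ℝ) / s ≤ Real.log ((p ^ κ' - 1 : ℕ) : ℝ) / Real.log ((p ^ κ' : ℕ) : ℝ) := by
    rw [le_div_iff₀ hlP]
    rw [h3] at h4 ⊢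
    nlinarith
  rw [div_le_iff₀ hs0] at h5
  linarith

end Pool.Agent.TH338.DD
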