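import Pool.Agent.TH338.DD.Dim

/-!
From equidistributed windows to the averages over the semigroup.
-/

set_option autoImplicit false

open MeasureTheory Filter Topology Set

namespace Pool.Agent.TH338.DD

open Pool.Agent.W764.HL Pool.Agent.W764.SH
open Pool.Agent.W764.FB (T)

/-- the slabs contain many points -/
lemma cnt_lower {α β x δ : ℝ} (hα : 0 < α) (hβ : 0 < β) (hx : 0 ≤ x) (hδ : α ≤ δ) :
    x / β * (δ / α - 1) ≤ cnt α β x δ := by
  classical
  set B : ℕ := ⌊x / β⌋₊ + 1 with hB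
  set lo : ℕ → ℕ := fun b => ⌈(x - b * β) / α⌉₊ with hlo
  set hi : ℕ → ℕ := fun b => ⌈(x - b * β) / α + δ / α⌉₊ with hhi
  have hb : ∀ b ∈ Finset.range B, 0 ≤ x - b * β := by
    intro b hb
    rw [Finset.mem_range, hB, Nat.lt_succ_iff] at hb
    have h1 : (b : ℝ) ≤ x / β := (Nat.le_floor_iff (by positivity)).1 hb
    rw [le_div_iff₀ hβ] at h1
    linarith
  set S : Finset ((_ : ℕ) × ℕ) := (Finset.range B).sigma fun b => Finset.Ico (lo b) (hi b) with hS
  have h1 : (S.card : ℝ) ≥ B * (δ / α - 1) := by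
    rw [hS, Finset.card_sigma]
    push_cast
    have h2 : ∀ b ∈ Finset.range B, (δ / α - 1) ≤ (((Finset.Ico (lo b) (hi b)).card : ℕ) : ℝ) := by
      intro b hb'
      have h3 := hb b hb'
      rw [Nat.card_Ico]
      have h4 : (x - b * β) / α + δ / α ≤ hi b := Nat.le_ceil _
      have h5 : (lo b : ℝ) < (x - b * β) / α + 1 := Nat.ceil_lt_add_one (by positivity)
      have h6 : (lo b : ℝ) ≤ (hi b : ℝ) := by
        have h7 : 1 ≤ δ / α := by rw [le_div_iff₀ hα]; linarith
        linarith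
      have h7 : lo b ≤ hi b := by exact_mod_cast h6
      rw [Nat.cast_sub h7]
      linarith
    have h3 := Finset.card_nsmul_le_sum (Finset.range B)
      (fun b => (((Finset.Ico (lo b) (hi b)).card : ℕ) : ℝ)) _ h2
    rw [Finset.card_range, nsmul_eq_mul] at h3
    exact h3
  have h2 : S.card ≤ cnt α β x δ := by
    unfold cnt
    rw [← Set.ncard_coe_finset]
    refine Set.ncard_le_ncard_of_injOn (fun u : (_ : ℕ) × ℕ => ((u.2, u.1) : ℕ × ℕ)) ?_ ?_
      (slab_finite hα hβ _ _)
    · rintro ⟨b, a⟩ hu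
      rw [hS, Finset.mem_coe, Finset.mem_sigma, Finset.mem_Ico] at hu
      obtain ⟨h3, h4, h5⟩ := hu
      simp only at h3 h4 h5
      have h6 : (x - b * β) / α ≤ a := (Nat.ceil_le).1 h4
      have h7 : (a : ℝ) < (x - b * β) / α + δ / α := (Nat.lt_ceil).1 h5
      rw [← add_div, lt_div_iff₀ hα] at h7
      rw [div_le_iff₀ hα] at h6
      exact ⟨by simp only; linarith, by simp only; linarith⟩
    · rintro ⟨b, a⟩ _ ⟨b', a'⟩ _ h
      simp only [Prod.mk.injEq] at h
      obtain ⟨rfl, rfl⟩ := h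
      rfl
  have h3 : x / β ≤ B := by
    rw [hB]; push_cast
    exact (Nat.lt_floor_add_one _).le
  have h4 : 0 ≤ δ / α - 1 := by
    rw [sub_nonneg, le_div_iff₀ hα]; linarith
  calc x / β * (δ / α - 1) ≤ B * (δ / α - 1) := by gcongr
    _ ≤ S.card := h1
    _ ≤ cnt α β x δ := by exact_mod_cast h2

/-- the triangle contains few points -/
lemma cnt_upper {α β x : ℝ} (hα : 0 < α) (hβ : 0 < β) (hx : 0 ≤ x) :
    (cnt α β 0 x : ℝ) ≤ 1 / (2 * α * β) * (x ^ 2 + (2 * α + β) * (x + β)) := by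
  classical
  set B : ℕ := ⌈x / β⌉₊ with hB
  set S : Finset ((_ : ℕ) × ℕ) := (Finset.range B).sigma fun b =>
    Finset.range ⌈(x - b * β) / α⌉₊ with hS
  have hb : ∀ b ∈ Finset.range B, 0 ≤ x - b * β := by
    intro b hb
    rw [Finset.mem_range, hB, Nat.lt_ceil, lt_div_iff₀ hβ] at hb
    linarith
  have h1 : cnt α β 0 x ≤ S.card := by
    unfold cnt
    rw [← Set.ncard_coe_finset]
    refine Set.ncard_le_ncard_of_injOn (fun u : ℕ × ℕ => (⟨u.2, u.1⟩ : (_ : ℕ) × ℕ)) ?_ ?_
      (Finset.finite_toSet _)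
    · rintro ⟨a, b⟩ ⟨h2, h3⟩
      simp only [zero_add] at h2 h3
      rw [hS, Finset.mem_coe, Finset.mem_sigma, Finset.mem_range, Finset.mem_range]
      have ha0 : (0 : ℝ) ≤ a * α := by positivity
      have hb0 : (0 : ℝ) ≤ b * β := by positivity
      constructor
      · show b < B
        rw [hB, Nat.lt_ceil, lt_div_iff₀ hβ]; linarith
      · show a < _
        rw [Nat.lt_ceil, lt_div_iff₀ hα]; linarith
    · rintro ⟨a, b⟩ _ ⟨a', b'⟩ _ h
      simp only [Sigma.mk.injEq, heq_eq_eq] at h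
      obtain ⟨rfl, rfl⟩ := h
      rfl
  have h2 : (S.card : ℝ) ≤ ∑ b ∈ Finset.range B, ((x - b * β) / α + 1) := by
    rw [hS, Finset.card_sigma]
    push_cast
    refine Finset.sum_le_sum fun b hb' => ?_
    rw [Finset.card_range]
    have := hb b hb'
    exact (Nat.ceil_lt_add_one (by positivity)).le
  have h3 : ∑ b ∈ Finset.range B, ((x - b * β) / α + 1) =
      B * (x / α + 1) - β / α * (B * (B - 1) / 2) := by
    have h4 : ∀ k : ℕ, ∑ b ∈ Finset.range k, ((x - b * β) / α + 1) =
        k * (x / α + 1) - β / α * (k * (k - 1) / 2) := by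
      intro k
      induction k with
      | zero => simp
      | succ k ih =>
        rw [Finset.sum_range_succ, ih]
        push_cast
        field_simp
        ring
    exact h4 B
  set u : ℝ := B * β with hu
  have hu1 : x ≤ u := by
    have : x / β ≤ B := Nat.le_ceil _
    rwa [div_le_iff₀ hβ] at this
  have hu2 : u ≤ x + β := by
    have : (B : ℝ) < x / β + 1 := Nat.ceil_lt_add_one (by positivity)
    have h5 : (B : ℝ) * β < (x / β + 1) * β := by gcongr
    have h6 : (x / β + 1) * β = x + β := by field_simp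
    linarith
  have h4 : (B : ℝ) * (x / α + 1) - β / α * (B * (B - 1) / 2) =
      1 / (2 * α * β) * (x ^ 2 - (u - x) ^ 2 + (2 * α + β) * u) := by
    rw [hu]
    field_simp
    ring
  calc (cnt α β 0 x : ℝ) ≤ S.card := by exact_mod_cast h1
    _ ≤ _ := h2
    _ = _ := h3
    _ = _ := h4
    _ ≤ 1 / (2 * α * β) * (x ^ 2 + (2 * α + β) * (x + β)) := by
      have h5 : 0 ≤ (u - x) ^ 2 := sq_nonneg _
      have h6 : (2 * α + β) * u ≤ (2 * α + β) * (x + β) := by gcongr
      have h7 : x ^ 2 - (u - x) ^ 2 + (2 * α + β) * u ≤ x ^ 2 + (2 * α + β) * (x + β) := by linarith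
      gcongr

/-- sums over subsets of the naturals -/
lemma sum_ge (k : ℕ) : ∀ G : Finset ℕ, G.card = k → (k : ℝ) * (k - 1) / 2 ≤ ∑ i ∈ G, (i : ℝ) := by
  induction k with
  | zero =>
    intro G hG
    rw [Finset.card_eq_zero] at hG
    subst hG
    simp
  | succ k ih =>
    intro G hG
    have hne : G.Nonempty := Finset.card_pos.1 (by omega)
    set M := G.max' hne with hM
    have hMG : M ∈ G := Finset.max'_mem _ _
    have h1 := ih (G.erase M) (by rw [Finset.card_erase_of_mem hMG]; omega)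
    have h2 : k ≤ M := by
      have h3 : G ⊆ Finset.range (M + 1) := by
        intro i hi
        rw [Finset.mem_range]
        have := Finset.le_max' G i hi
        omega
      have := Finset.card_le_card h3
      rw [Finset.card_range] at this
      omega
    have h3 : (k : ℝ) ≤ M := by exact_mod_cast h2
    rw [← Finset.add_sum_erase G _ hMG]
    push_cast
    nlinarith

/-- double counting -/
lemma double {p q h n : ℕ} {x c : T} {r : ℝ} :
    ∑ i ∈ Finset.range n, vis p q (2 ^ i) (2 ^ h * 2 ^ i) x c r ≤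
      h * vis p q 1 (2 ^ (n + h)) x c r := by
  classical
  set V : Finset ℕ := (win p q 1 (2 ^ (n + h))).filter fun k => ‖k • x - c‖ ≤ r with hV
  have h1 : ∑ i ∈ Finset.range n, vis p q (2 ^ i) (2 ^ h * 2 ^ i) x c r ≤
      ∑ i ∈ Finset.range n, (V.filter fun k => 2 ^ i ≤ k ∧ k < 2 ^ (h + i)).card := by
    refine Finset.sum_le_sum fun i hi => ?_
    rw [Finset.mem_range] at hi
    unfold vis
    refine Finset.card_le_card fun k hk => ?_
    rw [Finset.mem_filter, mem_win] at hk
    obtain ⟨⟨h2, h3, h4⟩, h5⟩ := hk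
    rw [← pow_add] at h4
    rw [Finset.mem_filter, hV, Finset.mem_filter, mem_win]
    refine ⟨⟨⟨h2, ?_, ?_⟩, h5⟩, ?_, ?_⟩
    · refine le_trans ?_ h3
      exact one_le_pow₀ (by norm_num)
    · refine h4.trans_le ?_
      exact pow_le_pow_right₀ (by norm_num) (by omega)
    · exact_mod_cast h3
    · exact_mod_cast h4
  refine h1.trans ?_
  have h2 : ∑ i ∈ Finset.range n, (V.filter fun k => 2 ^ i ≤ k ∧ k < 2 ^ (h + i)).card =
      ∑ k ∈ V, ((Finset.range n).filter fun i => 2 ^ i ≤ k ∧ k < 2 ^ (h + i)).card := by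
    simp_rw [Finset.card_filter]
    exact Finset.sum_comm
  rw [h2]
  have h3 : ∀ k ∈ V, ((Finset.range n).filter fun i => 2 ^ i ≤ k ∧ k < 2 ^ (h + i)).card ≤ h := by
    intro k hk
    have h4 : (Finset.range n).filter (fun i => 2 ^ i ≤ k ∧ k < 2 ^ (h + i)) ⊆
        Finset.Ico (Nat.log 2 k + 1 - h) (Nat.log 2 k + 1) := by
      intro i hi
      rw [Finset.mem_filter] at hi
      obtain ⟨-, h5, h6⟩ := hi
      have hk0 : k ≠ 0 := by
        intro h0
        subst h0
        have : 0 < 2 ^ i := by positivity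
        omega
      rw [Finset.mem_Ico]
      have h7 : i ≤ Nat.log 2 k := (Nat.le_log_iff_pow_le (by norm_num) hk0).2 h5
      have h8 : Nat.log 2 k < h + i := (Nat.log_lt_iff_lt_pow (by norm_num) hk0).2 h6
      omega
    refine (Finset.card_le_card h4).trans ?_
    rw [Nat.card_Ico]
    omega
  refine (Finset.sum_le_card_nsmul _ _ _ h3).trans ?_
  rw [smul_eq_mul, Nat.mul_comm]
  unfold vis
  rfl

/-- quadratics dominate -/
lemma quad {a b c : ℝ} (ha : 0 < a) : ∀ᶠ M : ℕ in atTop, b * M + c ≤ a * (M : ℝ) ^ 2 := by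
  obtain ⟨M0, hM0⟩ := exists_nat_ge ((|b| + |c|) / a)
  filter_upwards [eventually_ge_atTop (max M0 1)] with M hM
  have h1 : (1 : ℝ) ≤ M := by exact_mod_cast (le_max_right _ _).trans hM
  have h2 : (|b| + |c|) / a ≤ M := hM0.trans (by exact_mod_cast (le_max_left _ _).trans hM)
  rw [div_le_iff₀ ha] at h2
  have h3 := le_abs_self b
  have h4 := le_abs_self c
  have h5 := abs_nonneg c
  calc b * M + c ≤ |b| * M + |c| * M := by nlinarith
    _ = (|b| + |c|) * M := by ring
    _ ≤ (M * a) * M := by gcongr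
    _ = a * (M : ℝ) ^ 2 := by ring

end Pool.Agent.TH338.DD
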