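import Pool.Agent.TH338.DD.Semi

/-!
The averages over the semigroup dominate a multiple of Lebesgue measure.
-/

set_option autoImplicit false

open MeasureTheory Filter Topology Set

namespace Pool.Agent.TH338.DD

open Pool.Agent.W764.HL Pool.Agent.W764.SH
open Pool.Agent.W764.FB (T)

/-- the windows contain many numbers -/
lemma win_lower {p q : ℕ} (hp : 2 ≤ p) (hq : 2 ≤ q) (hpq : Nat.Coprime p q) {h : ℕ}
    (hh : Real.log p ≤ h * Real.log 2) (i : ℕ) :
    (i * Real.log 2) / Real.log q * (h * Real.log 2 / Real.log p - 1) ≤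
      (win p q (2 ^ i) (2 ^ h * 2 ^ i)).card := by
  obtain ⟨hlp, hlq⟩ := log_pos' hp hq
  have hl2 : 0 < Real.log 2 := Real.log_pos (by norm_num)
  rw [card_win hp hq (irr_of_coprime hp hq hpq) (by positivity) (by positivity)]
  have e1 : Real.log ((2 : ℝ) ^ i) = i * Real.log 2 := Real.log_pow _ _
  have e2 : Real.log ((2 : ℝ) ^ h * 2 ^ i) - Real.log (2 ^ i) = h * Real.log 2 := by
    rw [Real.log_mul (by positivity) (by positivity), Real.log_pow]; ring
  rw [e2, e1]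
  exact cnt_lower hlp hlq (by positivity) hh

/-- the semigroup contains few numbers up to `N` -/
lemma win_upper {p q : ℕ} (hp : 2 ≤ p) (hq : 2 ≤ q) (hpq : Nat.Coprime p q) {N : ℝ} (hN : 1 ≤ N) :
    ((win p q 1 N).card : ℝ) ≤ 1 / (2 * Real.log p * Real.log q) *
      (Real.log N ^ 2 + (2 * Real.log p + Real.log q) * (Real.log N + Real.log q)) := by
  obtain ⟨hlp, hlq⟩ := log_pos' hp hq
  rw [card_win hp hq (irr_of_coprime hp hq hpq) one_pos (by linarith), Real.log_one, sub_zero]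
  exact cnt_upper hlp hlq (Real.log_nonneg hN)

lemma vis_mono {p q : ℕ} {X Y Y' : ℝ} (h : Y ≤ Y') (x c : T) (r : ℝ) :
    vis p q X Y x c r ≤ vis p q X Y' x c r := by
  classical
  unfold vis
  refine Finset.card_le_card fun k hk => ?_
  rw [Finset.mem_filter, mem_win] at hk ⊢
  exact ⟨⟨hk.1.1, hk.1.2.1, hk.1.2.2.trans_le h⟩, hk.2⟩

lemma alg {h a b l r ε G : ℝ} (ha : a ≠ 0) (hb : b ≠ 0) (hl : l ≠ 0) (hh : h ≠ 0) :
    h / (2 * a * b) * ((2 * r - ε) * (1 - a / (l * h)) * l ^ 2 * G) =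
      (2 * r - ε) * (l / b * (h * l / a - 1)) * (G / 2) := by
  field_simp

/-- **Averages over the semigroup.** -/
theorem semi {p q : ℕ} (hp : 2 ≤ p) (hq : 2 ≤ q) (hpq : Nat.Coprime p q) {s : ℝ} (hs0 : 0 ≤ s)
    (hs1 : s ≤ 1) {x : T} (hx : ∀ θ < s, Dens p q θ x) (c : T) {r : ℝ} (hr0 : 0 ≤ r)
    (hr : r ≤ 1 / 2) {δ : ℝ} (hδ : 0 < δ) : ∀ᶠ N : ℕ in atTop,
      (2 * r * s ^ 2 - δ) * (win p q 1 N).card ≤ (vis p q 1 N x c r : ℝ) := by
  classical
  obtain ⟨hlp, hlq⟩ := log_pos' hp hq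
  have hl2 : 0 < Real.log 2 := Real.log_pos (by norm_num)
  rcases le_or_gt (2 * r * s ^ 2) δ with htriv | hbig
  · refine Eventually.of_forall fun N => ?_
    refine le_trans ?_ (Nat.cast_nonneg _)
    exact mul_nonpos_of_nonpos_of_nonneg (by linarith) (Nat.cast_nonneg _)
  have hs2 : s ^ 2 ≤ 1 := pow_le_one₀ hs0 hs1
  have h2r : 2 * r ≤ 1 := by linarith
  have hs2' : 2 * r * s ^ 2 ≤ 2 * r := mul_le_of_le_one_right (by linarith) hs2
  have hδ1 : δ < 1 := by linarith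
  have hspos : 0 < s := by
    rcases eq_or_lt_of_le hs0 with h0 | h0
    · exfalso
      rw [← h0] at hbig
      norm_num at hbig
      linarith
    · exact h0
  set θ : ℝ := max (s / 2) (s - δ / 16) with hθ
  have hθs : θ < s := max_lt (by linarith) (by linarith)
  have hθ0 : 0 < θ := lt_of_lt_of_le (by linarith) (le_max_left _ _)
  have hθ1 : θ ≤ 1 := by linarith
  have hθ2 : s ^ 2 - δ / 8 ≤ θ ^ 2 := by
    have h1 : s - δ / 16 ≤ θ := le_max_right _ _
    nlinarith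
  set ε : ℝ := δ / 8 with hε
  obtain ⟨H0, hH0⟩ := hx θ hθs ε (by positivity)
  obtain ⟨h, hhdef⟩ := exists_nat_ge (max (max (H0 : ℝ) 1)
    (max (Real.log p / Real.log 2) (8 * Real.log p / (Real.log 2 * δ))))
  have hh1 : (H0 : ℝ) ≤ h := ((le_max_left _ _).trans (le_max_left _ _)).trans hhdef
  have hh2 : (1 : ℝ) ≤ h := ((le_max_right _ _).trans (le_max_left _ _)).trans hhdef
  have hh3 : Real.log p / Real.log 2 ≤ h := ((le_max_left _ _).trans (le_max_right _ _)).trans hhdef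
  have hh4 : 8 * Real.log p / (Real.log 2 * δ) ≤ h :=
    ((le_max_right _ _).trans (le_max_right _ _)).trans hhdef
  have hh0 : (0 : ℝ) < h := by linarith
  rw [div_le_iff₀ hl2] at hh3
  set t : ℝ := Real.log p / (Real.log 2 * h) with ht
  have ht0 : 0 ≤ t := by positivity
  have ht1 : t ≤ δ / 8 := by
    rw [div_le_iff₀ (by positivity)] at hh4
    rw [ht, div_le_iff₀ (by positivity)]
    linarith
  have hHH : H0 ≤ 2 ^ h := by
    have h1 : H0 ≤ h := by exact_mod_cast hh1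
    exact h1.trans Nat.lt_two_pow_self.le
  have hgc := hH0 (2 ^ h) hHH
  set A : ℝ := (2 * r - ε) * (1 - t) with hA
  have hA1 : 2 * r - δ / 4 ≤ A := by
    rw [hA, hε]
    nlinarith
  have hA2 : A ≤ 1 := by
    rw [hA, hε]
    nlinarith
  have hA0 : 0 < A := by linarith
  set κ : ℝ := 2 * r * s ^ 2 - δ with hκ
  have hκ0 : 0 < κ := by linarith
  have hκ1 : κ ≤ 1 := by linarith
  have hdiff : δ / 2 ≤ A * θ ^ 2 - κ := by
    have h1 : (2 * r - δ / 4) * (s ^ 2 - δ / 8) ≤ A * θ ^ 2 := by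
      have h2 : 0 ≤ θ ^ 2 := sq_nonneg _
      have h3 : (2 * r - δ / 4) * (s ^ 2 - δ / 8) ≤ (2 * r - δ / 4) * θ ^ 2 :=
        mul_le_mul_of_nonneg_left hθ2 (by linarith)
      have h4 : (2 * r - δ / 4) * θ ^ 2 ≤ A * θ ^ 2 := mul_le_mul_of_nonneg_right hA1 h2
      linarith
    have h2 : (2 * r - δ / 4) * (s ^ 2 - δ / 8) =
        2 * r * s ^ 2 - 2 * r * (δ / 8) - δ / 4 * s ^ 2 + δ / 4 * (δ / 8) := by ring
    have h3 : 2 * r * (δ / 8) ≤ δ / 8 := mul_le_of_le_one_left (by positivity) h2r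
    have h4 : δ / 4 * s ^ 2 ≤ δ / 4 := mul_le_of_le_one_right (by positivity) hs2
    have h5 : 0 ≤ δ / 4 * (δ / 8) := by positivity
    rw [hκ]
    linarith
  set P : ℝ := 2 * Real.log p + Real.log q with hP
  have hP0 : 0 < P := by positivity
  set l2 : ℝ := Real.log 2 with hl2d
  -- the conditions on `M`
  have hE1 : ∀ᶠ M : ℕ in atTop, θ * ((M - h : ℕ) : ℝ) ≤ gc p q ε ((2 ^ h : ℕ) : ℝ) (M - h) x :=
    (tendsto_sub_atTop_nat h).eventually hgc
  have hE2 := quad (a := δ / 2 * l2 ^ 2) (b := l2 ^ 2 * (2 * h + 1) + 2 * l2 ^ 2 + P * l2)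
    (c := l2 ^ 2 + P * (l2 + Real.log q)) (by positivity)
  obtain ⟨M1, hM1⟩ := exists_nat_ge (1 / θ + h)
  obtain ⟨M0, hM0⟩ := eventually_atTop.1 (hE1.and (hE2.and (eventually_ge_atTop M1)))
  filter_upwards [eventually_ge_atTop (2 ^ M0)] with N hN
  have hN0 : N ≠ 0 := by
    have : 0 < 2 ^ M0 := by positivity
    omega
  set M := Nat.log 2 N with hM
  have hMM0 : M0 ≤ M := (Nat.le_log_iff_pow_le (by norm_num) hN0).2 hN
  have hMN : 2 ^ M ≤ N := Nat.pow_log_le_self 2 hN0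
  have hMN2 : N < 2 ^ (M + 1) := Nat.lt_pow_succ_log_self (by norm_num) N
  obtain ⟨e1, e2, e3⟩ := hM0 M hMM0
  have e3R : 1 / θ + h ≤ M := hM1.trans (by exact_mod_cast e3)
  have hhM : h ≤ M := by
    have h1 : (h : ℝ) ≤ M := by
      have : 0 < 1 / θ := by positivity
      linarith
    exact_mod_cast h1
  set n := M - h with hn
  have hnR : (n : ℝ) = M - h := by rw [hn, Nat.cast_sub hhM]
  have hnM : n + h = M := by omega
  set G := (Finset.range n).filter fun i => Eqd p q ε ((2 ^ h : ℕ) : ℝ) (2 ^ i) x with hG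
  set g : ℕ := G.card with hg
  have hgg : gc p q ε ((2 ^ h : ℕ) : ℝ) n x = g := by
    rw [hg, hG]
    unfold gc
    congr!
  have hyg : θ * (M - h) ≤ g := by
    rw [hgg, hnR] at e1
    exact e1
  have hy1 : 1 ≤ θ * (M - h) := by
    have h1 : 1 / θ ≤ M - h := by linarith
    rwa [div_le_iff₀ hθ0, mul_comm] at h1
  -- the lower bound
  have hlow : (2 * r - ε) * (l2 / Real.log q * (h * l2 / Real.log p - 1)) *
      ((g : ℝ) * (g - 1) / 2) ≤ h * vis p q 1 N x c r := by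
    have h2re : 0 ≤ 2 * r - ε := by rw [hε]; linarith
    have hK : 0 ≤ l2 / Real.log q * (h * l2 / Real.log p - 1) := by
      have h1 : 1 ≤ h * l2 / Real.log p := by rw [le_div_iff₀ hlp]; linarith
      have h2 : 0 ≤ h * l2 / Real.log p - 1 := by linarith
      positivity
    have h1 : ∑ i ∈ G, (2 * r - ε) * (l2 / Real.log q * (h * l2 / Real.log p - 1)) * (i : ℝ) ≤
        ∑ i ∈ G, (vis p q (2 ^ i) (2 ^ h * 2 ^ i) x c r : ℝ) := by
      refine Finset.sum_le_sum fun i hi => ?_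
      have h2 := (Finset.mem_filter.1 hi).2
      obtain ⟨-, h3⟩ := h2
      have h4 := h3 c r hr0 hr
      push_cast at h4
      rw [abs_le] at h4
      have h5 := win_lower hp hq hpq (h := h) hh3 i
      have h6 : (2 * r - ε) * (l2 / Real.log q * (h * l2 / Real.log p - 1)) * (i : ℝ) =
          (2 * r - ε) * ((i * l2) / Real.log q * (h * l2 / Real.log p - 1)) := by ring
      rw [h6]
      have h7 := mul_le_mul_of_nonneg_left h5 h2re
      linarith [h4.1]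
    have h2 : ∑ i ∈ G, (vis p q (2 ^ i) (2 ^ h * 2 ^ i) x c r : ℝ) ≤
        ∑ i ∈ Finset.range n, (vis p q (2 ^ i) (2 ^ h * 2 ^ i) x c r : ℝ) :=
      Finset.sum_le_sum_of_subset_of_nonneg (Finset.filter_subset _ _)
        fun _ _ _ => Nat.cast_nonneg _
    have h3 : ∑ i ∈ Finset.range n, (vis p q (2 ^ i) (2 ^ h * 2 ^ i) x c r : ℝ) ≤
        h * vis p q 1 (2 ^ (n + h)) x c r := by
      exact_mod_cast double (p := p) (q := q) (h := h) (n := n) (x := x) (c := c) (r := r)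
    have h4 : (vis p q 1 (2 ^ (n + h)) x c r : ℝ) ≤ vis p q 1 N x c r := by
      rw [hnM]
      have h5 : ((2 : ℝ) ^ M) ≤ N := by exact_mod_cast hMN
      exact_mod_cast vis_mono h5 x c r
    have h5 := sum_ge g G rfl
    calc (2 * r - ε) * (l2 / Real.log q * (h * l2 / Real.log p - 1)) * ((g : ℝ) * (g - 1) / 2)
        ≤ (2 * r - ε) * (l2 / Real.log q * (h * l2 / Real.log p - 1)) * ∑ i ∈ G, (i : ℝ) := by
          gcongr
      _ = ∑ i ∈ G, (2 * r - ε) * (l2 / Real.log q * (h * l2 / Real.log p - 1)) * (i : ℝ) :=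
          Finset.mul_sum _ _ _
      _ ≤ _ := h1.trans (h2.trans h3)
      _ ≤ h * vis p q 1 N x c r := by gcongr
  -- the upper bound
  have hN1 : (1 : ℝ) ≤ N := by exact_mod_cast Nat.one_le_iff_ne_zero.2 hN0
  have hupp := win_upper hp hq hpq hN1
  have hL0 : 0 ≤ Real.log N := Real.log_nonneg hN1
  have hL1 : Real.log N ≤ (M + 1) * l2 := by
    have h1 : (N : ℝ) ≤ 2 ^ (M + 1) := by exact_mod_cast hMN2.le
    have h2 := Real.log_le_log (by linarith) h1
    rw [Real.log_pow] at h2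
    push_cast at h2
    exact h2
  have hM0R : (0 : ℝ) ≤ M := Nat.cast_nonneg M
  -- comparison
  have hcomp : κ * (Real.log N ^ 2 + P * (Real.log N + Real.log q)) ≤
      A * l2 ^ 2 * ((g : ℝ) * (g - 1)) := by
    have h1 : Real.log N ^ 2 ≤ ((M + 1) * l2) ^ 2 := by gcongr
    have h2 : κ * (Real.log N ^ 2 + P * (Real.log N + Real.log q)) ≤
        κ * l2 ^ 2 * (M : ℝ) ^ 2 + (2 * l2 ^ 2 * M + l2 ^ 2 + P * ((M + 1) * l2 + Real.log q)) := by
      calc κ * (Real.log N ^ 2 + P * (Real.log N + Real.log q))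
          ≤ κ * (((M + 1) * l2) ^ 2 + P * ((M + 1) * l2 + Real.log q)) := by gcongr
        _ = κ * l2 ^ 2 * (M : ℝ) ^ 2 +
            κ * (2 * l2 ^ 2 * M + l2 ^ 2 + P * ((M + 1) * l2 + Real.log q)) := by ring
        _ ≤ κ * l2 ^ 2 * (M : ℝ) ^ 2 +
            1 * (2 * l2 ^ 2 * M + l2 ^ 2 + P * ((M + 1) * l2 + Real.log q)) := by gcongr
        _ = _ := by ring
    have h3 : θ ^ 2 * (M : ℝ) ^ 2 - (2 * h + 1) * M ≤ (g : ℝ) * (g - 1) := by
      have h4 : θ * (M - h) * (θ * (M - h) - 1) ≤ (g : ℝ) * (g - 1) := by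
        apply mul_le_mul hyg (by linarith) (by linarith)
        exact Nat.cast_nonneg g
      have h5 : θ ^ 2 ≤ 1 := pow_le_one₀ hθ0.le hθ1
      have h6 : θ ^ 2 * ((h : ℝ) * M) ≤ 1 * (h * M) := by gcongr
      have h7 : θ * (M : ℝ) ≤ 1 * M := by gcongr
      have h8 : 0 ≤ θ ^ 2 * (h : ℝ) ^ 2 := by positivity
      have h9 : 0 ≤ θ * (h : ℝ) := by positivity
      have h10 : θ * (M - h) * (θ * (M - h) - 1) = θ ^ 2 * (M : ℝ) ^ 2 - 2 * (θ ^ 2 * (h * M)) +
          θ ^ 2 * (h : ℝ) ^ 2 - θ * M + θ * h := by ring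
      linarith
    have h4 : A * l2 ^ 2 * (θ ^ 2 * (M : ℝ) ^ 2 - (2 * h + 1) * M) ≤
        A * l2 ^ 2 * ((g : ℝ) * (g - 1)) := by gcongr
    have h5 : A * (l2 ^ 2 * ((2 * h + 1) * M)) ≤ 1 * (l2 ^ 2 * ((2 * h + 1) * M)) := by gcongr
    have h6 : δ / 2 * (l2 ^ 2 * (M : ℝ) ^ 2) ≤ (A * θ ^ 2 - κ) * (l2 ^ 2 * (M : ℝ) ^ 2) := by
      gcongr
    have h7 : A * l2 ^ 2 * (θ ^ 2 * (M : ℝ) ^ 2 - (2 * h + 1) * M) =
        A * θ ^ 2 * (l2 ^ 2 * (M : ℝ) ^ 2) - A * (l2 ^ 2 * ((2 * h + 1) * M)) := by ring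
    have h8 : (A * θ ^ 2 - κ) * (l2 ^ 2 * (M : ℝ) ^ 2) =
        A * θ ^ 2 * (l2 ^ 2 * (M : ℝ) ^ 2) - κ * l2 ^ 2 * (M : ℝ) ^ 2 := by ring
    have h9 : (l2 ^ 2 * (2 * h + 1) + 2 * l2 ^ 2 + P * l2) * M + (l2 ^ 2 + P * (l2 + Real.log q)) =
        1 * (l2 ^ 2 * ((2 * h + 1) * M)) +
          (2 * l2 ^ 2 * M + l2 ^ 2 + P * ((M + 1) * l2 + Real.log q)) := by ring
    have h10 : δ / 2 * l2 ^ 2 * (M : ℝ) ^ 2 = δ / 2 * (l2 ^ 2 * (M : ℝ) ^ 2) := by ring
    linarith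
  -- conclusion
  have hfin : h * (κ * (win p q 1 N).card) ≤ h * (vis p q 1 N x c r : ℝ) := by
    refine le_trans ?_ hlow
    calc h * (κ * ((win p q 1 N).card : ℝ))
        ≤ h * (κ * (1 / (2 * Real.log p * Real.log q) *
          (Real.log N ^ 2 + P * (Real.log N + Real.log q)))) := by gcongr
      _ = h / (2 * Real.log p * Real.log q) *
          (κ * (Real.log N ^ 2 + P * (Real.log N + Real.log q))) := by ring
      _ ≤ h / (2 * Real.log p * Real.log q) * (A * l2 ^ 2 * ((g : ℝ) * (g - 1))) := by gcongr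
      _ = (2 * r - ε) * (l2 / Real.log q * (h * l2 / Real.log p - 1)) *
          ((g : ℝ) * (g - 1) / 2) := by
        rw [hA, ht]
        exact alg hlp.ne' hlq.ne' hl2.ne' hh0.ne'
  exact le_of_mul_le_mul_left hfin hh0

end Pool.Agent.TH338.DD
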