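import Pool.Agent.TH338.DD.Good

/-!
Separated sets of points with few equidistributed windows are small.
-/

set_option autoImplicit false

open MeasureTheory Filter Topology Set

namespace Pool.Agent.TH338.DD

open Pool.Agent.W764.HL Pool.Agent.W764.SH
open Pool.Agent.W764.FB (T)

/-- the representative in `[0, 1)` -/
noncomputable def rep (x : T) : ℝ := (AddCircle.equivIco 1 0 x : ℝ)

lemma rep_nonneg (x : T) : 0 ≤ rep x := (AddCircle.equivIco 1 0 x).2.1

lemma rep_lt (x : T) : rep x < 1 := by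
  exact lt_of_lt_of_eq (AddCircle.equivIco 1 0 x).2.2 (zero_add (1 : ℝ))

lemma coe_rep (x : T) : ((rep x : ℝ) : T) = x := AddCircle.coe_equivIco

lemma norm_sub_eq (x y : T) (h : |rep x - rep y| ≤ 1 / 2) : ‖x - y‖ = |rep x - rep y| := by
  have h1 : x - y = ((rep x - rep y : ℝ) : T) := by
    rw [AddCircle.coe_sub, coe_rep, coe_rep]
  rw [h1, AddCircle.norm_coe_eq_abs_iff (1 : ℝ) one_ne_zero]
  simpa using h

lemma norm_sub_le (x y : T) : ‖x - y‖ ≤ |rep x - rep y| := by
  have h1 : x - y = ((rep x - rep y : ℝ) : T) := by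
    rw [AddCircle.coe_sub, coe_rep, coe_rep]
  rw [h1, UnitAddCircle.norm_eq]
  have := round_le (rep x - rep y) 0
  simpa using this

/-- the index of the dyadic cell of length `2 ^ (-i)` -/
noncomputable def cell (i : ℕ) (x : T) : ℕ := ⌊2 ^ i * rep x⌋₊

lemma cell_lt (i : ℕ) (x : T) : cell i x < 2 ^ i := by
  unfold cell
  have h1 := rep_lt x
  have h2 := rep_nonneg x
  have h3 : (2 : ℝ) ^ i * rep x < ((2 ^ i : ℕ) : ℝ) := by
    push_cast
    have : (0 : ℝ) < 2 ^ i := by positivity
    nlinarith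
  exact (Nat.floor_lt (by positivity)).2 h3

lemma cell_div (i k : ℕ) (x : T) : cell i x = cell (i + k) x / 2 ^ k := by
  unfold cell
  have e : (2 : ℝ) ^ i * rep x = 2 ^ (i + k) * rep x / ((2 ^ k : ℕ) : ℝ) := by
    push_cast
    rw [pow_add]
    field_simp
  rw [e, Nat.floor_div_natCast]

lemma cell_le (i : ℕ) (x : T) : (cell i x : ℝ) ≤ 2 ^ i * rep x :=
  Nat.floor_le (mul_nonneg (by positivity) (rep_nonneg x))

lemma lt_cell (i : ℕ) (x : T) : 2 ^ i * rep x < cell i x + 1 := Nat.lt_floor_add_one _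

/-- the same cell -/
lemma close_of_cell {i : ℕ} {x y : T} (h : cell i x = cell i y) :
    |rep x - rep y| < 1 / 2 ^ i := by
  have h1 := cell_le i x
  have h2 := lt_cell i x
  have h3 := cell_le i y
  have h4 := lt_cell i y
  rw [h] at h1 h2
  have h5 : (0 : ℝ) < 2 ^ i := by positivity
  rw [lt_div_iff₀ h5]
  have e : |rep x - rep y| * 2 ^ i = |2 ^ i * rep x - 2 ^ i * rep y| := by
    rw [← mul_sub, abs_mul, abs_of_pos h5, mul_comm]
  rw [e, abs_lt]
  constructor <;> linarith

/-- cells which are not adjacent -/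
lemma far_of_cell {i : ℕ} {x y : T} (h : cell i x + 2 ≤ cell i y ∨ cell i y + 2 ≤ cell i x) :
    1 / 2 ^ i ≤ |rep x - rep y| := by
  have h1 := cell_le i x
  have h2 := lt_cell i x
  have h3 := cell_le i y
  have h4 := lt_cell i y
  have h5 : (0 : ℝ) < 2 ^ i := by positivity
  rw [div_le_iff₀ h5]
  have e : |rep x - rep y| * 2 ^ i = |2 ^ i * rep x - 2 ^ i * rep y| := by
    rw [← mul_sub, abs_mul, abs_of_pos h5, mul_comm]
  rw [e, le_abs]
  rcases h with h | h
  · right
    have h6 : (cell i x : ℝ) + 2 ≤ cell i y := by exact_mod_cast h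
    linarith
  · left
    have h6 : (cell i y : ℝ) + 2 ≤ cell i x := by exact_mod_cast h
    linarith

/-- separated points in a cell -/
lemma card_cell {n i : ℕ} (hin : i ≤ n) {F : Finset T}
    (hF : ∀ x ∈ F, ∀ y ∈ F, x ≠ y → (1 / 2 : ℝ) ^ n ≤ ‖x - y‖) (a : ℕ) :
    (F.filter fun x => cell i x = a).card ≤ 2 ^ (n - i) := by
  classical
  have hmaps : ∀ x ∈ F.filter (fun x => cell i x = a),
      cell n x ∈ Finset.Ico (a * 2 ^ (n - i)) (a * 2 ^ (n - i) + 2 ^ (n - i)) := by
    intro x hx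
    have h1 := (Finset.mem_filter.1 hx).2
    have h2 := cell_div i (n - i) x
    rw [Nat.add_sub_cancel' hin, h1] at h2
    rw [Finset.mem_Ico]
    have h3 := Nat.div_add_mod (cell n x) (2 ^ (n - i))
    have h4 := Nat.mod_lt (cell n x) (show 0 < 2 ^ (n - i) by positivity)
    rw [← h2, Nat.mul_comm] at h3
    constructor <;> omega
  have hinj : Set.InjOn (cell n) (F.filter (fun x => cell i x = a) : Set T) := by
    intro x hx y hy hxy
    by_contra hne
    have h1 := hF x (Finset.mem_filter.1 hx).1 y (Finset.mem_filter.1 hy).1 hne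
    have h2 := close_of_cell hxy
    have h3 := norm_sub_le x y
    rw [one_div, inv_pow, ← one_div] at h1
    linarith
  have := Finset.card_le_card_of_injOn (cell n) hmaps hinj
  rwa [Nat.card_Ico, Nat.add_sub_cancel_left] at this

open Classical in
/-- the number of the scales `2 ^ i`, `i < n`, at which the window of `x` is equidistributed -/
noncomputable def gc (p q : ℕ) (ε H : ℝ) (n : ℕ) (x : T) : ℕ :=
  ((Finset.range n).filter fun i => Eqd p q ε H (2 ^ i) x).card

open Classical in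
lemma gc_le {p q : ℕ} {ε H : ℝ} {n : ℕ} {x : T} : gc p q ε H n x ≤ n :=
  (Finset.card_filter_le _ _).trans (by rw [Finset.card_range])

open Classical in
/-- one residue class of the scales -/
theorem class_count {p q : ℕ} {ε H : ℝ} {m L j0 : ℕ} (hm : 1 ≤ m) (hL : 1 ≤ L) (hj0 : 1 ≤ j0)
    (hgood : ∀ i : ℕ, j0 ≤ i → ∀ x : Fin m → T,
      (∀ a b, a ≠ b → 1 / 2 ^ i ≤ ‖x a - x b‖ ∧ ‖x a - x b‖ ≤ 2 ^ L / 2 ^ i) →
        ∃ a, Eqd p q ε H (2 ^ i) (x a))
    {n J l : ℕ} (hJ : l + J * L ≤ n) {F : Finset T}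
    (hF : ∀ x ∈ F, ∀ y ∈ F, x ≠ y → (1 / 2 : ℝ) ^ n ≤ ‖x - y‖) {G : ℕ}
    (hG : ∀ x ∈ F, ((Finset.range J).filter fun j => Eqd p q ε H (2 ^ (l + (j + 1) * L)) x).card ≤
      G) :
    (F.card : ℝ) ≤ 2 ^ (n - J * L) * (4 * m) ^ J * (2 * 2 ^ L) ^ (j0 + G) := by
  have h := tree_count F (2 ^ L) m J (2 ^ (n - (l + J * L))) (2 ^ l) (j0 + G)
    (Nat.one_le_two_pow) hm (fun j x => cell (l + j * L) x) (by
      intro j _ x _
      have := cell_div (l + j * L) L x
      have e : l + (j + 1) * L = l + j * L + L := by ring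
      rw [e]
      exact this)
    (fun j x => j < j0 ∨ Eqd p q ε H (2 ^ (l + (j + 1) * L)) x) (by
      intro j _ S hS hSm hsame hfar
      by_cases hj : j < j0
      · obtain ⟨x, hx⟩ : S.Nonempty := Finset.card_pos.1 (by omega)
        exact ⟨x, hx, Or.inl hj⟩
      · push Not at hj
        have hiL : j0 ≤ l + (j + 1) * L := by nlinarith
        have h1L : 1 ≤ l + j * L := by nlinarith
        set e := S.equivFinOfCardEq hSm with he
        obtain ⟨a, ha⟩ := hgood (l + (j + 1) * L) hiL (fun i => ((e.symm i : S) : T)) (by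
          intro a b hab
          have hne : ((e.symm a : S) : T) ≠ ((e.symm b : S) : T) := fun h =>
            hab (e.symm.injective (Subtype.ext h))
          have h1 := close_of_cell (hsame _ (e.symm a).2 _ (e.symm b).2)
          have h2 := far_of_cell (hfar _ (e.symm a).2 _ (e.symm b).2 hne)
          have h3 : (1 : ℝ) / 2 ^ (l + j * L) ≤ 1 / 2 := by
            have h4 : (2 : ℝ) ^ 1 ≤ 2 ^ (l + j * L) := pow_le_pow_right₀ (by norm_num) h1L
            rw [pow_one] at h4
            exact one_div_le_one_div_of_le (by norm_num) h4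
          have h4 := norm_sub_eq ((e.symm a : S) : T) ((e.symm b : S) : T) (h1.le.trans h3)
          rw [h4]
          refine ⟨h2, h1.le.trans (le_of_eq ?_)⟩
          have e1 : l + (j + 1) * L = l + j * L + L := by ring
          rw [e1, pow_add _ (l + j * L) L]
          field_simp)
        exact ⟨_, (e.symm a).2, Or.inr ha⟩)
    (fun a => card_cell hJ hF a) (fun x _ => by
      have := cell_lt (l + 0 * L) x
      simpa using this)
    (by
      intro x hx
      have h1 : (Finset.range J).filter (fun j => j < j0 ∨ Eqd p q ε H (2 ^ (l + (j + 1) * L)) x) ⊆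
          Finset.range j0 ∪
            ((Finset.range J).filter fun j => Eqd p q ε H (2 ^ (l + (j + 1) * L)) x) := by
        intro j hj
        rw [Finset.mem_filter] at hj
        rw [Finset.mem_union, Finset.mem_range, Finset.mem_filter]
        rcases hj.2 with h2 | h2
        · exact Or.inl h2
        · exact Or.inr ⟨hj.1, h2⟩
      refine (Finset.card_le_card h1).trans ((Finset.card_union_le _ _).trans ?_)
      rw [Finset.card_range]
      exact Nat.add_le_add_left (hG x hx) _)
  refine h.trans (le_of_eq ?_)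
  push_cast
  have e1 : (2 : ℝ) ^ l * 2 ^ (n - (l + J * L)) = 2 ^ (n - J * L) := by
    rw [← pow_add]
    congr 1
    omega
  rw [e1]

open Classical in
/-- **Separated sets.** -/
theorem separated {p q : ℕ} (hp : 2 ≤ p) (hq : 2 ≤ q) (hpq : Nat.Coprime p q) {ε : ℝ}
    (hε : 0 < ε) {σ : ℝ} (hσ : 0 < σ) : ∃ H0 : ℝ, 1 < H0 ∧ ∀ H : ℝ, H0 ≤ H → ∃ C : ℝ, 0 < C ∧
      ∀ n : ℕ, ∀ F : Finset T, (∀ x ∈ F, ∀ y ∈ F, x ≠ y → (1 / 2 : ℝ) ^ n ≤ ‖x - y‖) →
        ∀ η : ℝ, 0 ≤ η → (∀ x ∈ F, (gc p q ε H n x : ℝ) ≤ η * n) →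
          (F.card : ℝ) ≤ C * 2 ^ ((η + σ) * n) := by
  obtain ⟨m, hm⟩ := exists_nat_ge (2 / ε)
  have hm0 : (0 : ℝ) < m := lt_of_lt_of_le (by positivity) hm
  have hm1 : 1 ≤ m := by exact_mod_cast hm0
  obtain ⟨L, hLdef⟩ := exists_nat_ge (max 1 (max (2 / σ) (2 / σ * Real.logb 2 (4 * m))))
  have hL1R : (1 : ℝ) ≤ L := (le_max_left _ _).trans hLdef
  have hL1 : 1 ≤ L := by exact_mod_cast hL1R
  have hL2 : 2 / σ ≤ L := ((le_max_left _ _).trans (le_max_right _ _)).trans hLdef
  have hL3 : 2 / σ * Real.logb 2 (4 * m) ≤ L :=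
    ((le_max_right _ _).trans (le_max_right _ _)).trans hLdef
  have hL0 : (0 : ℝ) < L := by linarith
  have hσL : 1 ≤ σ / 2 * L := by
    rw [div_le_iff₀ hσ] at hL2; linarith
  have h4m : (4 * m : ℝ) ≤ 2 ^ (σ / 2 * L) := by
    have h1 : Real.logb 2 (4 * m) ≤ σ / 2 * L := by
      have h2 : Real.logb 2 (4 * m) = σ / 2 * (2 / σ * Real.logb 2 (4 * m)) := by field_simp
      rw [h2]
      gcongr
    calc (4 * m : ℝ) = 2 ^ (Real.logb 2 (4 * m)) :=
          (Real.rpow_logb (by norm_num) (by norm_num) (by positivity)).symm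
      _ ≤ 2 ^ (σ / 2 * L) := Real.rpow_le_rpow_of_exponent_le (by norm_num) h1
  obtain ⟨H0, hH0, h⟩ := cluster_good hp hq hpq hε hm (K := 2 ^ L) (one_le_pow₀ (by norm_num))
  refine ⟨H0, hH0, fun H hH => ?_⟩
  obtain ⟨X0, hX0, h2⟩ := h H hH
  obtain ⟨j1, hj1⟩ := pow_unbounded_of_one_lt X0 (by norm_num : (1 : ℝ) < 2)
  set j0 := j1 + 1 with hj0
  have hgood : ∀ i : ℕ, j0 ≤ i → ∀ x : Fin m → T,
      (∀ a b, a ≠ b → 1 / 2 ^ i ≤ ‖x a - x b‖ ∧ ‖x a - x b‖ ≤ 2 ^ L / 2 ^ i) →
        ∃ a, Eqd p q ε H (2 ^ i) (x a) := by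
    intro i hi x hx
    refine h2 (2 ^ i) ?_ x hx
    refine hj1.le.trans (pow_le_pow_right₀ (by norm_num) (by omega))
  set C : ℝ := L * (2 ^ (2 * L) * (2 * 2 ^ L) ^ j0) with hC
  have hC0 : 0 < C := by positivity
  refine ⟨C, hC0, fun n F hF => ?_⟩
  -- it is enough to treat `η ≤ 1`
  have main : ∀ η : ℝ, 0 ≤ η → η ≤ 1 → (∀ x ∈ F, (gc p q ε H n x : ℝ) ≤ η * n) →
      (F.card : ℝ) ≤ C * 2 ^ ((η + σ) * n) := by
    intro η hη hη1 hgc
    set J := n / L - 1 with hJ
    have hJL : J * L ≤ n := by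
      calc J * L ≤ n / L * L := Nat.mul_le_mul_right _ (Nat.sub_le _ _)
        _ ≤ n := Nat.div_mul_le_self _ _
    have hJL2 : n - J * L ≤ 2 * L := by
      have h3 := Nat.div_add_mod n L
      have h4 := Nat.mod_lt n (show 0 < L by omega)
      rcases Nat.eq_zero_or_pos (n / L) with h5 | h5
      · rw [h5, Nat.mul_zero, Nat.zero_add] at h3
        omega
      · have h6 : J * L + L = n / L * L := by
          rw [hJ, Nat.sub_mul, Nat.one_mul, Nat.sub_add_cancel]
          exact Nat.le_mul_of_pos_left _ h5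
        have h7 : L * (n / L) = n / L * L := Nat.mul_comm _ _
        omega
    -- the case of few scales
    rcases Nat.eq_zero_or_pos (n / L) with h5 | h5
    · have hnL : n < L := by
        rwa [Nat.div_eq_zero_iff_lt (by omega)] at h5
      have h6 : (F.card : ℝ) ≤ 2 ^ n := by
        have h7 := card_cell (Nat.zero_le n) hF 0
        have h8 : F.filter (fun x => cell 0 x = 0) = F := by
          refine Finset.filter_true_of_mem fun x _ => ?_
          have := cell_lt 0 x
          omega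
        rw [h8, Nat.sub_zero] at h7
        exact_mod_cast h7
      have h7 : (2 : ℝ) ^ n ≤ 2 ^ (2 * L) := pow_le_pow_right₀ (by norm_num) (by omega)
      have h8 : (1 : ℝ) ≤ (2 * 2 ^ L) ^ j0 := one_le_pow₀ (by
        have : (1 : ℝ) ≤ 2 ^ L := one_le_pow₀ (by norm_num)
        linarith)
      have h9 : (1 : ℝ) ≤ 2 ^ ((η + σ) * n) := Real.one_le_rpow (by norm_num) (by positivity)
      calc (F.card : ℝ) ≤ 2 ^ (2 * L) := h6.trans h7
        _ = 1 * (2 ^ (2 * L) * 1) * 1 := by ring
        _ ≤ L * (2 ^ (2 * L) * (2 * 2 ^ L) ^ j0) * 2 ^ ((η + σ) * n) := by gcongr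
        _ = C * 2 ^ ((η + σ) * n) := by rw [hC]
    have h6 : J * L + L = n / L * L := by
      rw [hJ, Nat.sub_mul, Nat.one_mul, Nat.sub_add_cancel]
      exact Nat.le_mul_of_pos_left _ h5
    have h7 : n / L * L ≤ n := Nat.div_mul_le_self _ _
    have hJl : ∀ l < L, l + J * L ≤ n := fun l hl => by omega
    have hJn : (J + 1) * L ≤ n := by
      rw [Nat.add_mul, Nat.one_mul]; omega
    -- the pigeonhole principle
    set N : ℕ → T → ℕ := fun l x =>
      ((Finset.range J).filter fun j => Eqd p q ε H (2 ^ (l + (j + 1) * L)) x).card with hN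
    have hpig : ∀ x : T, ∑ l ∈ Finset.range L, N l x ≤ gc p q ε H n x := by
      intro x
      have h8 : ∑ l ∈ Finset.range L, N l x = ((Finset.range L).sigma fun l =>
          (Finset.range J).filter fun j => Eqd p q ε H (2 ^ (l + (j + 1) * L)) x).card := by
        rw [Finset.card_sigma]
      rw [h8]
      unfold gc
      refine Finset.card_le_card_of_injOn (fun u : (_ : ℕ) × ℕ => u.1 + (u.2 + 1) * L) ?_ ?_
      · rintro ⟨l, j⟩ hu
        rw [Finset.mem_coe, Finset.mem_sigma, Finset.mem_range, Finset.mem_filter,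
          Finset.mem_range] at hu
        obtain ⟨h9, h10, h11⟩ := hu
        rw [Finset.mem_coe, Finset.mem_filter, Finset.mem_range]
        refine ⟨?_, h11⟩
        have h12 : (j + 1) * L ≤ J * L := Nat.mul_le_mul_right _ h10
        show l + (j + 1) * L < n
        simp only at h9
        rw [Nat.add_mul, Nat.one_mul] at hJn
        omega
      · rintro ⟨l, j⟩ hu ⟨l', j'⟩ hu' heq
        rw [Finset.mem_coe, Finset.mem_sigma, Finset.mem_range] at hu hu'
        have h9 : l < L := hu.1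
        have h10 : l' < L := hu'.1
        simp only at heq
        have h11 : l = l' := by
          have h12 := congrArg (· % L) heq
          simp only [Nat.add_mul_mod_self_right] at h12
          rwa [Nat.mod_eq_of_lt h9, Nat.mod_eq_of_lt h10] at h12
        subst h11
        have h13 : (j + 1) * L = (j' + 1) * L := by omega
        have h14 := Nat.eq_of_mul_eq_mul_right (by omega) h13
        have h15 : j = j' := by omega
        rw [h15]
    set G : ℕ := ⌊η * n / L⌋₊ with hG
    have hclass : ∀ x ∈ F, ∃ l ∈ Finset.range L, N l x ≤ G := by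
      intro x hx
      by_contra hcon
      push Not at hcon
      have h8 : L * (G + 1) ≤ ∑ l ∈ Finset.range L, N l x := by
        have := Finset.card_nsmul_le_sum (Finset.range L) (fun l => N l x) (G + 1)
          fun l hl => hcon l hl
        rwa [Finset.card_range, smul_eq_mul] at this
      have h9 := h8.trans (hpig x)
      have h10 : ((L * (G + 1) : ℕ) : ℝ) ≤ η * n := le_trans (by exact_mod_cast h9) (hgc x hx)
      push_cast at h10
      have h11 : η * n / L < G + 1 := Nat.lt_floor_add_one _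
      rw [div_lt_iff₀ hL0] at h11
      linarith
    have hcover : F ⊆ (Finset.range L).biUnion fun l => F.filter fun x => N l x ≤ G := by
      intro x hx
      obtain ⟨l, hl, h8⟩ := hclass x hx
      exact Finset.mem_biUnion.2 ⟨l, hl, Finset.mem_filter.2 ⟨hx, h8⟩⟩
    have hone : ∀ l ∈ Finset.range L, ((F.filter fun x => N l x ≤ G).card : ℝ) ≤
        2 ^ (2 * L) * (4 * m) ^ J * (2 * 2 ^ L) ^ (j0 + G) := by
      intro l hl
      have h8 := class_count (p := p) (q := q) (ε := ε) (H := H) hm1 hL1 (by omega : 1 ≤ j0) hgood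
        (hJl l (Finset.mem_range.1 hl)) (F := F.filter fun x => N l x ≤ G)
        (fun x hx y hy => hF x (Finset.mem_filter.1 hx).1 y (Finset.mem_filter.1 hy).1)
        (G := G) (fun x hx => (Finset.mem_filter.1 hx).2)
      refine h8.trans ?_
      gcongr
      · norm_num
    have h8 : (F.card : ℝ) ≤ L * (2 ^ (2 * L) * (4 * m) ^ J * (2 * 2 ^ L) ^ (j0 + G)) := by
      have h9 : (F.card : ℝ) ≤ ∑ l ∈ Finset.range L, ((F.filter fun x => N l x ≤ G).card : ℝ) := by
        have := (Finset.card_le_card hcover).trans Finset.card_biUnion_le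
        exact_mod_cast this
      refine h9.trans ((Finset.sum_le_card_nsmul _ _ _ hone).trans ?_)
      rw [Finset.card_range, nsmul_eq_mul]
    have h9 : (4 * m : ℝ) ^ J ≤ 2 ^ (σ / 2 * n) := by
      calc (4 * m : ℝ) ^ J ≤ (2 ^ (σ / 2 * L)) ^ J := by gcongr
        _ = 2 ^ (σ / 2 * L * J) := by rw [← Real.rpow_natCast, ← Real.rpow_mul (by norm_num)]
        _ ≤ 2 ^ (σ / 2 * n) := by
          refine Real.rpow_le_rpow_of_exponent_le (by norm_num) ?_
          have h10 : (J : ℝ) * L ≤ n := by exact_mod_cast hJL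
          calc σ / 2 * L * J = σ / 2 * (J * L) := by ring
            _ ≤ σ / 2 * n := by gcongr
    have h10 : ((2 : ℝ) * 2 ^ L) ^ G ≤ 2 ^ (η * n + σ / 2 * n) := by
      have e1 : (2 : ℝ) * 2 ^ L = 2 ^ ((L : ℝ) + 1) := by
        rw [Real.rpow_add_one (by norm_num), Real.rpow_natCast]; ring
      rw [e1, ← Real.rpow_natCast, ← Real.rpow_mul (by norm_num)]
      refine Real.rpow_le_rpow_of_exponent_le (by norm_num) ?_
      have h11 : (G : ℝ) ≤ η * n / L := Nat.floor_le (by positivity)
      calc ((L : ℝ) + 1) * G ≤ ((L : ℝ) + 1) * (η * n / L) := by gcongr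
        _ = η * n + η * n / L := by field_simp
        _ ≤ η * n + σ / 2 * n := by
          have h12 : η * n / L ≤ σ / 2 * n := by
            rw [div_le_iff₀ hL0]
            have hn0 : (0 : ℝ) ≤ n := Nat.cast_nonneg n
            calc η * n ≤ 1 * n := by gcongr
              _ ≤ (σ / 2 * L) * n := by gcongr
              _ = σ / 2 * n * L := by ring
          linarith
    calc (F.card : ℝ) ≤ L * (2 ^ (2 * L) * (4 * m) ^ J * (2 * 2 ^ L) ^ (j0 + G)) := h8
      _ = C * ((4 * m) ^ J * (2 * 2 ^ L) ^ G) := by rw [hC, pow_add]; ring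
      _ ≤ C * (2 ^ (σ / 2 * n) * 2 ^ (η * n + σ / 2 * n)) := by gcongr
      _ = C * 2 ^ ((η + σ) * n) := by
        rw [← Real.rpow_add (by norm_num)]
        congr 2
        ring
  intro η hη hgc
  rcases le_total η 1 with h1 | h1
  · exact main η hη h1 hgc
  · refine (main 1 zero_le_one le_rfl fun x _ => ?_).trans ?_
    · rw [one_mul]; exact_mod_cast gc_le
    · gcongr
      norm_num

end Pool.Agent.TH338.DD
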