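import Pool.Agent.W764.HL.Gen
import Pool.Agent.TH338.DD.Dim

/-!
Points which are generic along windows for a measure other than Lebesgue measure.
-/

set_option autoImplicit false

open MeasureTheory Filter Topology Set
open scoped ENNReal NNReal MeasureTheory

namespace Pool.Agent.TH338.DD

open Pool.Agent.W764.HL Pool.Agent.W764.SH
open Pool.Agent.W764.FB (T)

/-- lower bounds for arcs from genericity -/
lemma arc_lower2 {p q : ℕ} {μ : Measure T} [IsProbabilityMeasure μ] {x : T}
    (hg : WGen p q μ x)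
    (hx : ∀ ε : ℝ, 0 < ε → ∃ H0 : ℕ, ∀ H : ℕ, H0 ≤ H →
      ∀ X0 : ℝ, ∃ X : ℝ, X0 ≤ X ∧ (win p q X (H * X)).Nonempty ∧
        ∀ c : T, ∀ r : ℝ, 0 ≤ r → r ≤ 1 / 2 →
          (2 * r - ε) * (win p q X (H * X)).card ≤ (vis p q X (H * X) x c r : ℝ))
    (c : T) {r : ℝ} (hr0 : 0 ≤ r) (hr : r ≤ 1 / 2) : 2 * r ≤ μ.real (Metric.closedBall c r) := by
  classical
  refine le_of_forall_pos_le_add fun e he => ?_
  rcases le_or_gt r (e / 4) with h0 | h0
  · have : 0 ≤ μ.real (Metric.closedBall c r) := measureReal_nonneg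
    linarith
  set r' : ℝ := r - e / 4 with hr'
  have hr'0 : 0 ≤ r' := by linarith
  set f : T → ℝ := fun y => max 0 (min 1 (1 - (‖y - c‖ - r') / (e / 4))) with hf
  have hfc : Continuous f := by
    rw [hf]
    exact continuous_const.max (continuous_const.min (continuous_const.sub
      (((continuous_id.sub continuous_const).norm.sub continuous_const).div_const _)))
  have hf0 : ∀ y, 0 ≤ f y := fun y => le_max_left _ _
  have hf1 : ∀ y, f y ≤ 1 := fun y => max_le zero_le_one (min_le_left _ _)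
  have hfin : ∀ y, ‖y - c‖ ≤ r' → f y = 1 := by
    intro y hy
    simp only [hf]
    have h1 : (‖y - c‖ - r') / (e / 4) ≤ 0 :=
      div_nonpos_of_nonpos_of_nonneg (by linarith) (by positivity)
    rw [min_eq_left (by linarith), max_eq_right zero_le_one]
  have hfout : ∀ y, y ∉ Metric.closedBall c r → f y = 0 := by
    intro y hy
    rw [Metric.mem_closedBall, dist_eq_norm, not_le] at hy
    simp only [hf]
    have h1 : 1 ≤ (‖y - c‖ - r') / (e / 4) := by
      rw [le_div_iff₀ (by positivity)]; linarith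
    have h2 : min 1 (1 - (‖y - c‖ - r') / (e / 4)) ≤ 0 := (min_le_right _ _).trans (by linarith)
    exact max_eq_left h2
  have hint : ∫ y, f y ∂μ ≤ μ.real (Metric.closedBall c r) := by
    have hm : MeasurableSet (Metric.closedBall c r) := measurableSet_closedBall
    calc ∫ y, f y ∂μ ≤ ∫ y, (Metric.closedBall c r).indicator (fun _ => (1 : ℝ)) y ∂μ := by
          refine integral_mono (Pool.Agent.H847R3.XpXq.integrable_of_cont hfc μ)
            ((integrable_const 1).indicator hm) fun y => ?_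
          by_cases hy : y ∈ Metric.closedBall c r
          · rw [indicator_of_mem hy]; exact hf1 y
          · rw [indicator_of_notMem hy, hfout y hy]
      _ = μ.real (Metric.closedBall c r) := by
          rw [integral_indicator hm, setIntegral_const, smul_eq_mul, mul_one]
  obtain ⟨H1, hH1⟩ := hg f hfc (e / 4) (by positivity)
  obtain ⟨H2, hH2⟩ := hx (e / 4) (by positivity)
  obtain ⟨H3, hH31, hH32⟩ : ∃ H3, H1 ≤ H3 ∧ H2 ≤ H3 :=
    ⟨max H1 H2, le_max_left _ _, le_max_right _ _⟩
  obtain ⟨X0, hX0⟩ := hH1 H3 hH31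
  obtain ⟨X, hX, hne, hv⟩ := hH2 H3 hH32 X0
  have h1 := hX0 X hX
  have h2 := hv c r' hr'0 (by linarith)
  set W := win p q X (H3 * X) with hW
  have hWR : (0 : ℝ) < W.card := by exact_mod_cast hne.card_pos
  have h3 : (vis p q X (H3 * X) x c r' : ℝ) ≤ ∑ n ∈ W, f (n • x) := by
    unfold vis
    rw [Finset.card_filter]
    push_cast
    refine Finset.sum_le_sum fun n _ => ?_
    split_ifs with hn
    · rw [hfin _ hn]
    · exact hf0 _
  rw [abs_le] at h1
  have h4 : (2 * r' - e / 4) * W.card ≤ (∫ y, f y ∂μ + e / 4) * W.card := by linarith [h1.2]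
  have h5 := le_of_mul_le_mul_right h4 hWR
  linarith

/-- lower bounds for arcs imply lower bounds for all sets -/
lemma vol_le {μ : Measure T} [IsProbabilityMeasure μ]
    (h : ∀ c : T, ∀ r : ℝ, 0 ≤ r → r ≤ 1 / 2 → 2 * r ≤ μ.real (Metric.closedBall c r))
    (s : Set T) : (volume : Measure T) s ≤ μ s := by
  set v := IsUnifLocDoublingMeasure.vitaliFamily (volume : Measure T) 1 with hv
  refine v.measure_le_of_frequently_le (ρ := (volume : Measure T)) μ
    Measure.AbsolutelyContinuous.rfl s ?_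
  intro x _
  have h2 : Tendsto (fun δ : ℝ => Metric.closedBall x δ) (𝓝[>] 0) (v.filterAt x) :=
    IsUnifLocDoublingMeasure.tendsto_closedBall_filterAt (volume : Measure T) (fun _ => x)
      (fun δ => δ) tendsto_id (by
        filter_upwards [self_mem_nhdsWithin] with δ hδ
        rw [one_mul]
        exact Metric.mem_closedBall_self (le_of_lt hδ))
  refine h2.frequently (Eventually.frequently ?_)
  have h3 : ∀ᶠ δ : ℝ in 𝓝[>] 0, δ < 1 / 2 :=
    nhdsWithin_le_nhds (gt_mem_nhds (by norm_num))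
  filter_upwards [self_mem_nhdsWithin, h3] with δ hδ hδ2
  have hδ0 : 0 < δ := hδ
  rw [AddCircle.volume_closedBall, min_eq_right (by linarith)]
  exact (ENNReal.ofReal_le_iff_le_toReal (measure_ne_top _ _)).2 (h x δ hδ0.le hδ2.le)

/-- a probability measure which is at least Lebesgue measure -/
lemma eq_vol {μ : Measure T} [IsProbabilityMeasure μ] (h : ∀ s : Set T, (volume : Measure T) s ≤ μ s) :
    μ = volume :=
  (Measure.eq_of_le_of_isProbabilityMeasure (Measure.le_intro fun s _ _ => h s)).symm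

/-- window-generic points with a positive proportion of equidistributed scales -/
lemma wgen_eq {p q : ℕ} {μ : Measure T} [IsProbabilityMeasure μ] {x : T} (hg : WGen p q μ x)
    {θ : ℝ} (hθ : 0 < θ) (hx : Dens p q θ x) : μ = volume := by
  classical
  refine eq_vol (vol_le fun c r hr0 hr => arc_lower2 hg (fun ε hε => ?_) c hr0 hr)
  obtain ⟨H0, h1⟩ := hx ε hε
  refine ⟨H0, fun H hH X0 => ?_⟩
  have h2 := h1 H hH
  obtain ⟨i0, hi0⟩ := pow_unbounded_of_one_lt X0 (by norm_num : (1 : ℝ) < 2)
  obtain ⟨i, hi, hgood⟩ : ∃ i, i0 ≤ i ∧ Eqd p q ε H (2 ^ i) x := by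
    by_contra hcon
    push Not at hcon
    have h3 : ∀ n, gc p q ε H n x ≤ i0 := by
      intro n
      unfold gc
      have h4 : (Finset.range n).filter (fun i => Eqd p q ε H (2 ^ i) x) ⊆ Finset.range i0 := by
        intro i hi
        rw [Finset.mem_filter] at hi
        rw [Finset.mem_range]
        by_contra hcon2
        exact hcon i (by omega) hi.2
      refine (Finset.card_le_card h4).trans ?_
      rw [Finset.card_range]
    obtain ⟨n1, hn1⟩ := exists_nat_gt ((i0 : ℝ) / θ)
    obtain ⟨n, hn, hn2⟩ := (h2.and (eventually_ge_atTop n1)).exists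
    have h4 : (gc p q ε H n x : ℝ) ≤ i0 := by exact_mod_cast h3 n
    have h5 : (i0 : ℝ) / θ < n := hn1.trans_le (by exact_mod_cast hn2)
    rw [div_lt_iff₀ hθ] at h5
    linarith
  refine ⟨2 ^ i, hi0.le.trans (pow_le_pow_right₀ (by norm_num) hi), hgood.1, fun c r hr0 hr => ?_⟩
  have h3 := (abs_le.1 (hgood.2 c r hr0 hr)).1
  linarith

/-- **Generic points of other measures.** -/
theorem dim_generic {p q : ℕ} (hp : 2 ≤ p) (hq : 2 ≤ q) (hpq : Nat.Coprime p q) :
    dimH {x : T | ∃ μ : Measure T, IsProbabilityMeasure μ ∧ WGen p q μ x ∧ μ ≠ volume} = 0 := by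
  refine le_antisymm ?_ zero_le
  refine ENNReal.le_of_forall_pos_le_add fun e he _ => ?_
  rw [zero_add]
  refine (dimH_mono ?_).trans (dim_le hp hq hpq e)
  rintro x ⟨μ, hμ, hg, hne⟩ hx
  exact hne (wgen_eq hg (by exact_mod_cast he) hx)

end Pool.Agent.TH338.DD
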